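import Pool.Agent.Lib.MP_06b9d2_ssp.Defs

/-!
Module SSP-POa. Polynomial functions over a valuation ring `O` of `ℂ` in which `3` is not a unit.

`exists_O`: a maximal local subring dominating the localization of `ℤ` at `3`: `LocalSubring.exists_le_valuationSubring`
(or `LocalSubring.exists_valuationRing_of_isMax`, ...), or: Mathlib's extension of valuations / a maximal ideal of the integral
closure; any way is fine. (`O.valuation x < 1` iff `x ∈ O` and `x` is not a unit of `O`; `ValuationSubring.valuation_lt_one_iff`,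
`ValuationSubring.valuation_le_one_iff`.)
`int_mem`: `O.valuation (n : ℂ) ≤ 1`. `val_int`: if `3 ∤ n` then `1 = 3 a + n b` gives `O.valuation n = 1`.
`val_rat`: `O.valuation (a / b) ≤ 1` for integers `a`, `b` with `3 ∤ b`.
`PO`: closed under sums, products, contains the constants of `O` and the identity, closed under `s ↦ f (s + r)`
(`Polynomial.comp`/`aeval` with `X + C r`).
`dm27`: `3 ^ (m + n) / (m! n!) = 27 a / b` with `3 ∤ b` if `m + n ≥ 4` or `(m, n) = (2, 1), (1, 2)`; `= 9 a / b` if `m + n ≥ 2`: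
the exponent of `3` in `m!` is at most `(m - 1) / 2` for `m ≥ 1` (Legendre: `sub_one_mul_padicValNat_factorial`:
`2 v(m!) = m - (sum of digits) ≤ m - 1`), so `v(m!) + v(n!) ≤ (m + n - 1) / 2` if `m + n ≥ 1`, and
`m + n - (m + n - 1) / 2 ≥ 3` for `m + n ≥ 4` (natural division: `4 - 1 = 3`), `≥ 2` for `m + n ≥ 2`.
The products `∏ (N - s - i)`, `∏ (s - i)` are polynomial functions over `ℤ`, and powers of `2` are units of `O`.
-/

namespace Pool.Agent.Lib.MP_06b9d2_ssp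

open PowerSeries Pool.Agent.L1

theorem exists_O : ∃ O : ValuationSubring ℂ, O.valuation 3 < 1 := by
  have h3 : (3 : ℂ) ∈ (Int.castRingHom ℂ).range := ⟨3, by simp⟩
  have hI : Ideal.span {(⟨3, h3⟩ : (Int.castRingHom ℂ).range)} ≠ ⊤ := by
    rw [Ne, Ideal.eq_top_iff_one, Ideal.mem_span_singleton']
    rintro ⟨⟨_, n, rfl⟩, ha⟩
    have h1 := congrArg Subtype.val ha
    have h2 : (n : ℂ) * 3 = 1 := h1
    have h4 : n * 3 = 1 := by exact_mod_cast h2
    omega
  obtain ⟨B, _, hB⟩ := Ideal.image_subset_nonunits_valuationSubring _ hI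
  refine ⟨B, ?_⟩
  rw [← ValuationSubring.mem_nonunits_iff]
  exact hB ⟨⟨3, h3⟩, Ideal.mem_span_singleton_self _, rfl⟩

variable {O : ValuationSubring ℂ}

theorem int_mem (O : ValuationSubring ℂ) (n : ℤ) : O.valuation (n : ℂ) ≤ 1 :=
  (ValuationSubring.valuation_le_one_iff O _).2 (intCast_mem O n)

theorem val_int (h3 : O.valuation 3 < 1) (n : ℤ) (hn : ¬ (3 : ℤ) ∣ n) :
    O.valuation (n : ℂ) = 1 := by
  refine le_antisymm (int_mem O n) (not_lt.1 fun hlt => ?_)
  have hc : IsCoprime (3 : ℤ) n := (Int.prime_three.coprime_iff_not_dvd).2 hn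
  obtain ⟨a, b, hab⟩ := hc
  have h1 : (a : ℂ) * 3 + (b : ℂ) * n = 1 := by exact_mod_cast hab
  have h2 : O.valuation ((a : ℂ) * 3 + (b : ℂ) * n) < 1 := by
    refine lt_of_le_of_lt (Valuation.map_add O.valuation _ _) (max_lt ?_ ?_)
    · rw [map_mul]
      exact lt_of_le_of_lt (mul_le_of_le_one_left' (int_mem O a)) h3
    · rw [map_mul]
      exact lt_of_le_of_lt (mul_le_of_le_one_left' (int_mem O b)) hlt
  rw [h1, map_one] at h2
  exact lt_irrefl _ h2

theorem val_rat (h3 : O.valuation 3 < 1) (a b : ℤ) (hb : ¬ (3 : ℤ) ∣ b) :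
    O.valuation ((a : ℂ) / (b : ℂ)) ≤ 1 := by
  rw [map_div₀, val_int h3 b hb, div_one]
  exact int_mem O a

theorem PO_const (r : ℂ) (hr : O.valuation r ≤ 1) : PO O (fun _ => r) := by
  refine ⟨Polynomial.C ⟨r, (ValuationSubring.valuation_le_one_iff O _).1 hr⟩, fun s => ?_⟩
  rw [Polynomial.aeval_C]
  rfl

theorem PO_id : PO O (fun s => (s : ℂ)) :=
  ⟨Polynomial.X, fun s => (Polynomial.aeval_X _).symm⟩

theorem PO_add {f g : ℤ → ℂ} (hf : PO O f) (hg : PO O g) : PO O (fun s => f s + g s) := by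
  obtain ⟨p, hp⟩ := hf
  obtain ⟨q, hq⟩ := hg
  refine ⟨p + q, fun s => ?_⟩
  show f s + g s = _
  rw [map_add, hp, hq]

theorem PO_mul {f g : ℤ → ℂ} (hf : PO O f) (hg : PO O g) : PO O (fun s => f s * g s) := by
  obtain ⟨p, hp⟩ := hf
  obtain ⟨q, hq⟩ := hg
  refine ⟨p * q, fun s => ?_⟩
  show f s * g s = _
  rw [map_mul, hp, hq]

theorem PO_shift {f : ℤ → ℂ} (hf : PO O f) (r : ℤ) : PO O (fun s => f (s + r)) := by
  obtain ⟨p, hp⟩ := hf
  refine ⟨p.comp (Polynomial.X + (r : Polynomial O)), fun s => ?_⟩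
  show f (s + r) = _
  rw [hp, Polynomial.aeval_comp, map_add, Polynomial.aeval_X, map_intCast, Int.cast_add]

private theorem PO_prod {f : ℕ → ℤ → ℂ} (hf : ∀ i, PO O (f i)) (m : ℕ) :
    PO O (fun s => ∏ i ∈ Finset.range m, f i s) := by
  induction m with
  | zero =>
    have h := PO_const (O := O) 1 (by rw [map_one])
    simpa using h
  | succ m ih =>
    have h := PO_mul ih (hf m)
    simpa only [Finset.prod_range_succ] using h

private theorem PO_int (O : ValuationSubring ℂ) (n : ℤ) : PO O (fun _ => (n : ℂ)) :=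
  PO_const _ (int_mem O n)

private theorem PO_desc (O : ValuationSubring ℂ) (N m n : ℕ) :
    PO O (fun s => (∏ i ∈ Finset.range m, ((N : ℂ) - (s : ℂ) - (i : ℂ))) *
      ∏ i ∈ Finset.range n, ((s : ℂ) - (i : ℂ))) := by
  refine PO_mul (PO_prod (f := fun i s => (N : ℂ) - (s : ℂ) - (i : ℂ)) (fun i => ?_) m)
    (PO_prod (f := fun i s => (s : ℂ) - (i : ℂ)) (fun i => ?_) n)
  · have h := PO_add (PO_int O ((N : ℤ) - i)) (PO_mul (PO_int O (-1)) (PO_id (O := O)))
    have e : (fun s : ℤ => (((N : ℤ) - i : ℤ) : ℂ) + ((-1 : ℤ) : ℂ) * (s : ℂ)) =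
        fun s : ℤ => (N : ℂ) - (s : ℂ) - (i : ℂ) := by
      funext s; push_cast; ring
    rwa [e] at h
  · have h := PO_add (PO_int O (-(i : ℤ))) (PO_id (O := O))
    have e : (fun s : ℤ => ((-(i : ℤ) : ℤ) : ℂ) + (s : ℂ)) = fun s : ℤ => (s : ℂ) - (i : ℂ) := by
      funext s; push_cast; ring
    rwa [e] at h

private theorem val_fact (m : ℕ) : 2 * padicValNat 3 m.factorial ≤ m - 1 := by
  have : Fact (Nat.Prime 3) := ⟨Nat.prime_three⟩
  have h := sub_one_mul_padicValNat_factorial (p := 3) m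
  rcases Nat.eq_zero_or_pos m with h0 | h0
  · subst h0; simp
  · have h1 : 1 ≤ (Nat.digits 3 m).sum := by
      by_contra hc
      have h2 : (Nat.digits 3 m).sum = 0 := by omega
      have h4 : m ≠ 0 := by omega
      have h5 := Nat.getLast_digit_ne_zero 3 h4
      have h6 := List.getLast_mem (l := Nat.digits 3 m) (Nat.digits_ne_nil_iff_ne_zero.2 h4)
      exact h5 (List.sum_eq_zero_iff.1 h2 _ h6)
    omega

private theorem dm_aux (h3 : O.valuation 3 < 1) (N m n c : ℕ)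
    (hc : padicValNat 3 (m.factorial * n.factorial) + c ≤ m + n) :
    ∃ g : ℤ → ℂ, PO O g ∧ ∀ s, dm N m n s = 3 ^ c * g s := by
  have : Fact (Nat.Prime 3) := ⟨Nat.prime_three⟩
  set e := padicValNat 3 (m.factorial * n.factorial) with he
  have hne : m.factorial * n.factorial ≠ 0 :=
    mul_ne_zero (Nat.factorial_ne_zero m) (Nat.factorial_ne_zero n)
  obtain ⟨b, hb⟩ : 3 ^ e ∣ m.factorial * n.factorial := pow_padicValNat_dvd
  have hb3 : ¬ 3 ∣ b := by
    intro hd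
    have h1 : 3 ^ (e + 1) ∣ m.factorial * n.factorial := by
      rw [hb, pow_succ]
      exact mul_dvd_mul_left _ hd
    exact pow_succ_padicValNat_not_dvd hne h1
  have hb0 : b ≠ 0 := fun h => hb3 (h ▸ dvd_zero 3)
  obtain ⟨t, ht⟩ : ∃ t, m + n = e + c + t := ⟨m + n - (e + c), by omega⟩
  have h2b : ¬ (3 : ℤ) ∣ 2 ^ (m + n) * (b : ℤ) := by
    intro hd
    rcases Int.prime_three.dvd_or_dvd hd with h | h
    · have := Int.prime_three.dvd_of_dvd_pow h
      omega
    · exact hb3 (by exact_mod_cast h)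
  refine ⟨fun s => (((-1) ^ m * 3 ^ t : ℤ) : ℂ) / ((2 ^ (m + n) * (b : ℤ) : ℤ) : ℂ) *
    ((∏ i ∈ Finset.range m, ((N : ℂ) - (s : ℂ) - (i : ℂ))) *
      ∏ i ∈ Finset.range n, ((s : ℂ) - (i : ℂ))),
    PO_mul (PO_const _ (val_rat h3 _ _ h2b)) (PO_desc O N m n), fun s => ?_⟩
  unfold dm
  have hmn : ((m.factorial : ℂ) * (n.factorial : ℂ)) = 3 ^ e * b := by exact_mod_cast hb
  rw [hmn, ← mul_assoc ((3 : ℂ) ^ c)]
  congr 1
  have hb' : (b : ℂ) ≠ 0 := by exact_mod_cast hb0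
  have h3' : (3 : ℂ) ^ (m + n) = 3 ^ e * 3 ^ c * 3 ^ t := by rw [ht, pow_add, pow_add]
  have h4 : (-(3 / 2) : ℂ) ^ m * (3 / 2) ^ n = (-1) ^ m * 3 ^ (m + n) / 2 ^ (m + n) := by
    rw [neg_pow, div_pow, div_pow, pow_add, pow_add]
    field_simp
  rw [h4, h3']
  push_cast
  field_simp

theorem dm27 (h3 : O.valuation 3 < 1) (N m n : ℕ)
    (h : 4 ≤ m + n ∨ (m = 2 ∧ n = 1) ∨ (m = 1 ∧ n = 2)) :
    ∃ g : ℤ → ℂ, PO O g ∧ ∀ s, dm N m n s = 27 * g s := by
  have : Fact (Nat.Prime 3) := ⟨Nat.prime_three⟩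
  have hc : padicValNat 3 (m.factorial * n.factorial) + 3 ≤ m + n := by
    rw [padicValNat.mul (Nat.factorial_ne_zero m) (Nat.factorial_ne_zero n)]
    have h1 := val_fact m
    have h2 := val_fact n
    omega
  obtain ⟨g, hg, hs⟩ := dm_aux h3 N m n 3 hc
  exact ⟨g, hg, fun s => by rw [hs]; norm_num⟩

theorem dm9 (h3 : O.valuation 3 < 1) (N m n : ℕ) (h : 2 ≤ m + n) :
    ∃ g : ℤ → ℂ, PO O g ∧ ∀ s, dm N m n s = 9 * g s := by
  have : Fact (Nat.Prime 3) := ⟨Nat.prime_three⟩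
  have hc : padicValNat 3 (m.factorial * n.factorial) + 2 ≤ m + n := by
    rw [padicValNat.mul (Nat.factorial_ne_zero m) (Nat.factorial_ne_zero n)]
    have h1 := val_fact m
    have h2 := val_fact n
    omega
  obtain ⟨g, hg, hs⟩ := dm_aux h3 N m n 2 hc
  exact ⟨g, hg, fun s => by rw [hs]; norm_num⟩

end Pool.Agent.Lib.MP_06b9d2_ssp
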