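import Pool.Agent.Lib.MP_06b9d2_ssp.Ind

/-!
Module SSP-Rep. Level one forms in terms of level three forms.

`bas ℂ k j = dl ^ j * e4 ^ ba * e6 ^ bb`, `4 ba + 6 bb + 12 j = k` (`ba_eq`). With `β = a ^ 3 - 27 c`, `γ = 27 c`, `N = k / 3`, `e = k % 3`:
`dl = β ^ 3 γ / 27` (`lv_dl`), `e4 = a (β + 9 γ)`, `e6 = β ^ 2 - 18 β γ - 27 γ ^ 2`, `a ^ 3 = β + γ`. `ba = 3 i + e` (as `ba = 4 ba = k` modulo `3`), so
`bas ℂ k j = a ^ e * (27⁻¹) ^ j β ^ (3 j) γ ^ j (β + γ) ^ i (β + 9 γ) ^ ba (β ^ 2 - 18 β γ - 27 γ ^ 2) ^ bb`, homogeneous in `β`, `γ` of degree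
`4 j + i + ba + 2 bb = N`. `β` is a unit of `ℂ⟦X⟧` (constant coefficient `1`); with `t = γ β⁻¹` and the polynomial
`P = (27⁻¹) ^ j T ^ j (1 + T) ^ i (1 + 9 T) ^ ba (1 - 18 T - 27 T ^ 2) ^ bb` of degree `≤ N - 3 j`: `bas ℂ k j = a ^ e β ^ N P(t)
= ∑_s P_s a ^ e β ^ (N - s) γ ^ s`. `y = P.coeff`: `P_s = 0` for `s < j`, `P_j = (27⁻¹) ^ j`, `P_s = 0` for `s > N - 3 j`.
-/

namespace Pool.Agent.Lib.MP_06b9d2_ssp

open PowerSeries Pool.Agent.L1

/-- the polynomial of the module text -/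
noncomputable def repP (j i b bb : ℕ) : Polynomial ℂ :=
  Polynomial.X ^ j * (Polynomial.C (((27 : ℂ)⁻¹) ^ j) * (1 + Polynomial.X) ^ i *
    (1 + Polynomial.C 9 * Polynomial.X) ^ b *
    (1 - Polynomial.C 18 * Polynomial.X - Polynomial.C 27 * Polynomial.X ^ 2) ^ bb)

theorem repP_deg (j i b bb : ℕ) : (repP j i b bb).natDegree ≤ j + i + b + 2 * bb := by
  unfold repP
  have h1 : (1 + Polynomial.X : Polynomial ℂ).natDegree ≤ 1 := by compute_degree
  have h2 : (1 + Polynomial.C 9 * Polynomial.X : Polynomial ℂ).natDegree ≤ 1 := by compute_degree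
  have h3 : (1 - Polynomial.C 18 * Polynomial.X - Polynomial.C 27 * Polynomial.X ^ 2 :
      Polynomial ℂ).natDegree ≤ 2 := by compute_degree
  have e1 := Polynomial.natDegree_pow_le_of_le i h1
  have e2 := Polynomial.natDegree_pow_le_of_le b h2
  have e3 := Polynomial.natDegree_pow_le_of_le bb h3
  have e0 : (Polynomial.C (((27 : ℂ)⁻¹) ^ j)).natDegree ≤ 0 := by simp
  have e4 := Polynomial.natDegree_mul_le_of_le (Polynomial.natDegree_X_pow_le (R := ℂ) j)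
    (Polynomial.natDegree_mul_le_of_le (Polynomial.natDegree_mul_le_of_le
      (Polynomial.natDegree_mul_le_of_le e0 e1) e2) e3)
  refine e4.trans ?_
  nlinarith

theorem rep {a c : ℂ⟦X⟧} (h : Lv a c) (k j : ℕ) (hj : j < dd k) : ∃ y : ℕ → ℂ,
    (∀ s, s < j → y s = 0) ∧ y j ≠ 0 ∧ (∀ s, k / 3 - 3 * j < s → y s = 0) ∧ 4 * j ≤ k / 3 ∧
      bas ℂ k j = ∑ s ∈ Finset.range (k / 3 + 1), y s • mo a c (k % 3) (k / 3) s := by
  have hk := ba_eq hj
  obtain ⟨i, hi⟩ : ∃ i, ba k j = 3 * i + k % 3 := ⟨ba k j / 3, by omega⟩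
  have hN : 3 * j + (j + i + ba k j + 2 * bb k) = k / 3 := by omega
  refine ⟨(repP j i (ba k j) (bb k)).coeff, ?_, ?_, ?_, by omega, ?_⟩
  · intro s hs
    rw [repP, Polynomial.coeff_X_pow_mul', if_neg (by omega)]
  · rw [repP, Polynomial.coeff_X_pow_mul', if_pos le_rfl, Nat.sub_self,
      Polynomial.coeff_zero_eq_eval_zero]
    simp
  · intro s hs
    exact Polynomial.coeff_eq_zero_of_natDegree_lt
      (lt_of_le_of_lt (repP_deg j i (ba k j) (bb k)) (by omega))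
  · obtain ⟨u, hu1, hu2⟩ := lv_c h
    have hb1 : constantCoeff (a ^ 3 - 27 * c) = 1 := by
      rw [hu2]
      simp [h.ca]
    have hbu : (a ^ 3 - 27 * c) * (a ^ 3 - 27 * c)⁻¹ = 1 :=
      PowerSeries.mul_inv_cancel _ (by rw [hb1]; exact one_ne_zero)
    have hdl := lv_dl h
    have h4 := h.h4
    have h6 := h.h6
    have ha3 : a ^ 3 = (a ^ 3 - 27 * c) + 27 * c := by ring
    generalize hβ : a ^ 3 - 27 * c = β at *
    generalize hγ : 27 * c = γ at *
    set t := γ * β⁻¹ with ht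
    have hbt : β * t = γ := by rw [ht, mul_left_comm, hbu, mul_one]
    have hdl' : dl ℂ = C ((27 : ℂ)⁻¹) * (β ^ 3 * γ) := by
      have : c = C ((27 : ℂ)⁻¹) * γ := by
        rw [← hγ, ← mul_assoc]
        have : (27 : ℂ⟦X⟧) = C (27 : ℂ) := (map_ofNat C 27).symm
        rw [this, ← map_mul]
        norm_num
      rw [hdl, this]
      ring
    have h4' : e4 ℂ = a * (β + 9 * γ) := by
      rw [h4, ha3, ← hγ]
      ring
    have h6' : e6 ℂ = β ^ 2 - 18 * β * γ - 27 * γ ^ 2 := by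
      rw [h6, ← hβ, ← hγ]
      ring
    have hsum : ∑ s ∈ Finset.range (k / 3 + 1),
        (repP j i (ba k j) (bb k)).coeff s • mo a c (k % 3) (k / 3) s
        = a ^ (k % 3) * (β ^ (k / 3) * Polynomial.aeval t (repP j i (ba k j) (bb k))) := by
      rw [Polynomial.aeval_eq_sum_range' (n := k / 3 + 1)
        (lt_of_le_of_lt (repP_deg j i (ba k j) (bb k)) (by omega)), Finset.mul_sum, Finset.mul_sum]
      refine Finset.sum_congr rfl fun s hs => ?_
      have hs' : s ≤ k / 3 := by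
        have := Finset.mem_range.1 hs
        omega
      rw [mo, hγ, hβ, mul_smul_comm, mul_smul_comm]
      congr 1
      rw [mul_assoc]
      congr 1
      conv_rhs => rw [← Nat.sub_add_cancel hs', pow_add, mul_assoc, ← mul_pow, hbt]
    rw [hsum, bas, hdl', h4', h6', repP]
    simp only [map_mul, map_pow, map_add, map_sub, map_one, Polynomial.aeval_X, Polynomial.aeval_C]
    have hC : ∀ x : ℂ, algebraMap ℂ ℂ⟦X⟧ x = C x := fun x => rfl
    simp only [hC]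
    have c9 : C (9 : ℂ) = (9 : ℂ⟦X⟧) := map_ofNat C 9
    have c18 : C (18 : ℂ) = (18 : ℂ⟦X⟧) := map_ofNat C 18
    have c27 : C (27 : ℂ) = (27 : ℂ⟦X⟧) := map_ofNat C 27
    rw [c9, c18, c27]
    have q1 : β * (1 + t) = a ^ 3 := by rw [ha3, mul_add, hbt, mul_one]
    have q2 : β * (1 + 9 * t) = β + 9 * γ := by rw [← hbt]; ring
    have q3 : β ^ 2 * (1 - 18 * t - 27 * t ^ 2) = β ^ 2 - 18 * β * γ - 27 * γ ^ 2 := by
      rw [← hbt]; ring
    have hpow : β ^ (k / 3) = (β ^ 3) ^ j * β ^ j * β ^ i * β ^ (ba k j) * (β ^ 2) ^ (bb k) := by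
      rw [← hN]
      ring
    rw [hpow, ← q2, ← q3]
    have e1 : a ^ (ba k j) = a ^ (k % 3) * (β * (1 + t)) ^ i := by
      rw [q1, hi, pow_add, pow_mul, mul_comm]
    have e2 : γ ^ j = β ^ j * t ^ j := by rw [← mul_pow, hbt]
    simp only [mul_pow] at *
    rw [e1, e2]
    ring
end Pool.Agent.Lib.MP_06b9d2_ssp
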