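import Pool.Agent.Lib.MP_06b9d2_ssp.LvA

/-!
Module SSP-Ind. Independence.

`c = X * u` (`lv_c`), so `mo a c e N s = X ^ s * (unit)`: the unit has the constant coefficient `27 ^ s` (the constant
coefficients of `a` and of `a ^ 3 - 27 c` are `1`). If `∑ y_s mo_s = 0` and not all `y_s` (`s ≤ N`) are `0`, take the
least `s` with `y_s ≠ 0`: the coefficient of `X ^ s` of the sum is `27 ^ s y_s`. More precisely
`coeff_mo_lt` and `coeff_mo_self`.
-/

namespace Pool.Agent.Lib.MP_06b9d2_ssp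

open PowerSeries Pool.Agent.L1

/-- `mo` is `X ^ s` times a series with the constant coefficient `27 ^ s` -/
theorem mo_eq {a c : ℂ⟦X⟧} (h : Lv a c) (e N s : ℕ) :
    ∃ w : ℂ⟦X⟧, constantCoeff w = (27 : ℂ) ^ s ∧ mo a c e N s = X ^ s * w := by
  obtain ⟨u, hu1, hu2⟩ := lv_c h
  refine ⟨a ^ e * (a ^ 3 - 27 * c) ^ (N - s) * (27 * u) ^ s, ?_, ?_⟩
  · have hc : constantCoeff c = 0 := by
      rw [hu2, map_mul, constantCoeff_X, zero_mul]
    have h27 : constantCoeff (27 : ℂ⟦X⟧) = 27 := map_ofNat constantCoeff 27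
    simp only [map_mul, map_pow, map_sub, h.ca, hc, h27, hu1]
    simp
  · unfold mo
    rw [hu2]
    ring

theorem coeff_mo_lt {a c : ℂ⟦X⟧} (h : Lv a c) (e N s r : ℕ) (hr : r < s) :
    coeff r (mo a c e N s) = 0 := by
  obtain ⟨w, _, hw⟩ := mo_eq h e N s
  rw [hw, coeff_X_pow_mul', if_neg (by omega)]

theorem coeff_mo_self {a c : ℂ⟦X⟧} (h : Lv a c) (e N s : ℕ) :
    coeff s (mo a c e N s) = (27 : ℂ) ^ s := by
  obtain ⟨w, hw1, hw⟩ := mo_eq h e N s
  rw [hw, coeff_X_pow_mul', if_pos le_rfl, Nat.sub_self, coeff_zero_eq_constantCoeff_apply, hw1]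

theorem ind {a c : ℂ⟦X⟧} (h : Lv a c) (e N : ℕ) (y : ℕ → ℂ)
    (hy : ∑ s ∈ Finset.range (N + 1), y s • mo a c e N s = 0) : ∀ s ≤ N, y s = 0 := by
  intro s
  induction s using Nat.strong_induction_on with
  | _ s ih =>
    intro hs
    have h1 := congrArg (coeff s) hy
    rw [map_sum, map_zero] at h1
    rw [Finset.sum_eq_single s] at h1
    · rw [coeff_smul, coeff_mo_self h, smul_eq_mul] at h1
      rcases mul_eq_zero.1 h1 with h2 | h2
      · exact h2
      · exact absurd h2 (pow_ne_zero _ (by norm_num))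
    · intro t ht hts
      rw [coeff_smul, smul_eq_mul]
      rcases Nat.lt_or_gt_of_ne hts with h2 | h2
      · rw [ih t h2 (by omega), zero_mul]
      · rw [coeff_mo_lt h e N t s h2, mul_zero]
    · intro h2
      exact absurd (Finset.mem_range.2 (by omega)) h2

end Pool.Agent.Lib.MP_06b9d2_ssp
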