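import Pool.Agent.Lib.MP_06b9d2_ssp.Defs

/-!
Module SSP-R2. The quadratic transformations of `E_2`, `E_4`, `E_6`.

`P = e2 ℂ`, `Q = e4 ℂ`, `R = e6 ℂ` (`Pool/Agent/Lib/L1/Span.lean`), `D = Dq` (`q d / d q`; `Dq_mul`, `Dq_pow`,
`Dq_smul`, ... in `L1/Formal.lean`, `L1/Span.lean`), `ram_e2`, `ram_e4`, `ram_e6`:
`12 D P = P ^ 2 - Q`, `3 D Q = P Q - R`, `2 D R = P R - Q ^ 2`. `D (V2 f) = 2 V2 (D f)`.
`P' = V2 P`, `Q' = V2 Q`, `R' = V2 R`, `Y = 2 P' - P = Yy`, so `P' = (Y + P) / 2`. Put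
`ε1 = 4 Y ^ 3 - 3 Q Y - R`, `ε2 = 4 Q' - 5 Y ^ 2 + Q`, `ε3 = 8 R' - 11 Y ^ 3 + 3 Q Y`. Then (each one is a
`linear_combination` of the Ramanujan identities for `P, Q, R` and their images under `V2`)
`D Y = (P Y - 2 Y ^ 2 + Q) / 6 - ε2 / 12`,
`D ε1 = (P / 2 - Y) ε1 - (Y ^ 2 - Q / 4) ε2`,
`D ε2 = ε1 / 3 + (P / 3 + 7 Y / 6) ε2 - ε3 / 3`,
`D ε3 = Y ε1 - (5 Y ^ 2 - Q) ε2 - ε2 ^ 2 / 2 + (33 Y ^ 2 - 3 Q) ε2 / 12 + (Y + P) / 2 * ε3`.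
All three are `0` by induction on the coefficients: let `n` be the least index where one of the three
coefficients `v = (v1, v2, v3)` of `X ^ n` is not `0`. Compare the coefficients of `X ^ n`: as `P, Q, Y` have the
constant coefficient `1` and lower coefficients of the `ε`s vanish (`X ^ n ∣ ε`):
`n v1 = - v1 / 2 - 3 / 4 v2`, `n v2 = v1 / 3 + 3 / 2 v2 - v3 / 3`, `n v3 = v1 - 3 / 2 v2 + v3`
for `n ≥ 1` (the square `ε2 ^ 2` is divisible by `X ^ (2 n)`); for `n = 0` the constant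
coefficients of the `ε`s are `4 - 3 - 1`, `4 - 5 + 1`, `8 - 11 + 3`. The determinant of this linear system is
`n ^ 2 (n - 2)`, so only `n = 2` is left, and the coefficients of `X ^ 2` in `ε1, ε2, ε3` are `0` by
computation: `P = 1 - 24 X - 72 X ^ 2 - ...`, `Q = 1 + 240 X + 2160 X ^ 2 + ...`,
`R = 1 - 504 X - 16632 X ^ 2 - ...`, `Y = 1 + 24 X + 24 X ^ 2 + ...`, `V2 P = 1 - 24 X ^ 2`,
`V2 Q = 1 + 240 X ^ 2`, `V2 R = 1 - 504 X ^ 2` modulo `X ^ 3` (`coeff_E2z`, ... in `L1/Formal.lean`).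
-/

namespace Pool.Agent.Lib.MP_06b9d2_ssp

open PowerSeries Pool.Agent.L1

/-- `2 E_2(q ^ 2) - E_2(q)` -/
noncomputable def Yy : ℂ⟦X⟧ := 2 * V2 (e2 ℂ) - e2 ℂ

lemma r2_coeff_V2 (f : ℂ⟦X⟧) (n : ℕ) :
    coeff n (V2 f) = if 2 ∣ n then coeff (n / 2) f else 0 := by
  rw [V2, PowerSeries.coeff_expand]

lemma r2_Dq_V2 (f : ℂ⟦X⟧) : Dq (V2 f) = 2 * V2 (Dq f) := by
  ext n
  rw [coeff_Dq, r2_coeff_V2, show (2 : ℂ⟦X⟧) = C (2 : ℂ) from (map_ofNat C 2).symm,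
    coeff_C_mul, r2_coeff_V2]
  by_cases h : 2 ∣ n
  · obtain ⟨m, rfl⟩ := h
    rw [if_pos (dvd_mul_right 2 m), if_pos (dvd_mul_right 2 m), Nat.mul_div_cancel_left m two_pos,
      coeff_Dq]
    push_cast
    ring
  · rw [if_neg h, if_neg h]
    simp

lemma r2_Dq_num (m : ℕ) [m.AtLeastTwo] (f : ℂ⟦X⟧) :
    Dq ((OfNat.ofNat m : ℂ⟦X⟧) * f) = (OfNat.ofNat m : ℂ⟦X⟧) * Dq f := by
  rw [show (OfNat.ofNat m : ℂ⟦X⟧) = C (OfNat.ofNat m : ℂ) from (map_ofNat C m).symm,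
    ← smul_eq_C_mul, ← smul_eq_C_mul, Dq_smul]

lemma r2_hP' : 6 * Dq (V2 (e2 ℂ)) = V2 (e2 ℂ) ^ 2 - V2 (e4 ℂ) := by
  have h := congrArg V2 (ram_e2 (R := ℂ))
  simp only [map_mul, map_sub, map_pow, map_ofNat] at h
  rw [r2_Dq_V2]
  linear_combination h

lemma r2_hQ' : 3 * Dq (V2 (e4 ℂ)) = 2 * (V2 (e2 ℂ) * V2 (e4 ℂ) - V2 (e6 ℂ)) := by
  have h := congrArg V2 (ram_e4 (R := ℂ))
  simp only [map_mul, map_sub, map_ofNat] at h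
  rw [r2_Dq_V2]
  linear_combination 2 * h

lemma r2_hR' : Dq (V2 (e6 ℂ)) = V2 (e2 ℂ) * V2 (e6 ℂ) - V2 (e4 ℂ) ^ 2 := by
  have h := congrArg V2 (ram_e6 (R := ℂ))
  simp only [map_mul, map_sub, map_pow, map_ofNat] at h
  rw [r2_Dq_V2]
  linear_combination h

noncomputable def r2e1 : ℂ⟦X⟧ := 4 * Yy ^ 3 - 3 * e4 ℂ * Yy - e6 ℂ
noncomputable def r2e2 : ℂ⟦X⟧ := 4 * V2 (e4 ℂ) - 5 * Yy ^ 2 + e4 ℂ
noncomputable def r2e3 : ℂ⟦X⟧ := 8 * V2 (e6 ℂ) - 11 * Yy ^ 3 + 3 * e4 ℂ * Yy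

lemma r2_DY : 12 * Dq Yy = 2 * e2 ℂ * Yy - 4 * Yy ^ 2 + 2 * e4 ℂ - r2e2 := by
  have h1 := r2_hP'
  have h2 := ram_e2 (R := ℂ)
  unfold r2e2 Yy
  rw [Dq_sub, r2_Dq_num]
  linear_combination 4 * h1 - h2

lemma r2_D1 : 4 * Dq r2e1 =
    (2 * e2 ℂ - 4 * Yy) * r2e1 - (4 * Yy ^ 2 - e4 ℂ) * r2e2 := by
  have hY := r2_DY
  have h4 := ram_e4 (R := ℂ)
  have h6 := ram_e6 (R := ℂ)
  have hD : Dq r2e1 = 12 * Yy ^ 2 * Dq Yy - 3 * (Dq (e4 ℂ) * Yy + e4 ℂ * Dq Yy) - Dq (e6 ℂ) := by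
    unfold r2e1
    rw [Dq_sub, Dq_sub, mul_assoc, r2_Dq_num, r2_Dq_num, Dq_mul, Dq_pow]
    push_cast
    ring
  rw [hD]
  unfold r2e1
  linear_combination (4 * Yy ^ 2 - e4 ℂ) * hY - 4 * Yy * h4 - 2 * h6

lemma r2_D2 : 6 * Dq r2e2 =
    2 * r2e1 + (2 * e2 ℂ + 7 * Yy) * r2e2 - 2 * r2e3 := by
  have hY := r2_DY
  have h4 := ram_e4 (R := ℂ)
  have h4' := r2_hQ'
  have hD : Dq r2e2 = 4 * Dq (V2 (e4 ℂ)) - 10 * Yy * Dq Yy + Dq (e4 ℂ) := by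
    unfold r2e2
    rw [Dq_add, Dq_sub, r2_Dq_num, r2_Dq_num, Dq_pow]
    push_cast
    ring
  have hP : 2 * V2 (e2 ℂ) = Yy + e2 ℂ := by unfold Yy; ring
  rw [hD]
  unfold r2e2 at hY
  unfold r2e1 r2e2 r2e3
  linear_combination (-5 * Yy) * hY + 2 * h4 + 8 * h4' + 8 * V2 (e4 ℂ) * hP

lemma r2_D3 : 4 * Dq r2e3 =
    4 * Yy * r2e1 - 4 * (5 * Yy ^ 2 - e4 ℂ) * r2e2 - 2 * (r2e2 * r2e2) +
      (11 * Yy ^ 2 - e4 ℂ) * r2e2 + 2 * (Yy + e2 ℂ) * r2e3 := by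
  have hY := r2_DY
  have h4 := ram_e4 (R := ℂ)
  have h6' := r2_hR'
  have hD : Dq r2e3 = 8 * Dq (V2 (e6 ℂ)) - 33 * Yy ^ 2 * Dq Yy +
      3 * (Dq (e4 ℂ) * Yy + e4 ℂ * Dq Yy) := by
    unfold r2e3
    rw [Dq_add, Dq_sub, mul_assoc, r2_Dq_num, r2_Dq_num, r2_Dq_num, Dq_mul, Dq_pow]
    push_cast
    ring
  have hP : 2 * V2 (e2 ℂ) = Yy + e2 ℂ := by unfold Yy; ring
  rw [hD]
  unfold r2e2 at hY
  unfold r2e1 r2e2 r2e3
  linear_combination (-11 * Yy ^ 2 + e4 ℂ) * hY + 4 * Yy * h4 + 32 * h6' + 16 * V2 (e6 ℂ) * hP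

lemma r2_coeff_mul {n : ℕ} {f g : ℂ⟦X⟧} (hg : ∀ m < n, coeff m g = 0) :
    coeff n (f * g) = constantCoeff f * coeff n g := by
  obtain ⟨h, rfl⟩ := X_pow_dvd_iff.mpr hg
  rw [show f * (X ^ n * h) = X ^ n * (f * h) by ring, coeff_X_pow_mul', coeff_X_pow_mul',
    if_pos le_rfl, if_pos le_rfl, Nat.sub_self, coeff_zero_eq_constantCoeff, map_mul]

lemma r2_p0 : coeff 0 (e2 ℂ) = 1 := by
  rw [e2, coeff_map, coeff_E2z]; simp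

lemma r2_p1 : coeff 1 (e2 ℂ) = -24 := by
  rw [e2, coeff_map, coeff_E2z]; norm_num

lemma r2_p2 : coeff 2 (e2 ℂ) = -72 := by
  rw [e2, coeff_map, coeff_E2z, show ArithmeticFunction.sigma 1 2 = 3 by decide]; norm_num

lemma r2_q0 : coeff 0 (e4 ℂ) = 1 := by
  rw [e4, coeff_map, coeff_E4z]; simp

lemma r2_q1 : coeff 1 (e4 ℂ) = 240 := by
  rw [e4, coeff_map, coeff_E4z]; norm_num

lemma r2_q2 : coeff 2 (e4 ℂ) = 2160 := by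
  rw [e4, coeff_map, coeff_E4z, show ArithmeticFunction.sigma 3 2 = 9 by decide]; norm_num

lemma r2_r0 : coeff 0 (e6 ℂ) = 1 := by
  rw [e6, coeff_map, coeff_E6z]; simp

lemma r2_r1 : coeff 1 (e6 ℂ) = -504 := by
  rw [e6, coeff_map, coeff_E6z]; norm_num

lemma r2_r2 : coeff 2 (e6 ℂ) = -16632 := by
  rw [e6, coeff_map, coeff_E6z, show ArithmeticFunction.sigma 5 2 = 33 by decide]; norm_num

lemma r2_c2 : constantCoeff (e2 ℂ) = 1 := by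
  rw [← coeff_zero_eq_constantCoeff_apply, r2_p0]

lemma r2_c4 : constantCoeff (e4 ℂ) = 1 := by
  rw [← coeff_zero_eq_constantCoeff_apply, r2_q0]

lemma r2_c6 : constantCoeff (e6 ℂ) = 1 := by
  rw [← coeff_zero_eq_constantCoeff_apply, r2_r0]

lemma r2_cV2 (f : ℂ⟦X⟧) : constantCoeff (V2 f) = constantCoeff f := by
  rw [← coeff_zero_eq_constantCoeff_apply, ← coeff_zero_eq_constantCoeff_apply, r2_coeff_V2]
  simp

theorem Yy_const : constantCoeff Yy = 1 := by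
  unfold Yy
  rw [map_sub, map_mul, r2_cV2, r2_c2, map_ofNat]
  norm_num

lemma r2_y0 : coeff 0 Yy = 1 := by
  rw [coeff_zero_eq_constantCoeff_apply, Yy_const]

lemma r2_num (m : ℕ) [m.AtLeastTwo] (n : ℕ) (f : ℂ⟦X⟧) :
    coeff n ((OfNat.ofNat m : ℂ⟦X⟧) * f) = (OfNat.ofNat m : ℂ) * coeff n f := by
  rw [show (OfNat.ofNat m : ℂ⟦X⟧) = C (OfNat.ofNat m : ℂ) from (map_ofNat C m).symm, coeff_C_mul]

lemma r2_y1 : coeff 1 Yy = 24 := by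
  unfold Yy
  rw [map_sub, r2_num, r2_coeff_V2, if_neg (by norm_num), r2_p1]
  norm_num

lemma r2_y2 : coeff 2 Yy = 24 := by
  unfold Yy
  rw [map_sub, r2_num, r2_coeff_V2, if_pos (by norm_num), r2_p2]
  norm_num [r2_p1]

lemma r2_m0 (f g : ℂ⟦X⟧) : coeff 0 (f * g) = coeff 0 f * coeff 0 g := by
  simp

lemma r2_m1 (f g : ℂ⟦X⟧) : coeff 1 (f * g) = coeff 0 f * coeff 1 g + coeff 1 f * coeff 0 g := by
  rw [coeff_mul, Finset.Nat.antidiagonal_succ]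
  simp

lemma r2_m2 (f g : ℂ⟦X⟧) : coeff 2 (f * g) =
    coeff 0 f * coeff 2 g + coeff 1 f * coeff 1 g + coeff 2 f * coeff 0 g := by
  rw [coeff_mul, Finset.Nat.sum_antidiagonal_eq_sum_range_succ_mk]
  simp [Finset.sum_range_succ]

lemma r2_a3 : coeff 0 (3 : ℂ⟦X⟧) = 3 := by
  rw [show (3 : ℂ⟦X⟧) = C (3 : ℂ) from (map_ofNat C 3).symm, coeff_zero_C]

lemma r2_b3 : coeff 1 (3 : ℂ⟦X⟧) = 0 := by
  rw [show (3 : ℂ⟦X⟧) = C (3 : ℂ) from (map_ofNat C 3).symm, coeff_C, if_neg (by norm_num)]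

lemma r2_d3 : coeff 2 (3 : ℂ⟦X⟧) = 0 := by
  rw [show (3 : ℂ⟦X⟧) = C (3 : ℂ) from (map_ofNat C 3).symm, coeff_C, if_neg (by norm_num)]

lemma r2_a4 : coeff 0 (4 : ℂ⟦X⟧) = 4 := by
  rw [show (4 : ℂ⟦X⟧) = C (4 : ℂ) from (map_ofNat C 4).symm, coeff_zero_C]

lemma r2_b4 : coeff 1 (4 : ℂ⟦X⟧) = 0 := by
  rw [show (4 : ℂ⟦X⟧) = C (4 : ℂ) from (map_ofNat C 4).symm, coeff_C, if_neg (by norm_num)]

lemma r2_d4 : coeff 2 (4 : ℂ⟦X⟧) = 0 := by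
  rw [show (4 : ℂ⟦X⟧) = C (4 : ℂ) from (map_ofNat C 4).symm, coeff_C, if_neg (by norm_num)]

lemma r2_a5 : coeff 0 (5 : ℂ⟦X⟧) = 5 := by
  rw [show (5 : ℂ⟦X⟧) = C (5 : ℂ) from (map_ofNat C 5).symm, coeff_zero_C]

lemma r2_b5 : coeff 1 (5 : ℂ⟦X⟧) = 0 := by
  rw [show (5 : ℂ⟦X⟧) = C (5 : ℂ) from (map_ofNat C 5).symm, coeff_C, if_neg (by norm_num)]

lemma r2_d5 : coeff 2 (5 : ℂ⟦X⟧) = 0 := by
  rw [show (5 : ℂ⟦X⟧) = C (5 : ℂ) from (map_ofNat C 5).symm, coeff_C, if_neg (by norm_num)]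

lemma r2_a8 : coeff 0 (8 : ℂ⟦X⟧) = 8 := by
  rw [show (8 : ℂ⟦X⟧) = C (8 : ℂ) from (map_ofNat C 8).symm, coeff_zero_C]

lemma r2_b8 : coeff 1 (8 : ℂ⟦X⟧) = 0 := by
  rw [show (8 : ℂ⟦X⟧) = C (8 : ℂ) from (map_ofNat C 8).symm, coeff_C, if_neg (by norm_num)]

lemma r2_d8 : coeff 2 (8 : ℂ⟦X⟧) = 0 := by
  rw [show (8 : ℂ⟦X⟧) = C (8 : ℂ) from (map_ofNat C 8).symm, coeff_C, if_neg (by norm_num)]

lemma r2_a11 : coeff 0 (11 : ℂ⟦X⟧) = 11 := by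
  rw [show (11 : ℂ⟦X⟧) = C (11 : ℂ) from (map_ofNat C 11).symm, coeff_zero_C]

lemma r2_b11 : coeff 1 (11 : ℂ⟦X⟧) = 0 := by
  rw [show (11 : ℂ⟦X⟧) = C (11 : ℂ) from (map_ofNat C 11).symm, coeff_C, if_neg (by norm_num)]

lemma r2_d11 : coeff 2 (11 : ℂ⟦X⟧) = 0 := by
  rw [show (11 : ℂ⟦X⟧) = C (11 : ℂ) from (map_ofNat C 11).symm, coeff_C, if_neg (by norm_num)]

lemma r2_v0 (f : ℂ⟦X⟧) : coeff 0 (V2 f) = coeff 0 f := by
  rw [r2_coeff_V2, if_pos (by norm_num)]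

lemma r2_v2 (f : ℂ⟦X⟧) : coeff 2 (V2 f) = coeff 1 f := by
  rw [r2_coeff_V2, if_pos (by norm_num)]

lemma r2_00 : coeff 0 r2e1 = 0 ∧ coeff 0 r2e2 = 0 ∧ coeff 0 r2e3 = 0 := by
  refine ⟨?_, ?_, ?_⟩
  · unfold r2e1
    simp only [map_sub, pow_succ, pow_zero, one_mul, r2_m0, r2_a3, r2_a4, r2_y0, r2_q0, r2_r0]
    norm_num
  · unfold r2e2
    simp only [map_sub, map_add, pow_succ, pow_zero, one_mul, r2_m0, r2_a4, r2_a5, r2_y0, r2_q0,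
      r2_v0]
    norm_num
  · unfold r2e3
    simp only [map_sub, map_add, pow_succ, pow_zero, one_mul, r2_m0, r2_a3, r2_a8, r2_a11, r2_y0,
      r2_q0, r2_v0, r2_r0]
    norm_num

lemma r2_22 : coeff 2 r2e1 = 0 ∧ coeff 2 r2e2 = 0 ∧ coeff 2 r2e3 = 0 := by
  refine ⟨?_, ?_, ?_⟩
  · unfold r2e1
    simp only [map_sub, pow_succ, pow_zero, one_mul, r2_m0, r2_m1, r2_m2, r2_a3, r2_a4, r2_b3,
      r2_b4, r2_d3, r2_d4, r2_y0, r2_y1, r2_y2, r2_q0, r2_q1, r2_q2, r2_r2]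
    norm_num
  · unfold r2e2
    simp only [map_sub, map_add, pow_succ, pow_zero, one_mul, r2_m0, r2_m1, r2_m2, r2_a4, r2_a5,
      r2_b4, r2_b5, r2_d4, r2_d5, r2_y0, r2_y1, r2_y2, r2_q1, r2_q2, r2_v2]
    norm_num
  · unfold r2e3
    simp only [map_sub, map_add, pow_succ, pow_zero, one_mul, r2_m0, r2_m1, r2_m2, r2_a3, r2_a8,
      r2_a11, r2_b3, r2_b8, r2_b11, r2_d3, r2_d8, r2_d11, r2_y0, r2_y1, r2_y2, r2_q0, r2_q1, r2_q2,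
      r2_v2, r2_r1]
    norm_num

lemma r2_all (n : ℕ) : coeff n r2e1 = 0 ∧ coeff n r2e2 = 0 ∧ coeff n r2e3 = 0 := by
  induction n using Nat.strong_induction_on with
  | _ n ih =>
    rcases Nat.eq_zero_or_pos n with rfl | hn
    · exact r2_00
    by_cases hn2 : n = 2
    · subst hn2; exact r2_22
    have i1 : ∀ m < n, coeff m r2e1 = 0 := fun m hm => (ih m hm).1
    have i2 : ∀ m < n, coeff m r2e2 = 0 := fun m hm => (ih m hm).2.1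
    have i3 : ∀ m < n, coeff m r2e3 = 0 := fun m hm => (ih m hm).2.2
    have c0 : constantCoeff r2e2 = 0 := by
      rw [← coeff_zero_eq_constantCoeff_apply]; exact i2 0 hn
    have E1 := congrArg (coeff n) r2_D1
    have E2 := congrArg (coeff n) r2_D2
    have E3 := congrArg (coeff n) r2_D3
    rw [r2_num, coeff_Dq, map_sub, r2_coeff_mul i1, r2_coeff_mul i2] at E1
    rw [r2_num, coeff_Dq, map_sub, map_add, r2_num, r2_num, r2_coeff_mul i2] at E2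
    rw [r2_num, coeff_Dq, map_add, map_add, map_sub, map_sub, r2_coeff_mul i1, r2_coeff_mul i2,
      r2_num, r2_coeff_mul i2, r2_coeff_mul i2, r2_coeff_mul i3, c0] at E3
    simp only [map_sub, map_add, map_mul, map_pow, map_ofNat, Yy_const, r2_c2, r2_c4] at E1 E2 E3
    set v1 := coeff n r2e1
    set v2 := coeff n r2e2
    set v3 := coeff n r2e3
    have hdet : (n : ℂ) ^ 2 * ((n : ℂ) - 2) ≠ 0 := by
      apply mul_ne_zero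
      · exact pow_ne_zero _ (by exact_mod_cast hn.ne')
      · rw [sub_ne_zero]
        exact_mod_cast hn2
    -- the linear system
    have F1 : ((n : ℂ) + 1 / 2) * v1 + 3 / 4 * v2 = 0 := by linear_combination E1 / 4
    have F2 : -v1 / 3 + ((n : ℂ) - 3 / 2) * v2 + v3 / 3 = 0 := by linear_combination E2 / 6
    have F3 : -v1 + 3 / 2 * v2 + ((n : ℂ) - 1) * v3 = 0 := by linear_combination E3 / 4
    refine ⟨?_, ?_, ?_⟩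
    · apply (mul_eq_zero.mp _).resolve_left hdet
      linear_combination (((n : ℂ) - 3 / 2) * ((n : ℂ) - 1) - 1 / 2) * F1 -
        (3 / 4 * ((n : ℂ) - 1)) * F2 + (1 / 4) * F3
    · apply (mul_eq_zero.mp _).resolve_left hdet
      linear_combination (1 / 3 * ((n : ℂ) - 1) - 1 / 3) * F1 +
        (((n : ℂ) + 1 / 2) * ((n : ℂ) - 1)) * F2 - (1 / 3 * ((n : ℂ) + 1 / 2)) * F3
    · apply (mul_eq_zero.mp _).resolve_left hdet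
      linear_combination (-1 / 2 + ((n : ℂ) - 3 / 2)) * F1 -
        (3 / 2 * ((n : ℂ) + 1 / 2) + 3 / 4) * F2 +
        (((n : ℂ) + 1 / 2) * ((n : ℂ) - 3 / 2) + 1 / 4) * F3

theorem R2a : 4 * Yy ^ 3 - 3 * e4 ℂ * Yy - e6 ℂ = 0 := by
  ext n
  rw [map_zero]
  exact (r2_all n).1

theorem R2b : 4 * V2 (e4 ℂ) = 5 * Yy ^ 2 - e4 ℂ := by
  have h : r2e2 = 0 := by
    ext n
    rw [map_zero]
    exact (r2_all n).2.1
  unfold r2e2 at h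
  linear_combination h

theorem R2c : 8 * V2 (e6 ℂ) = 11 * Yy ^ 3 - 3 * e4 ℂ * Yy := by
  have h : r2e3 = 0 := by
    ext n
    rw [map_zero]
    exact (r2_all n).2.2
  unfold r2e3 at h
  linear_combination h

end Pool.Agent.Lib.MP_06b9d2_ssp
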