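import Pool.Agent.Lib.MP_06b9d2_ssp.LvA
import Pool.Agent.Lib.MP_06b9d2_ssp.R2

/-!
Module SSP-AB. The relations between `a(q)`, `a(q ^ 2)`, `c(q)`, `c(q ^ 2)`.

`u = a`. `hen_ex` for the polynomial `(u - T) (u + 2 T) ^ 2 - 54 c` and `r = 1` (`c` has the constant
coefficient `0` by `lv_c`; derivative at `1`: `-9`) gives `v` with the constant coefficient `1` and
`54 c = (u - v) (u + 2 v) ^ 2`. Let `d = (u - v) ^ 2 (u + 2 v) / 108` (as `C (1 / 108) * ...`), `Y' = u ^ 2 + 2 u v - 2 v ^ 2`.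
By `ring` (after substituting `216 c = 4 (u - v) (u + 2 v) ^ 2` in `h4`, `h6`):
`4 Y' ^ 3 - 3 E4 Y' - E6 = 0`. The polynomial `4 T ^ 3 - 3 E4 T - E6` has the derivative `12 - 3 = 9` at `1`, so
`Y' = Yy` (`hen_uni`, `R2a`, `Yy_const`). Then `R2b`, `R2c` give (by `ring`, cancelling constants)
`V2 E4 = v (v ^ 3 + 216 d)`, `V2 E6 = v ^ 6 - 540 v ^ 3 d - 5832 d ^ 2`. The images of `h4`, `h6` under `V2` are
`V2 E4 = V2 a * ((V2 a) ^ 3 + 216 V2 c)`, ...; so `v = V2 a` and `d = V2 c` by `lv_uni_at`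
(`constantCoeff_expand`: `V2` preserves the constant coefficient).
`lv_A`: `108 d = (u - v) ^ 2 (u + 2 v)`; `lv_B`: the choice of `v`.
-/

namespace Pool.Agent.Lib.MP_06b9d2_ssp

open PowerSeries Pool.Agent.L1

/-- The polynomial of `v` over `ℂ⟦q⟧`. -/
private noncomputable def abP (u c : ℂ⟦X⟧) : Polynomial ℂ⟦X⟧ :=
  (Polynomial.C u - Polynomial.X) * (Polynomial.C u + Polynomial.C 2 * Polynomial.X) ^ 2 -
    Polynomial.C (54 * c)

private theorem abP_eval (u c y : ℂ⟦X⟧) :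
    (abP u c).eval y = (u - y) * (u + 2 * y) ^ 2 - 54 * c := by
  rw [abP]
  simp only [Polynomial.eval_sub, Polynomial.eval_mul, Polynomial.eval_C, Polynomial.eval_X,
    Polynomial.eval_pow, Polynomial.eval_add]

private theorem abP_deriv (u c y : ℂ⟦X⟧) :
    (Polynomial.derivative (abP u c)).eval y =
      -(u + 2 * y) ^ 2 + (u - y) * (4 * (u + 2 * y)) := by
  rw [abP]
  simp only [Polynomial.derivative_sub, Polynomial.derivative_mul, Polynomial.derivative_C,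
    Polynomial.derivative_X, Polynomial.derivative_add, Polynomial.derivative_pow,
    Polynomial.eval_sub, Polynomial.eval_mul, Polynomial.eval_C, Polynomial.eval_X,
    Polynomial.eval_pow, Polynomial.eval_add, Polynomial.eval_zero, Polynomial.eval_one,
    Polynomial.eval_natCast]
  push_cast
  ring

/-- The polynomial of `Yy`. -/
private noncomputable def abQ (E F : ℂ⟦X⟧) : Polynomial ℂ⟦X⟧ :=
  Polynomial.C 4 * Polynomial.X ^ 3 - Polynomial.C (3 * E) * Polynomial.X - Polynomial.C F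

private theorem abQ_eval (E F y : ℂ⟦X⟧) : (abQ E F).eval y = 4 * y ^ 3 - 3 * E * y - F := by
  rw [abQ]
  simp only [Polynomial.eval_sub, Polynomial.eval_mul, Polynomial.eval_C, Polynomial.eval_X,
    Polynomial.eval_pow]

private theorem abQ_deriv (E F y : ℂ⟦X⟧) :
    (Polynomial.derivative (abQ E F)).eval y = 12 * y ^ 2 - 3 * E := by
  rw [abQ]
  simp only [Polynomial.derivative_sub, Polynomial.derivative_mul, Polynomial.derivative_C,
    Polynomial.derivative_X, Polynomial.derivative_X_pow,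
    Polynomial.eval_sub, Polynomial.eval_mul, Polynomial.eval_C, Polynomial.eval_X,
    Polynomial.eval_pow, Polynomial.eval_add, Polynomial.eval_zero, Polynomial.eval_one,
    Polynomial.eval_natCast]
  push_cast
  ring

private theorem ab_num (n : ℕ) [n.AtLeastTwo] :
    (constantCoeff (OfNat.ofNat n : ℂ⟦X⟧)) = OfNat.ofNat n := map_ofNat _ n

private theorem ab_cV2 (f : ℂ⟦X⟧) : constantCoeff (V2 f) = constantCoeff f := by
  rw [V2]
  exact constantCoeff_expand 2 two_ne_zero f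

theorem lv_AB {a c : ℂ⟦X⟧} (h : Lv a c) :
    108 * V2 c = (a - V2 a) ^ 2 * (a + 2 * V2 a) ∧
      54 * c = (a - V2 a) * (a + 2 * V2 a) ^ 2 := by
  have hE : constantCoeff (e4 ℂ) = 1 := constCoeff_e4
  have hF : constantCoeff (e6 ℂ) = 1 := constCoeff_e6
  have hc0 : constantCoeff c = 0 := by
    obtain ⟨w, _, hw⟩ := lv_c h
    rw [hw, map_mul, constantCoeff_X, zero_mul]
  have hP0 : constantCoeff ((abP a c).eval (C 1)) = 0 := by
    rw [abP_eval]
    simp only [map_sub, map_mul, map_pow, map_add, constantCoeff_C, map_ofNat, h.ca, hc0]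
    norm_num
  have hP1 : constantCoeff ((Polynomial.derivative (abP a c)).eval (C 1)) ≠ 0 := by
    rw [abP_deriv]
    simp only [map_sub, map_mul, map_pow, map_add, map_neg, constantCoeff_C, map_ofNat, h.ca]
    norm_num
  obtain ⟨v, hv, cv⟩ := hen_ex (abP a c) 1 hP0 hP1
  rw [abP_eval] at hv
  have hd0 : ∃ d : ℂ⟦X⟧, 108 * d = (a - v) ^ 2 * (a + 2 * v) := by
    refine ⟨C (1 / 108) * ((a - v) ^ 2 * (a + 2 * v)), ?_⟩
    have e1 : (108 : ℂ⟦X⟧) * C (1 / 108) = 1 := by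
      rw [show (108 : ℂ⟦X⟧) = C 108 from (map_ofNat C 108).symm, ← map_mul]
      norm_num
    rw [← mul_assoc, e1, one_mul]
  obtain ⟨d, hd⟩ := hd0
  have h54 : 54 * c = (a - v) * (a + 2 * v) ^ 2 := by linear_combination -hv
  have h4' : e4 ℂ = a ^ 4 + 4 * a * ((a - v) * (a + 2 * v) ^ 2) := by
    rw [h.h4]
    linear_combination 4 * a * h54
  have h6' : e6 ℂ = a ^ 6 - 10 * a ^ 3 * ((a - v) * (a + 2 * v) ^ 2) -
      2 * ((a - v) * (a + 2 * v) ^ 2) ^ 2 := by
    rw [h.h6]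
    linear_combination (-10 * a ^ 3 - 2 * (54 * c + (a - v) * (a + 2 * v) ^ 2)) * h54
  set Y : ℂ⟦X⟧ := a ^ 2 + 2 * a * v - 2 * v ^ 2 with hY
  have hYQ : (abQ (e4 ℂ) (e6 ℂ)).eval Y = 0 := by
    rw [abQ_eval, h4', h6', hY]
    ring
  have hYyQ : (abQ (e4 ℂ) (e6 ℂ)).eval Yy = 0 := by
    rw [abQ_eval]
    exact R2a
  have hQ1 : constantCoeff ((Polynomial.derivative (abQ (e4 ℂ) (e6 ℂ))).eval (C 1)) ≠ 0 := by
    rw [abQ_deriv]
    simp only [map_sub, map_mul, map_pow, constantCoeff_C, map_ofNat, hE]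
    norm_num
  have cY : constantCoeff Y = 1 := by
    rw [hY]
    simp only [map_sub, map_mul, map_pow, map_add, map_ofNat, h.ca, cv]
    norm_num
  have hYY : Y = Yy := hen_uni (abQ (e4 ℂ) (e6 ℂ)) 1 hQ1 hYQ hYyQ cY Yy_const
  have n4 : (4 : ℂ⟦X⟧) ≠ 0 := by
    intro h0
    have := congrArg constantCoeff h0
    rw [map_ofNat, map_zero] at this
    norm_num at this
  have n8 : (8 : ℂ⟦X⟧) ≠ 0 := by
    intro h0
    have := congrArg constantCoeff h0
    rw [map_ofNat, map_zero] at this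
    norm_num at this
  have v4 : V2 (e4 ℂ) = v * (v ^ 3 + 216 * d) := by
    apply mul_left_cancel₀ n4
    rw [R2b, ← hYY, h4', hY]
    linear_combination (-8 * v) * hd
  have v6 : V2 (e6 ℂ) = v ^ 6 - 540 * v ^ 3 * d - 5832 * d ^ 2 := by
    apply mul_left_cancel₀ n8
    rw [R2c, ← hYY, h4', hY]
    linear_combination (40 * v ^ 3 + 4 * (108 * d + (a - v) ^ 2 * (a + 2 * v))) * hd
  have w4 : V2 (e4 ℂ) = V2 a * ((V2 a) ^ 3 + 216 * V2 c) := by
    rw [h.h4]
    simp only [map_mul, map_add, map_pow, map_ofNat]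
  have w6 : V2 (e6 ℂ) = (V2 a) ^ 6 - 540 * (V2 a) ^ 3 * V2 c - 5832 * (V2 c) ^ 2 := by
    rw [h.h6]
    simp only [map_mul, map_sub, map_pow, map_ofNat]
  obtain ⟨e1, e2⟩ := lv_uni_at (E := V2 (e4 ℂ)) (F := V2 (e6 ℂ)) (by rw [ab_cV2, hE])
    (by rw [ab_cV2, hF]) cv (by rw [ab_cV2, h.ca]) v4 v6 w4 w6
  rw [← e1, ← e2]
  exact ⟨hd, h54⟩

end Pool.Agent.Lib.MP_06b9d2_ssp
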