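import Pool.Agent.Lib.MP_06b9d2_ssp.Kap

/-!
Module SSP-AlgA. Evaluation of `θ ^ m θ' ^ n`.

In a commutative ring: `u`, `v` (`θ`, `θ'`) with the multiplication table below. Claim by induction:
for `d = m + n`, `K m n = (x, y, z)`: `u ^ m v ^ n = hv B G 0 1 = 1` if `d = 0` (then `(x, y, z) = (1, 0, 0)`), and
`u ^ m v ^ n = hv B G d x + hv B G (d - 1) y * u + hv B G (d - 1) z * v` if `d ≥ 1`. General step (used for `th` and
for `th'`): if `(x, y, z)` satisfies the degree bounds of `K_deg` for `d + 1` then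
`u * (hv (d + 1) x + hv d y * u + hv d z * v)` is the same expression for `th (x, y, z)` and `d + 2`:
`hv (d + 1) (X * p) = G * hv d p` (`Finset.sum_range_succ'`, `Polynomial.coeff_X_mul`),
`hv (d + 1) p = B * hv d p` if `p.coeff (d + 1) = 0`, `hv` is additive in `p`, and then `ring` /
`linear_combination` with the table (`α = B + G`: `2 (1 + X) y` of degree `d + 2` gives
`2 (B + G) B hv d y`; in `th`: `x - y - X z` at `d + 1`: `hv (d + 1) x - B hv d y - G hv d z`; `z - y` at `d + 1`:
`B (hv d z - hv d y)`; in `th'`: `2 (1 + X) X z` at `d + 2`: `2 (B + G) G hv d z`; `X z - X y` at `d + 1`: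
`G (hv d z - hv d y)`; `x + y + X z` at `d + 1`: `hv (d + 1) x + B hv d y + G hv d z`). The step from `d = 0` to `1` directly.
`K m n` is `th^[m] (th'^[n] (1, 0, 0))`: first induction on `n` for `m = 0`, then on `m`.
-/

namespace Pool.Agent.Lib.MP_06b9d2_ssp

open PowerSeries Pool.Agent.L1

section hvA

variable {R : Type*} [CommRing R] (B G : R)

lemma hvA_add (d : ℕ) (p q : Polynomial ℤ) : hv B G d (p + q) = hv B G d p + hv B G d q := by
  unfold hv
  rw [← Finset.sum_add_distrib]
  refine Finset.sum_congr rfl fun l _ => ?_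
  rw [Polynomial.coeff_add]
  push_cast
  ring

lemma hvA_neg (d : ℕ) (p : Polynomial ℤ) : hv B G d (-p) = -hv B G d p := by
  unfold hv
  rw [← Finset.sum_neg_distrib]
  refine Finset.sum_congr rfl fun l _ => ?_
  rw [Polynomial.coeff_neg]
  push_cast
  ring

lemma hvA_sub (d : ℕ) (p q : Polynomial ℤ) : hv B G d (p - q) = hv B G d p - hv B G d q := by
  rw [sub_eq_add_neg, hvA_add, hvA_neg, ← sub_eq_add_neg]

lemma hvA_X (d : ℕ) (p : Polynomial ℤ) :
    hv B G (d + 1) (Polynomial.X * p) = G * hv B G d p := by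
  unfold hv
  rw [Finset.sum_range_succ', Finset.mul_sum, Polynomial.coeff_X_mul_zero]
  push_cast
  rw [zero_mul, zero_mul, add_zero]
  refine Finset.sum_congr rfl fun l _ => ?_
  rw [Polynomial.coeff_X_mul]
  ring

lemma hvA_succ (d : ℕ) (p : Polynomial ℤ) (h : p.coeff (d + 1) = 0) :
    hv B G (d + 1) p = B * hv B G d p := by
  unfold hv
  rw [Finset.sum_range_succ, h, Finset.mul_sum]
  push_cast
  rw [zero_mul, zero_mul, add_zero]
  refine Finset.sum_congr rfl fun l hl => ?_
  rw [Finset.mem_range] at hl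
  have : d + 1 - l = (d - l) + 1 := by omega
  rw [this, pow_succ]
  ring

lemma hvA_one : hv B G 0 1 = 1 := by
  unfold hv
  simp

lemma hvA_zero (d : ℕ) : hv B G d 0 = 0 := by
  unfold hv
  simp

variable {B G} {u v : R}

lemma hvA_th (h1 : u ^ 2 = 2 * (B + G) * B - B * u - B * v) (h2 : u * v = -(G * u) + B * v)
    (d : ℕ) (w : T3) (hy : ∀ l, d + 1 ≤ l → w.2.1.coeff l = 0)
    (hz : ∀ l, d + 1 ≤ l → w.2.2.coeff l = 0) :
    u * (hv B G (d + 1) w.1 + hv B G d w.2.1 * u + hv B G d w.2.2 * v) =
      hv B G (d + 2) (th w).1 + hv B G (d + 1) (th w).2.1 * u + hv B G (d + 1) (th w).2.2 * v := by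
  obtain ⟨x, y, z⟩ := w
  simp only [th] at *
  have e1 : hv B G (d + 2) (2 * (1 + Polynomial.X) * y) = 2 * (B + G) * B * hv B G d y := by
    have : (2 * (1 + Polynomial.X) * y : Polynomial ℤ) =
        (y + Polynomial.X * y) + (y + Polynomial.X * y) := by ring
    rw [this, hvA_add, hvA_add, hvA_X B G (d + 1), hvA_succ B G (d + 1) y (hy _ (by omega)),
      hvA_succ B G d y (hy _ le_rfl)]
    ring
  rw [e1, hvA_sub, hvA_sub, hvA_X, hvA_sub, hvA_succ B G d y (hy _ le_rfl),
    hvA_succ B G d z (hz _ le_rfl)]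
  linear_combination hv B G d y * h1 + hv B G d z * h2

lemma hvA_th' (h2 : u * v = -(G * u) + B * v) (h3 : v ^ 2 = 2 * (B + G) * G + G * u + G * v)
    (d : ℕ) (w : T3) (hy : ∀ l, d + 1 ≤ l → w.2.1.coeff l = 0)
    (hz : ∀ l, d + 1 ≤ l → w.2.2.coeff l = 0) :
    v * (hv B G (d + 1) w.1 + hv B G d w.2.1 * u + hv B G d w.2.2 * v) =
      hv B G (d + 2) (th' w).1 + hv B G (d + 1) (th' w).2.1 * u +
        hv B G (d + 1) (th' w).2.2 * v := by
  obtain ⟨x, y, z⟩ := w
  simp only [th'] at *
  have e1 : hv B G (d + 2) (2 * (1 + Polynomial.X) * Polynomial.X * z) =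
      2 * (B + G) * G * hv B G d z := by
    have : (2 * (1 + Polynomial.X) * Polynomial.X * z : Polynomial ℤ) =
        (Polynomial.X * z + Polynomial.X * (Polynomial.X * z)) +
          (Polynomial.X * z + Polynomial.X * (Polynomial.X * z)) := by ring
    rw [this, hvA_add, hvA_add, hvA_X B G (d + 1), hvA_X B G (d + 1), hvA_X B G d,
      hvA_succ B G d z (hz _ le_rfl)]
    ring
  rw [e1, hvA_sub, hvA_X, hvA_X, hvA_add, hvA_add, hvA_X, hvA_succ B G d y (hy _ le_rfl)]
  linear_combination hv B G d y * h2 + hv B G d z * h3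

end hvA

theorem K_eval {R : Type*} [CommRing R] {B G u v : R}
    (h1 : u ^ 2 = 2 * (B + G) * B - B * u - B * v) (h2 : u * v = -(G * u) + B * v)
    (h3 : v ^ 2 = 2 * (B + G) * G + G * u + G * v) (m n : ℕ) :
    u ^ m * v ^ n = hv B G (m + n) (K m n).1 + hv B G (m + n - 1) (K m n).2.1 * u +
      hv B G (m + n - 1) (K m n).2.2 * v := by
  have key : ∀ m n d : ℕ, m + n = d + 1 → u ^ m * v ^ n = hv B G (d + 1) (K m n).1 +
      hv B G d (K m n).2.1 * u + hv B G d (K m n).2.2 * v := by
    intro m
    induction m with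
    | zero =>
      intro n
      induction n with
      | zero => intro d hd; omega
      | succ n ih =>
        intro d hd
        have hK : K 0 (n + 1) = th' (K 0 n) := by
          simp only [K, Function.iterate_zero, id_eq, Function.iterate_succ_apply']
        rcases Nat.eq_zero_or_pos n with h0 | h0
        · subst h0
          obtain rfl : d = 0 := by omega
          have : K 0 1 = (2 * (1 + Polynomial.X) * Polynomial.X * 0,
              Polynomial.X * 0 - Polynomial.X * 0, 1 + 0 + Polynomial.X * 0) := by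
            simp [K, th']
          rw [this]
          simp only [mul_zero, sub_zero, add_zero, hvA_zero, hvA_one]
          ring
        · obtain ⟨d', rfl⟩ : ∃ d', d = d' + 1 := ⟨d - 1, by omega⟩
          have hs := hvA_th' h2 h3 d' (K 0 n)
            (fun l hl => (K_deg 0 n).2.1 l (by omega)) (fun l hl => (K_deg 0 n).2.2 l (by omega))
          rw [hK, ← hs, ← ih d' (by omega)]
          ring
    | succ m ih =>
      intro n d hd
      have hK : K (m + 1) n = th (K m n) := by
        simp only [K, Function.iterate_succ_apply']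
      rcases Nat.eq_zero_or_pos (m + n) with h0 | h0
      · obtain rfl : m = 0 := by omega
        obtain rfl : n = 0 := by omega
        obtain rfl : d = 0 := by omega
        have : K 1 0 = (2 * (1 + Polynomial.X) * 0, 1 - 0 - Polynomial.X * 0, 0 - 0) := by
          simp [K, th]
        rw [show (0 : ℕ) + 1 = 1 from rfl, this]
        simp only [mul_zero, sub_zero, add_zero, hvA_zero, hvA_one]
        ring
      · obtain ⟨d', rfl⟩ : ∃ d', d = d' + 1 := ⟨d - 1, by omega⟩
        have hs := hvA_th h1 h2 d' (K m n)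
          (fun l hl => (K_deg m n).2.1 l (by omega)) (fun l hl => (K_deg m n).2.2 l (by omega))
        rw [hK, ← hs, ← ih n d' (by omega)]
        ring
  rcases Nat.eq_zero_or_pos (m + n) with h0 | h0
  · obtain rfl : m = 0 := by omega
    obtain rfl : n = 0 := by omega
    have : K 0 0 = (1, 0, 0) := by simp [K]
    rw [this]
    simp [hvA_zero, hvA_one]
  · obtain ⟨d, hd⟩ : ∃ d, m + n = d + 1 := ⟨m + n - 1, by omega⟩
    rw [hd, Nat.add_sub_cancel]
    exact key m n d hd

end Pool.Agent.Lib.MP_06b9d2_ssp
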