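import Pool.Agent.Lib.MP_06b9d2_ssp.AlgA

/-!
Module SSP-AlgB. The sum over the three branches.

`R` is a commutative `ℂ`-algebra. Each `x = x i` satisfies `x ^ 3 = 3 A ^ 2 x + p`, `p = x 0 * x 1 * x 2` (`Tri`).
-/

namespace Pool.Agent.Lib.MP_06b9d2_ssp

open PowerSeries Pool.Agent.L1

section cancel

variable {R : Type*} [CommRing R] [Algebra ℂ R]

lemma cancel_nat {n : ℕ} (hn : n ≠ 0) {a b : R} (h : (n : R) * a = (n : R) * b) : a = b := by
  have hu : IsUnit ((n : ℕ) : R) := by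
    have h1 : IsUnit ((n : ℕ) : ℂ) := isUnit_iff_ne_zero.2 (Nat.cast_ne_zero.2 hn)
    have h2 := h1.map (algebraMap ℂ R)
    rwa [map_natCast] at h2
  exact hu.mul_left_cancel h

lemma cancel_two {a b : R} (h : 2 * a = 2 * b) : a = b :=
  cancel_nat two_ne_zero (by exact_mod_cast h)

lemma cancel_four {a b : R} (h : 4 * a = 4 * b) : a = b :=
  cancel_nat four_ne_zero (by exact_mod_cast h)

end cancel

section hv

variable {R : Type*} [CommRing R] (B G : R)

lemma hv_add (d : ℕ) (p q : Polynomial ℤ) : hv B G d (p + q) = hv B G d p + hv B G d q := by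
  unfold hv
  rw [← Finset.sum_add_distrib]
  refine Finset.sum_congr rfl fun l _ => ?_
  rw [Polynomial.coeff_add]
  push_cast
  ring

lemma hv_neg (d : ℕ) (p : Polynomial ℤ) : hv B G d (-p) = -hv B G d p := by
  unfold hv
  rw [← Finset.sum_neg_distrib]
  refine Finset.sum_congr rfl fun l _ => ?_
  rw [Polynomial.coeff_neg]
  push_cast
  ring

lemma hv_sub (d : ℕ) (p q : Polynomial ℤ) : hv B G d (p - q) = hv B G d p - hv B G d q := by
  rw [sub_eq_add_neg, hv_add, hv_neg, ← sub_eq_add_neg]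

lemma hv_two_mul (d : ℕ) (p : Polynomial ℤ) : hv B G d (2 * p) = 2 * hv B G d p := by
  rw [two_mul, hv_add, two_mul]

lemma hv_X_mul (d : ℕ) (p : Polynomial ℤ) :
    hv B G (d + 1) (Polynomial.X * p) = G * hv B G d p := by
  unfold hv
  rw [Finset.sum_range_succ', Finset.mul_sum]
  rw [Polynomial.coeff_X_mul_zero]
  push_cast
  rw [zero_mul, zero_mul, add_zero]
  refine Finset.sum_congr rfl fun l _ => ?_
  rw [Polynomial.coeff_X_mul]
  ring

lemma hv_succ (d : ℕ) (p : Polynomial ℤ) (h : p.coeff (d + 1) = 0) :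
    hv B G (d + 1) p = B * hv B G d p := by
  unfold hv
  rw [Finset.sum_range_succ, h, Finset.mul_sum]
  push_cast
  rw [zero_mul, zero_mul, add_zero]
  refine Finset.sum_congr rfl fun l hl => ?_
  rw [Finset.mem_range] at hl
  have : d + 1 - l = (d - l) + 1 := by omega
  rw [this, pow_succ]
  ring

lemma hv_one : hv B G 0 1 = 1 := by
  unfold hv
  simp

lemma hv_zero (d : ℕ) : hv B G d 0 = 0 := by
  unfold hv
  simp

end hv

theorem tri_kap {R : Type*} [CommRing R] [Algebra ℂ R] {A B G : R} {x : Fin 3 → R}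
    (h : Tri A x) (hB : 4 * B = 2 * A ^ 3 - x 0 * x 1 * x 2)
    (hG : 4 * G = 2 * A ^ 3 + x 0 * x 1 * x 2) {u v : Fin 3 → R}
    (hu : ∀ i, 2 * u i = 2 * A ^ 3 + A ^ 2 * x i - A * x i ^ 2)
    (hv' : ∀ i, 2 * v i = -2 * A ^ 3 + A ^ 2 * x i + A * x i ^ 2) (e m n : ℕ) (he : e ≤ 2) :
    ∑ i, x i ^ e * (u i ^ m * v i ^ n) = 3 * A ^ e * hv B G (m + n) (kap e m n) := by
  obtain ⟨s1, s2⟩ := h
  set p : R := x 0 * x 1 * x 2 with hp
  -- the cubic equation
  have hc : ∀ i, x i ^ 3 = 3 * A ^ 2 * x i + p := by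
    intro i
    have h2 : x 2 = -(x 0 + x 1) := by linear_combination s1
    fin_cases i
    · show x 0 ^ 3 = 3 * A ^ 2 * x 0 + p
      rw [hp]
      linear_combination (x 0) ^ 2 * s1 - x 0 * s2
    · show x 1 ^ 3 = 3 * A ^ 2 * x 1 + p
      rw [hp]
      linear_combination (x 1) ^ 2 * s1 - x 1 * s2
    · show x 2 ^ 3 = 3 * A ^ 2 * x 2 + p
      rw [hp]
      linear_combination (x 2) ^ 2 * s1 - x 2 * s2
  -- the table
  have t1 : ∀ i, u i ^ 2 = 2 * (B + G) * B - B * u i - B * v i := by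
    intro i
    refine cancel_four ?_
    linear_combination (2 * u i + (2 * A ^ 3 + A ^ 2 * x i - A * x i ^ 2)) * hu i +
      2 * B * (hu i + hv' i) - 2 * B * (hB + hG) - (2 * A ^ 3 - A ^ 2 * x i) * hB +
      A ^ 2 * (x i - 2 * A) * hc i
  have t3 : ∀ i, v i ^ 2 = 2 * (B + G) * G + G * u i + G * v i := by
    intro i
    refine cancel_four ?_
    linear_combination (2 * v i + (-2 * A ^ 3 + A ^ 2 * x i + A * x i ^ 2)) * hv' i -
      2 * G * (hu i + hv' i) - 2 * G * (hB + hG) - (2 * A ^ 3 + A ^ 2 * x i) * hG +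
      A ^ 2 * (x i + 2 * A) * hc i
  have t2 : ∀ i, u i * v i = -(G * u i) + B * v i := by
    intro i
    refine cancel_nat (n := 8) (by norm_num) ?_
    push_cast
    linear_combination (4 * v i + 4 * G) * hu i +
      (2 * (2 * A ^ 3 + A ^ 2 * x i - A * x i ^ 2) - 4 * B) * hv' i +
      (2 * A ^ 3 + A ^ 2 * x i - A * x i ^ 2) * hG -
      (-2 * A ^ 3 + A ^ 2 * x i + A * x i ^ 2) * hB - 2 * A ^ 2 * x i * hc i
  -- the power sums
  have q2 : x 0 ^ 2 + x 1 ^ 2 + x 2 ^ 2 = 6 * A ^ 2 := by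
    linear_combination (x 0 + x 1 + x 2) * s1 - 2 * s2
  have su : u 0 + u 1 + u 2 = 0 := by
    refine cancel_two ?_
    linear_combination hu 0 + hu 1 + hu 2 + A ^ 2 * s1 - A * q2
  have sv : v 0 + v 1 + v 2 = 0 := by
    refine cancel_two ?_
    linear_combination hv' 0 + hv' 1 + hv' 2 + A ^ 2 * s1 + A * q2
  have sxu : x 0 * u 0 + x 1 * u 1 + x 2 * u 2 = 6 * A * B := by
    refine cancel_two ?_
    linear_combination x 0 * hu 0 + x 1 * hu 1 + x 2 * hu 2 + 2 * A ^ 3 * s1 + A ^ 2 * q2 -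
      A * (hc 0 + hc 1 + hc 2) - 3 * A ^ 3 * s1 - 3 * A * hB
  have sxv : x 0 * v 0 + x 1 * v 1 + x 2 * v 2 = 6 * A * G := by
    refine cancel_two ?_
    linear_combination x 0 * hv' 0 + x 1 * hv' 1 + x 2 * hv' 2 - 2 * A ^ 3 * s1 + A ^ 2 * q2 +
      A * (hc 0 + hc 1 + hc 2) + 3 * A ^ 3 * s1 - 3 * A * hG
  have q4 : x 0 ^ 4 + x 1 ^ 4 + x 2 ^ 4 = 18 * A ^ 4 := by
    linear_combination x 0 * hc 0 + x 1 * hc 1 + x 2 * hc 2 + 3 * A ^ 2 * q2 + p * s1
  have sxxu : x 0 ^ 2 * u 0 + x 1 ^ 2 * u 1 + x 2 ^ 2 * u 2 = -(6 * A ^ 2 * B) := by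
    refine cancel_two ?_
    linear_combination x 0 ^ 2 * hu 0 + x 1 ^ 2 * hu 1 + x 2 ^ 2 * hu 2 + 2 * A ^ 3 * q2 +
      A ^ 2 * (hc 0 + hc 1 + hc 2) + 3 * A ^ 4 * s1 - A * q4 + 3 * A ^ 2 * hB
  have sxxv : x 0 ^ 2 * v 0 + x 1 ^ 2 * v 1 + x 2 ^ 2 * v 2 = 6 * A ^ 2 * G := by
    refine cancel_two ?_
    linear_combination x 0 ^ 2 * hv' 0 + x 1 ^ 2 * hv' 1 + x 2 ^ 2 * hv' 2 - 2 * A ^ 3 * q2 +
      A ^ 2 * (hc 0 + hc 1 + hc 2) + 3 * A ^ 4 * s1 + A * q4 - 3 * A ^ 2 * hG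
  have hK : ∀ i, u i ^ m * v i ^ n = hv B G (m + n) (K m n).1 +
      hv B G (m + n - 1) (K m n).2.1 * u i + hv B G (m + n - 1) (K m n).2.2 * v i := fun i =>
    K_eval (t1 i) (t2 i) (t3 i) m n
  obtain ⟨d1, d2, d3⟩ := K_deg m n
  rcases Nat.eq_zero_or_pos (m + n) with hd | hd
  · -- degree zero
    obtain ⟨rfl, rfl⟩ : m = 0 ∧ n = 0 := by omega
    have hK0 : K 0 0 = (1, 0, 0) := rfl
    rw [Fin.sum_univ_three]
    unfold kap ce
    rw [hK0]
    interval_cases e
    · rw [if_pos rfl]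
      rw [hv_one]
      ring
    · rw [if_neg one_ne_zero, if_pos rfl]
      have e0 : (2 * ((1, 0, 0) : T3).2.1 + 2 * (Polynomial.X * ((1, 0, 0) : T3).2.2) :
          Polynomial ℤ) = 0 := by simp
      have e1 : (2 * (((1, 0, 0) : T3).2.1 + Polynomial.X * ((1, 0, 0) : T3).2.2) :
          Polynomial ℤ) = 0 := by simp
      rw [e1, hv_zero]
      linear_combination s1
    · rw [if_neg two_ne_zero, if_neg (by norm_num)]
      have e1 : (2 * (((1, 0, 0) : T3).1 - ((1, 0, 0) : T3).2.1 +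
          Polynomial.X * ((1, 0, 0) : T3).2.2) : Polynomial ℤ) = 2 * 1 := by simp
      rw [e1, hv_two_mul, hv_one]
      linear_combination q2
  · obtain ⟨d, hd'⟩ : ∃ d, m + n = d + 1 := ⟨m + n - 1, by omega⟩
    rw [hd'] at hK d1 d2 d3 ⊢
    have e3 : d + 1 - 1 = d := by omega
    rw [e3] at hK
    have y1 : hv B G (d + 1) (K m n).2.1 = B * hv B G d (K m n).2.1 :=
      hv_succ B G d _ (d2 _ le_rfl)
    rw [Fin.sum_univ_three, hK 0, hK 1, hK 2]
    unfold kap ce
    interval_cases e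
    · rw [if_pos rfl]
      linear_combination hv B G d (K m n).2.1 * su + hv B G d (K m n).2.2 * sv
    · rw [if_neg one_ne_zero, if_pos rfl, hv_two_mul, hv_add, hv_X_mul, y1]
      linear_combination hv B G (d + 1) (K m n).1 * s1 + hv B G d (K m n).2.1 * sxu +
        hv B G d (K m n).2.2 * sxv
    · rw [if_neg two_ne_zero, if_neg (by norm_num), hv_two_mul, hv_add, hv_sub, hv_X_mul, y1]
      linear_combination hv B G (d + 1) (K m n).1 * q2 + hv B G d (K m n).2.1 * sxxu +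
        hv B G d (K m n).2.2 * sxxv

lemma three_smul {R : Type*} [CommRing R] [Algebra ℂ R] (a : R) :
    3 * ((1 / 3 : ℂ) • a) = a := by
  rw [mul_smul_comm]
  have h : (3 : R) * a = (3 : ℂ) • a := by
    rw [Algebra.smul_def]
    congr 1
    exact (map_ofNat (algebraMap ℂ R) 3).symm
  rw [h, smul_smul]
  norm_num

lemma tri_reindex {R : Type*} [CommRing R] (A B G : R) (e N s m n : ℕ) (hs : s ≤ N)
    (hm : m ≤ N - s) (hn : n ≤ s) :
    A ^ e * B ^ (N - s - m) * G ^ (s - n) * hv B G (m + n) (kap e m n) =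
      ∑ j ∈ Finset.range (N + 1), (if s ≤ j + n then
        (((kap e m n).coeff (j + n - s) : ℤ) : R) * (A ^ e * B ^ (N - j) * G ^ j) else 0) := by
  have h1 : ∑ j ∈ Finset.range (N + 1), (if s ≤ j + n then
        (((kap e m n).coeff (j + n - s) : ℤ) : R) * (A ^ e * B ^ (N - j) * G ^ j) else 0) =
      ∑ j ∈ Finset.Ico (s - n) (s + m + 1), (if s ≤ j + n then
        (((kap e m n).coeff (j + n - s) : ℤ) : R) * (A ^ e * B ^ (N - j) * G ^ j) else 0) := by
    symm
    refine Finset.sum_subset ?_ ?_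
    · intro j hj
      rw [Finset.mem_Ico] at hj
      rw [Finset.mem_range]
      omega
    · intro j hj hj'
      rw [Finset.mem_range] at hj
      rw [Finset.mem_Ico] at hj'
      by_cases h : s ≤ j + n
      · rw [if_pos h, kap_deg e m n _ (by omega)]
        simp
      · rw [if_neg h]
  rw [h1, Finset.sum_Ico_eq_sum_range]
  have h2 : s + m + 1 - (s - n) = m + n + 1 := by omega
  rw [h2]
  unfold hv
  rw [Finset.mul_sum]
  refine Finset.sum_congr rfl fun l hl => ?_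
  rw [Finset.mem_range] at hl
  rw [if_pos (by omega)]
  have h3 : s - n + l + n - s = l := by omega
  have h4 : N - (s - n + l) = (N - s - m) + (m + n - l) := by omega
  rw [h3, h4, pow_add, pow_add]
  ring

theorem tri_sum {R : Type*} [CommRing R] [Algebra ℂ R] {A B G : R} {x : Fin 3 → R}
    (h : Tri A x) (hB : 4 * B = 2 * A ^ 3 - x 0 * x 1 * x 2)
    (hG : 4 * G = 2 * A ^ 3 + x 0 * x 1 * x 2) {b g : Fin 3 → R}
    (hb : ∀ i, 2 * b i = (x i + A) * (x i - 2 * A) ^ 2)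
    (hg : ∀ i, 2 * g i = (x i - A) * (x i + 2 * A) ^ 2) (e N s : ℕ) (he : e ≤ 2) (hs : s ≤ N) :
    ∑ i, x i ^ e * b i ^ (N - s) * g i ^ s =
      (3 * (-2) ^ N : ℂ) • ∑ j ∈ Finset.range (N + 1), Mt e N j s •
        (A ^ e * B ^ (N - j) * G ^ j) := by
  have hc : ∀ i, x i ^ 3 = 3 * A ^ 2 * x i + x 0 * x 1 * x 2 := by
    obtain ⟨s1, s2⟩ := h
    intro i
    fin_cases i
    · show x 0 ^ 3 = 3 * A ^ 2 * x 0 + x 0 * x 1 * x 2
      linear_combination (x 0) ^ 2 * s1 - x 0 * s2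
    · show x 1 ^ 3 = 3 * A ^ 2 * x 1 + x 0 * x 1 * x 2
      linear_combination (x 1) ^ 2 * s1 - x 1 * s2
    · show x 2 ^ 3 = 3 * A ^ 2 * x 2 + x 0 * x 1 * x 2
      linear_combination (x 2) ^ 2 * s1 - x 2 * s2
  set u : Fin 3 → R := fun i => (1 / 3 : ℂ) • (b i + 2 * B) with hu0
  set v : Fin 3 → R := fun i => (1 / 3 : ℂ) • (g i - 2 * G) with hv0
  have hu3 : ∀ i, 3 * u i = b i + 2 * B := fun i => three_smul _
  have hv3 : ∀ i, 3 * v i = g i - 2 * G := fun i => three_smul _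
  have hu : ∀ i, 2 * u i = 2 * A ^ 3 + A ^ 2 * x i - A * x i ^ 2 := by
    intro i
    refine cancel_nat (n := 3) (by norm_num) ?_
    push_cast
    linear_combination 2 * hu3 i + hb i + hB + hc i
  have hv' : ∀ i, 2 * v i = -2 * A ^ 3 + A ^ 2 * x i + A * x i ^ 2 := by
    intro i
    refine cancel_nat (n := 3) (by norm_num) ?_
    push_cast
    linear_combination 2 * hv3 i + hg i - hG + hc i
  have hk := fun m n => tri_kap h hB hG hu hv' e m n he
  -- the constants
  set cm : R := algebraMap ℂ R (-(3 / 2)) with hcm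
  set cp : R := algebraMap ℂ R (3 / 2) with hcp
  have hcm2 : 2 * cm = -3 := by
    rw [hcm]
    have : (2 : R) = algebraMap ℂ R 2 := (map_ofNat (algebraMap ℂ R) 2).symm
    rw [this, ← map_mul, show (2 : ℂ) * (-(3 / 2)) = -3 by norm_num, map_neg]
    congr 1
    exact map_ofNat (algebraMap ℂ R) 3
  have hcp2 : 2 * cp = 3 := by
    rw [hcp]
    have : (2 : R) = algebraMap ℂ R 2 := (map_ofNat (algebraMap ℂ R) 2).symm
    rw [this, ← map_mul, show (2 : ℂ) * (3 / 2) = 3 by norm_num]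
    exact map_ofNat (algebraMap ℂ R) 3
  have hb' : ∀ i, b i = -2 * (cm * u i + B) := by
    intro i
    linear_combination -hu3 i + u i * hcm2
  have hg' : ∀ i, g i = 2 * (cp * v i + G) := by
    intro i
    linear_combination -hv3 i - v i * hcp2
  have hsgn : ((-2 : R)) ^ (N - s) * 2 ^ s = (-2) ^ N * (-1) ^ s := by
    have e1 : N = (N - s) + s := by omega
    conv_rhs => rw [e1, pow_add, mul_assoc, ← mul_pow]
    norm_num
  have hterm : ∀ i, x i ^ e * b i ^ (N - s) * g i ^ s = ∑ m ∈ Finset.range (N - s + 1),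
      ∑ n ∈ Finset.range (s + 1), (-2) ^ N * (-1) ^ s * (cm ^ m * cp ^ n *
        (((N - s).choose m : ℕ) : R) * ((s.choose n : ℕ) : R) *
        (B ^ (N - s - m) * G ^ (s - n))) * (x i ^ e * (u i ^ m * v i ^ n)) := by
    intro i
    rw [hb' i, hg' i, mul_pow, mul_pow, add_pow, add_pow]
    have e2 : x i ^ e * ((-2) ^ (N - s) * ∑ m ∈ Finset.range (N - s + 1),
        (cm * u i) ^ m * B ^ (N - s - m) * (((N - s).choose m : ℕ) : R)) *
        (2 ^ s * ∑ m ∈ Finset.range (s + 1),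
        (cp * v i) ^ m * G ^ (s - m) * ((s.choose m : ℕ) : R)) =
        x i ^ e * ((-2) ^ (N - s) * 2 ^ s) * ((∑ m ∈ Finset.range (N - s + 1),
        (cm * u i) ^ m * B ^ (N - s - m) * (((N - s).choose m : ℕ) : R)) *
        ∑ m ∈ Finset.range (s + 1), (cp * v i) ^ m * G ^ (s - m) * ((s.choose m : ℕ) : R)) := by
      ring
    rw [e2, hsgn, Finset.sum_mul_sum, Finset.mul_sum]
    refine Finset.sum_congr rfl fun m _ => ?_
    rw [Finset.mul_sum]
    refine Finset.sum_congr rfl fun n _ => ?_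
    rw [mul_pow, mul_pow]
    ring
  rw [Finset.sum_congr rfl fun i _ => hterm i, Finset.sum_comm]
  have h5 : ∀ m ∈ Finset.range (N - s + 1), ∑ i : Fin 3, ∑ n ∈ Finset.range (s + 1),
      (-2) ^ N * (-1) ^ s * (cm ^ m * cp ^ n *
        (((N - s).choose m : ℕ) : R) * ((s.choose n : ℕ) : R) *
        (B ^ (N - s - m) * G ^ (s - n))) * (x i ^ e * (u i ^ m * v i ^ n)) =
      ∑ n ∈ Finset.range (s + 1), 3 * (-2) ^ N * ((-1) ^ s * cm ^ m * cp ^ n *
        (((N - s).choose m : ℕ) : R) * ((s.choose n : ℕ) : R) *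
        ∑ j ∈ Finset.range (N + 1), (if s ≤ j + n then
        (((kap e m n).coeff (j + n - s) : ℤ) : R) * (A ^ e * B ^ (N - j) * G ^ j) else 0)) := by
    intro m hm
    rw [Finset.mem_range] at hm
    rw [Finset.sum_comm]
    refine Finset.sum_congr rfl fun n hn => ?_
    rw [Finset.mem_range] at hn
    rw [← Finset.mul_sum, hk, ← tri_reindex A B G e N s m n hs (by omega) (by omega)]
    ring
  rw [Finset.sum_congr rfl h5]
  -- extend the ranges
  set Q : ℕ → ℕ → R := fun m n => 3 * (-2) ^ N * ((-1) ^ s * cm ^ m * cp ^ n *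
        (((N - s).choose m : ℕ) : R) * ((s.choose n : ℕ) : R) *
        ∑ j ∈ Finset.range (N + 1), (if s ≤ j + n then
        (((kap e m n).coeff (j + n - s) : ℤ) : R) * (A ^ e * B ^ (N - j) * G ^ j) else 0)) with hQ
  have h6 : ∑ m ∈ Finset.range (N - s + 1), ∑ n ∈ Finset.range (s + 1), Q m n =
      ∑ m ∈ Finset.range (N + 1), ∑ n ∈ Finset.range (N + 1), Q m n := by
    have a1 : ∀ m, ∑ n ∈ Finset.range (s + 1), Q m n = ∑ n ∈ Finset.range (N + 1), Q m n := by
      intro m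
      refine Finset.sum_subset (Finset.range_mono (by omega)) fun n _ hn => ?_
      rw [Finset.mem_range] at hn
      rw [hQ]
      simp only
      rw [Nat.choose_eq_zero_of_lt (show s < n by omega)]
      push_cast
      ring
    rw [Finset.sum_congr rfl fun m _ => a1 m]
    refine Finset.sum_subset (Finset.range_mono (by omega)) fun m _ hm => ?_
    rw [Finset.mem_range] at hm
    refine Finset.sum_eq_zero fun n _ => ?_
    rw [hQ]
    simp only
    rw [Nat.choose_eq_zero_of_lt (show N - s < m by omega)]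
    push_cast
    ring
  rw [h6]
  -- the right side
  have h7 : ∀ j, Mt e N j s • (A ^ e * B ^ (N - j) * G ^ j) =
      ∑ m ∈ Finset.range (N + 1), ∑ n ∈ Finset.range (N + 1), ((-1) ^ s * cm ^ m * cp ^ n *
        (((N - s).choose m : ℕ) : R) * ((s.choose n : ℕ) : R) * (if s ≤ j + n then
        (((kap e m n).coeff (j + n - s) : ℤ) : R) * (A ^ e * B ^ (N - j) * G ^ j) else 0)) := by
    intro j
    unfold Mt
    rw [Algebra.smul_def, map_sum, Finset.sum_mul]
    refine Finset.sum_congr rfl fun m _ => ?_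
    rw [map_sum, Finset.sum_mul]
    refine Finset.sum_congr rfl fun n _ => ?_
    split_ifs with hc2
    · simp only [map_mul, map_pow, map_natCast, map_intCast, map_neg, map_one]
      rw [hcm, hcp]
      simp only [map_neg]
      ring
    · rw [map_zero, zero_mul, mul_zero]
  have h8 : ((3 * (-2) ^ N : ℂ) • ∑ j ∈ Finset.range (N + 1), Mt e N j s •
        (A ^ e * B ^ (N - j) * G ^ j) : R) = 3 * (-2) ^ N * ∑ j ∈ Finset.range (N + 1),
        Mt e N j s • (A ^ e * B ^ (N - j) * G ^ j) := by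
    rw [Algebra.smul_def]
    congr 1
    simp only [map_mul, map_pow, map_neg, map_ofNat]
  rw [h8, Finset.sum_congr rfl fun j _ => h7 j]
  rw [Finset.mul_sum]
  simp only [hQ, Finset.mul_sum]
  symm
  rw [Finset.sum_comm]
  refine Finset.sum_congr rfl fun m _ => ?_
  rw [Finset.sum_comm]

end Pool.Agent.Lib.MP_06b9d2_ssp
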