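import Pool.Agent.Lib.MP_06b9d2_ssp.Star
import Pool.Agent.Lib.MP_06b9d2_ssp.POa

/-!
Module SSP-Cg0. The congruence for `e = 0`.

`star`, `kap0`, `dm27`. All values `mu N x π g`, `PO O g`, have valuation `≤ 1` (`Nm.mem`). In the sum of `star` the terms with
`m + n ≥ 4` or `(m, n) = (2, 1), (1, 2)` are in `27 O` (`dm27`, the coefficients of `kap` are integers, `PO_shift`), and those with
`(m, n) = (1, 0), (0, 1), (1, 1)` are `0`. (If `N < 3` some of the pairs `(m, n)` below do not occur in the sum of `star`;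
but `dm N m n s = 0` for natural `s ≤ N` and `m > N` or `n > N` (`dm_nat`), so `mu` of these functions is `0` and the terms can be
added: extend the two ranges to `range (N + 4)` first.) With `r = N - s`, `σ = (-1) ^ π`, the remaining terms are:
`(0, 0)`: `σ mu π f`;
`(2, 0)`: `dm = (9/8) r (r - 1)`, `kap = 2 + 2 X`: `l = 0`: `σ (9/4) mu π (r (r - 1) f)`; `l = 1`: `-σ (9/4) mu (π + 1) (r (r - 1) f(s + 1))`;
`(0, 2)`: `dm = (9/8) s (s - 1)`, `kap = 2 X + 2 X ^ 2`: `l = 1`: `-σ (9/4) mu (π + 3) (s (s - 1) f(s - 1))`, `l = 2`: `σ (9/4) mu (π + 4) (s (s - 1) f)`;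
`(3, 0)`: `dm = -(27/48) r (r - 1) (r - 2)`, `kap = -2 - 2 X`: `l = 0`: `σ (9/8) mu π (r (r - 1) (r - 2) f)`, `l = 1`: minus the same with `π + 1`, `f(s + 1)`;
`(0, 3)`: `dm = (27/48) s (s - 1) (s - 2)`, `kap = 2 X ^ 2 + 2 X ^ 3`: `l = 2`: `-σ (9/8) mu (π + 5) (s (s - 1) (s - 2) f(s - 1))`, `l = 3`: `σ (9/8) mu (π + 6) (s (s - 1) (s - 2) f)`.
The terms with an odd shift of `π` are `9 mu (π + 1) w` with `w` in `PO` (`1/4`, `1/8` are in `O`; `mu` depends on `π` modulo `2`).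
The others: `1/4 = 1 - 3/4`, `1/8 = -1 + 9/8`, so modulo `27 O` the sum is `σ mu π (D f)`,
`D = 1 + 9 (r (r - 1) + s (s - 1) - r (r - 1) (r - 2) - s (s - 1) (s - 2))`, and in `ℤ[s]` (with `r = N - s`)
`r (r - 1) (3 - r) + s (s - 1) (3 - s) = -(N ^ 3 - N ^ 2) - (s ^ 2 - N s) + 3 h`, `h` a polynomial in `s` with integral coefficients
(`r (r - 1) (3 - r) = -r ^ 3 + 4 r ^ 2 - 3 r`; `r ^ 3 + s ^ 3 = N ^ 3 - 3 N r s`, `r ^ 2 + s ^ 2 = N ^ 2 - 2 r s`, `r + s = N`:
the sum is `-N ^ 3 + 3 N r s + 4 N ^ 2 - 8 r s - 3 N = -N ^ 3 + N ^ 2 + r s + 3 (N r s + N ^ 2 - 3 r s - N)` and `r s = -(s ^ 2 - N s)`).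
-/

namespace Pool.Agent.Lib.MP_06b9d2_ssp

open PowerSeries Pool.Agent.L1

private theorem mu_cg {N : ℕ} {x : ℕ → ℂ} {p : ℕ} {f g : ℤ → ℂ} (h : ∀ s : ℕ, s ≤ N → f s = g s) :
    mu N x p f = mu N x p g := by
  unfold mu
  refine Finset.sum_congr rfl fun s hs => ?_
  have := Finset.mem_range.1 (Finset.mem_filter.1 hs).1
  rw [h s (by omega)]

private theorem mu_mul {N : ℕ} {x : ℕ → ℂ} {p : ℕ} (c : ℂ) (f : ℤ → ℂ) :
    mu N x p (fun s => c * f s) = c * mu N x p f := by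
  unfold mu
  rw [Finset.mul_sum]
  exact Finset.sum_congr rfl fun s _ => by ring

private theorem mu_ad {N : ℕ} {x : ℕ → ℂ} {p : ℕ} (f g : ℤ → ℂ) :
    mu N x p (fun s => f s + g s) = mu N x p f + mu N x p g := by
  unfold mu
  rw [← Finset.sum_add_distrib]
  exact Finset.sum_congr rfl fun s _ => by ring

private theorem mu_md {N : ℕ} {x : ℕ → ℂ} {p q : ℕ} (f : ℤ → ℂ) (h : p % 2 = q % 2) :
    mu N x p f = mu N x q f := by
  unfold mu
  rw [h]

private theorem PO_cg {O : ValuationSubring ℂ} {f g : ℤ → ℂ} (hf : PO O f) (h : ∀ s, f s = g s) :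
    PO O g := by
  have : f = g := funext h
  rwa [← this]

/-- the set `27 O` -/
private noncomputable def J (O : ValuationSubring ℂ) : AddSubgroup ℂ :=
  O.toSubring.toAddSubgroup.map (AddMonoidHom.mulLeft (27 : ℂ))

private theorem J_mk {O : ValuationSubring ℂ} {v z : ℂ} (hz : z ∈ O) (h : v = 27 * z) : v ∈ J O :=
  ⟨z, hz, h.symm⟩

private theorem J_ex {O : ValuationSubring ℂ} {v : ℂ} (h : v ∈ J O) : ∃ z ∈ O, v = 27 * z := by
  obtain ⟨z, hz, h⟩ := h
  exact ⟨z, hz, h.symm⟩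

/-- the terms of `star` -/
private noncomputable def TT (e N : ℕ) (x : ℕ → ℂ) (π : ℕ) (f : ℤ → ℂ) (m n : ℕ) : ℂ :=
  ∑ l ∈ Finset.range (m + n + 1), (-1) ^ (π + n + l) * (((kap e m n).coeff l : ℤ) : ℂ) *
    mu N x (π + n + l) (fun s => dm N m n s * f (s - n + l))

private theorem TT_zero (e N : ℕ) (x : ℕ → ℂ) (π : ℕ) (f : ℤ → ℂ) (m n : ℕ) (h : N < m ∨ N < n) :
    TT e N x π f m n = 0 := by
  unfold TT
  refine Finset.sum_eq_zero fun l _ => ?_
  have h1 : mu N x (π + n + l) (fun s => dm N m n s * f (s - n + l)) =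
      mu N x (π + n + l) (fun s => 0 * f s) := by
    refine mu_cg fun s hs => ?_
    rw [dm_nat N m n s hs]
    rcases h with h | h
    · rw [Nat.choose_eq_zero_of_lt (show N - s < m by omega)]; simp
    · rw [Nat.choose_eq_zero_of_lt (show s < n by omega)]; simp
  rw [h1, mu_mul]
  ring

private theorem TT_big {O : ValuationSubring ℂ} (h3 : O.valuation 3 < 1) {e N : ℕ} {x : ℕ → ℂ}
    (hn : Nm O N x) (π : ℕ) {f : ℤ → ℂ} (hf : PO O f) (m n : ℕ)
    (h : 4 ≤ m + n ∨ (m = 2 ∧ n = 1) ∨ (m = 1 ∧ n = 2)) : TT e N x π f m n ∈ J O := by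
  obtain ⟨g, hg, hd⟩ := dm27 h3 N m n h
  unfold TT
  refine AddSubgroup.sum_mem _ fun l _ => ?_
  have h1 : mu N x (π + n + l) (fun s => dm N m n s * f (s - n + l)) =
      27 * mu N x (π + n + l) (fun s => g s * f (s + (-n + l))) := by
    rw [← mu_mul]
    refine mu_cg fun s _ => ?_
    rw [hd, show ((s : ℤ) - n + l) = (s : ℤ) + (-n + l) by ring]
    ring
  have h2 : mu N x (π + n + l) (fun s => g s * f (s + (-n + l))) ∈ O :=
    (ValuationSubring.valuation_le_one_iff O _).1 (hn.mem _ _ (PO_mul hg (PO_shift hf _)))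
  have h4 : (-1 : ℂ) ^ (π + n + l) ∈ O := pow_mem (neg_mem (one_mem O)) _
  have h5 : (((kap e m n).coeff l : ℤ) : ℂ) ∈ O := intCast_mem O _
  refine J_mk (mul_mem (mul_mem h4 h5) h2) ?_
  rw [h1]
  ring

private theorem TT_sum {O : ValuationSubring ℂ} (h3 : O.valuation 3 < 1) {N : ℕ} {x : ℕ → ℂ}
    (hn : Nm O N x) (π : ℕ) {f : ℤ → ℂ} (hf : PO O f) :
    ∃ z ∈ O, ∑ m ∈ Finset.range (N + 1), ∑ n ∈ Finset.range (N + 1), TT 0 N x π f m n =
      TT 0 N x π f 0 0 + TT 0 N x π f 2 0 + TT 0 N x π f 0 2 + TT 0 N x π f 3 0 +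
        TT 0 N x π f 0 3 + 27 * z := by
  have hsub : Finset.range (N + 1) ⊆ Finset.range (4 + N) := by
    intro a ha
    have := Finset.mem_range.1 ha
    exact Finset.mem_range.2 (by omega)
  have e1 : ∀ m, ∑ n ∈ Finset.range (N + 1), TT 0 N x π f m n =
      ∑ n ∈ Finset.range (4 + N), TT 0 N x π f m n := by
    intro m
    refine Finset.sum_subset hsub fun n _ hn' => ?_
    have : ¬ n < N + 1 := fun hh => hn' (Finset.mem_range.2 hh)
    exact TT_zero _ _ _ _ _ _ _ (Or.inr (by omega))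
  have e2 : ∑ m ∈ Finset.range (N + 1), ∑ n ∈ Finset.range (N + 1), TT 0 N x π f m n =
      ∑ m ∈ Finset.range (4 + N), ∑ n ∈ Finset.range (4 + N), TT 0 N x π f m n := by
    rw [Finset.sum_congr rfl fun m _ => e1 m]
    refine Finset.sum_subset hsub fun m _ hm' => ?_
    have : ¬ m < N + 1 := fun hh => hm' (Finset.mem_range.2 hh)
    exact Finset.sum_eq_zero fun n _ => TT_zero _ _ _ _ _ _ _ (Or.inl (by omega))
  obtain ⟨k0, k1, k2, k3, k4, k5, k6, k7⟩ := kap0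
  have z1 : TT 0 N x π f 1 0 = 0 := by
    unfold TT
    exact Finset.sum_eq_zero fun l _ => by rw [k1]; simp
  have z2 : TT 0 N x π f 0 1 = 0 := by
    unfold TT
    exact Finset.sum_eq_zero fun l _ => by rw [k2]; simp
  have z3 : TT 0 N x π f 1 1 = 0 := by
    unfold TT
    exact Finset.sum_eq_zero fun l _ => by rw [k4]; simp
  have B : ∀ m n, (4 ≤ m + n ∨ (m = 2 ∧ n = 1) ∨ (m = 1 ∧ n = 2)) → TT 0 N x π f m n ∈ J O :=
    fun m n h => TT_big h3 hn π hf m n h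
  have b0 : ∀ m, ∑ n ∈ Finset.range N, TT 0 N x π f m (4 + n) ∈ J O :=
    fun m => AddSubgroup.sum_mem _ fun n _ => B _ _ (Or.inl (by omega))
  have b1 : ∑ m ∈ Finset.range N, ∑ n ∈ Finset.range (4 + N), TT 0 N x π f (4 + m) n ∈ J O :=
    AddSubgroup.sum_mem _ fun m _ => AddSubgroup.sum_mem _ fun n _ => B _ _ (Or.inl (by omega))
  have b2 := B 1 2 (by decide)
  have b3 := B 1 3 (by decide)
  have b4 := B 2 1 (by decide)
  have b5 := B 2 2 (by decide)
  have b6 := B 2 3 (by decide)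
  have b7 := B 3 1 (by decide)
  have b8 := B 3 2 (by decide)
  have b9 := B 3 3 (by decide)
  have bb := add_mem (add_mem (add_mem (add_mem (add_mem (add_mem (add_mem (add_mem (add_mem
    (add_mem (add_mem (add_mem b1 (b0 0)) (b0 1)) (b0 2)) (b0 3)) b2) b3) b4) b5) b6) b7) b8) b9
  obtain ⟨z, hz, hz'⟩ := J_ex bb
  refine ⟨z, hz, ?_⟩
  rw [← hz', e2, Finset.sum_range_add _ 4 N]
  have e3 : ∀ m, ∑ n ∈ Finset.range (4 + N), TT 0 N x π f m n = TT 0 N x π f m 0 +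
      TT 0 N x π f m 1 + TT 0 N x π f m 2 + TT 0 N x π f m 3 +
      ∑ n ∈ Finset.range N, TT 0 N x π f m (4 + n) := by
    intro m
    rw [Finset.sum_range_add _ 4 N]
    simp only [Finset.sum_range_succ, Finset.sum_range_zero, zero_add]
  have e4 : ∑ m ∈ Finset.range 4, ∑ n ∈ Finset.range (4 + N), TT 0 N x π f m n =
      ∑ n ∈ Finset.range (4 + N), TT 0 N x π f 0 n + ∑ n ∈ Finset.range (4 + N), TT 0 N x π f 1 n +
      ∑ n ∈ Finset.range (4 + N), TT 0 N x π f 2 n +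
      ∑ n ∈ Finset.range (4 + N), TT 0 N x π f 3 n := by
    rw [Finset.sum_range_succ, Finset.sum_range_succ, Finset.sum_range_succ,
      Finset.sum_range_succ, Finset.sum_range_zero, zero_add]
  rw [e4, e3 0, e3 1, e3 2, e3 3, z1, z2, z3]
  ring

theorem cong0 {O : ValuationSubring ℂ} (h3 : O.valuation 3 < 1) (N : ℕ) (lam : ℂ) (x : ℕ → ℂ)
    (h : Eg 0 N lam x) (hn : Nm O N x) :
    Cg O N x lam (1 - 9 * ((N : ℂ) ^ 3 - (N : ℂ) ^ 2)) (-1) := by
  intro π f hf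
  obtain ⟨z, hz, hsum⟩ := TT_sum h3 hn π hf
  have hst := star 0 N lam x h π f
  have hst' : lam * mu N x π f =
      ∑ m ∈ Finset.range (N + 1), ∑ n ∈ Finset.range (N + 1), TT 0 N x π f m n := hst
  rw [hsum] at hst'
  obtain ⟨k0, k1, k2, k3, k4, k5, k6, k7⟩ := kap0
  -- polynomial functions
  have pc : ∀ k : ℤ, PO O (fun _ => (k : ℂ)) := fun k => PO_const _ (int_mem O k)
  have ps : PO O (fun s => (s : ℂ)) := PO_id
  have pr : PO O (fun s => (N : ℂ) - (s : ℂ)) :=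
    PO_cg (PO_add (pc (N : ℤ)) (PO_mul (pc (-1)) ps)) fun s => by push_cast; ring
  have q4 : PO O (fun _ => (1 / 4 : ℂ)) :=
    PO_cg (PO_const _ (val_rat h3 1 4 (by decide))) fun s => by norm_num
  have q8 : PO O (fun _ => (1 / 8 : ℂ)) :=
    PO_cg (PO_const _ (val_rat h3 1 8 (by decide))) fun s => by norm_num
  have sub1 : ∀ {g : ℤ → ℂ} (k : ℤ), PO O g → PO O (fun s => g s - (k : ℂ)) := by
    intro g k hg
    exact PO_cg (PO_add hg (pc (-k))) fun s => by push_cast; ring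
  have r2 : PO O (fun s => ((N : ℂ) - s) * ((N : ℂ) - s - 1)) :=
    PO_cg (PO_mul pr (sub1 1 pr)) fun s => by push_cast; ring
  have r3 : PO O (fun s => ((N : ℂ) - s) * ((N : ℂ) - s - 1) * ((N : ℂ) - s - 2)) :=
    PO_cg (PO_mul r2 (sub1 2 pr)) fun s => by push_cast; ring
  have s2 : PO O (fun s => (s : ℂ) * ((s : ℂ) - 1)) :=
    PO_cg (PO_mul ps (sub1 1 ps)) fun s => by push_cast; ring
  have s3 : PO O (fun s => (s : ℂ) * ((s : ℂ) - 1) * ((s : ℂ) - 2)) :=
    PO_cg (PO_mul s2 (sub1 2 ps)) fun s => by push_cast; ring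
  have fp : PO O (fun s => f (s + 1)) := PO_shift hf 1
  have fm : PO O (fun s => f (s - 1)) := PO_cg (PO_shift hf (-1)) fun s => by rw [sub_eq_add_neg]
  -- the functions `w` and `H`
  have hw : PO O (fun s => (-1) ^ (π + 1) *
      ((1 / 4) * ((((N : ℂ) - s) * ((N : ℂ) - s - 1)) * f (s + 1)) +
       (1 / 8) * ((((N : ℂ) - s) * ((N : ℂ) - s - 1) * ((N : ℂ) - s - 2)) * f (s + 1)) +
       ((1 / 4) * (((s : ℂ) * ((s : ℂ) - 1)) * f (s - 1)) +
       (1 / 8) * (((s : ℂ) * ((s : ℂ) - 1) * ((s : ℂ) - 2)) * f (s - 1))))) :=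
    PO_cg (PO_mul (pc ((-1) ^ (π + 1))) (PO_add
      (PO_add (PO_mul q4 (PO_mul r2 fp)) (PO_mul q8 (PO_mul r3 fp)))
      (PO_add (PO_mul q4 (PO_mul s2 fm)) (PO_mul q8 (PO_mul s3 fm)))))
      fun s => by push_cast; ring
  have hH : PO O (fun s => ((N : ℂ) * (((N : ℂ) - s) * s) + (N : ℂ) * ((N : ℂ) - 1) +
      (-3) * (((N : ℂ) - s) * s) +
      (-1 / 4) * (((N : ℂ) - s) * ((N : ℂ) - s - 1) + (s : ℂ) * ((s : ℂ) - 1)) +
      (3 / 8) * (((N : ℂ) - s) * ((N : ℂ) - s - 1) * ((N : ℂ) - s - 2) +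
        (s : ℂ) * ((s : ℂ) - 1) * ((s : ℂ) - 2))) * f s) :=
    PO_cg (PO_mul (PO_add (PO_add (PO_add (PO_add
      (PO_mul (pc (N : ℤ)) (PO_mul pr ps)) (pc ((N : ℤ) * (N - 1))))
      (PO_mul (pc (-3)) (PO_mul pr ps)))
      (PO_mul (pc (-1)) (PO_mul q4 (PO_add r2 s2))))
      (PO_mul (pc 3) (PO_mul q8 (PO_add r3 s3)))) hf)
      fun s => by push_cast; ring
  have hHm := (ValuationSubring.valuation_le_one_iff O _).1 (hn.mem π _ hH)
  refine ⟨_, (-1) ^ π * mu N x π (fun s => ((N : ℂ) * (((N : ℂ) - s) * s) +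
      (N : ℂ) * ((N : ℂ) - 1) + (-3) * (((N : ℂ) - s) * s) +
      (-1 / 4) * (((N : ℂ) - s) * ((N : ℂ) - s - 1) + (s : ℂ) * ((s : ℂ) - 1)) +
      (3 / 8) * (((N : ℂ) - s) * ((N : ℂ) - s - 1) * ((N : ℂ) - s - 2) +
        (s : ℂ) * ((s : ℂ) - 1) * ((s : ℂ) - 2))) * f s) + z, hw,
    add_mem (mul_mem (pow_mem (neg_mem (one_mem O)) _) hHm) hz, ?_⟩
  rw [hst']
  -- the five terms
  have t00 : TT 0 N x π f 0 0 = (-1) ^ π * mu N x π (fun s => f s) := by
    unfold TT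
    rw [k0]
    simp only [Nat.add_zero, zero_add, Finset.sum_range_one, Polynomial.coeff_one_zero,
      Int.cast_one, mul_one]
    congr 1
    refine mu_cg fun s _ => ?_
    rw [dm_nat N 0 0 s (by omega)]
    simp
  have c2 : ∀ l, (2 * (1 + Polynomial.X) : Polynomial ℤ).coeff l =
      if l = 0 then 2 else if l = 1 then 2 else 0 := by
    intro l
    rw [Polynomial.coeff_ofNat_mul, Polynomial.coeff_add, Polynomial.coeff_one,
      Polynomial.coeff_X]
    rcases l with _ | _ | l <;> simp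
  have m2 : ∀ j : ℕ, π + 2 * j ≡ π [MOD 2] := fun j => by
    show (π + 2 * j) % 2 = π % 2
    omega
  have t20 : TT 0 N x π f 2 0 =
      (-1) ^ π * mu N x π (fun s => (9 / 4) * (((N : ℂ) - s) * ((N : ℂ) - s - 1)) * f s) +
      9 * mu N x (π + 1) (fun s => (-1) ^ (π + 1) *
        ((1 / 4) * ((((N : ℂ) - s) * ((N : ℂ) - s - 1)) * f (s + 1)))) := by
    unfold TT
    rw [k3, ← mu_mul, ← mu_mul]
    simp only [Finset.sum_range_succ, Finset.sum_range_zero, c2, zero_add, add_zero]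
    norm_num
    rw [← mu_mul, ← mu_mul]
    congr 1
    · refine mu_cg fun s _ => ?_
      unfold dm
      simp only [Finset.prod_range_succ, Finset.prod_range_zero]
      norm_num [Nat.factorial]
      ring
    · refine mu_cg fun s _ => ?_
      unfold dm
      simp only [Finset.prod_range_succ, Finset.prod_range_zero]
      norm_num [Nat.factorial]
      ring
  have t30 : TT 0 N x π f 3 0 =
      (-1) ^ π * mu N x π (fun s => (9 / 8) * (((N : ℂ) - s) * ((N : ℂ) - s - 1) *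
        ((N : ℂ) - s - 2)) * f s) +
      9 * mu N x (π + 1) (fun s => (-1) ^ (π + 1) *
        ((1 / 8) * ((((N : ℂ) - s) * ((N : ℂ) - s - 1) * ((N : ℂ) - s - 2)) * f (s + 1)))) := by
    unfold TT
    rw [k6, ← mu_mul, ← mu_mul]
    simp only [Finset.sum_range_succ, Finset.sum_range_zero, Polynomial.coeff_neg, c2, zero_add,
      add_zero]
    norm_num
    rw [← mu_mul, ← mu_mul]
    congr 1
    · rw [neg_eq_neg_one_mul, ← mu_mul]
      refine mu_cg fun s _ => ?_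
      unfold dm
      simp only [Finset.prod_range_succ, Finset.prod_range_zero]
      norm_num [Nat.factorial]
      ring
    · rw [neg_eq_neg_one_mul, ← mu_mul]
      refine mu_cg fun s _ => ?_
      unfold dm
      simp only [Finset.prod_range_succ, Finset.prod_range_zero]
      norm_num [Nat.factorial]
      ring
  have t02 : TT 0 N x π f 0 2 =
      (-1) ^ π * mu N x π (fun s => (9 / 4) * ((s : ℂ) * ((s : ℂ) - 1)) * f s) +
      9 * mu N x (π + 1) (fun s => (-1) ^ (π + 1) *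
        ((1 / 4) * (((s : ℂ) * ((s : ℂ) - 1)) * f (s - 1)))) := by
    have c3 : ∀ l, (2 * (1 + Polynomial.X) * Polynomial.X : Polynomial ℤ).coeff (l + 1) =
        (2 * (1 + Polynomial.X) : Polynomial ℤ).coeff l := fun l => Polynomial.coeff_mul_X _ _
    have c4 : (2 * (1 + Polynomial.X) * Polynomial.X : Polynomial ℤ).coeff 0 = 0 := by simp
    have d1 : (2 * (1 + Polynomial.X) * Polynomial.X : Polynomial ℤ).coeff 1 = 2 := by
      rw [c3 0, c2]; simp
    have d2 : (2 * (1 + Polynomial.X) * Polynomial.X : Polynomial ℤ).coeff 2 = 2 := by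
      rw [c3 1, c2]; simp
    unfold TT
    rw [k5, ← mu_mul, ← mu_mul]
    simp only [Finset.sum_range_succ, Finset.sum_range_zero, c4, d1, d2, zero_add, add_zero]
    rw [mu_md (p := π + 2 + 1) (q := π + 1) _ (by omega),
      mu_md (p := π + 2 + 2) (q := π) _ (by omega), Int.cast_zero, mul_zero, zero_mul, zero_add,
      ← mu_mul, ← mu_mul, add_comm]
    congr 1
    · refine mu_cg fun s _ => ?_
      unfold dm
      simp only [Finset.prod_range_succ, Finset.prod_range_zero]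
      have e : ((s : ℤ) - (2 : ℕ) + (2 : ℕ)) = (s : ℤ) := by push_cast; ring
      rw [e, pow_add, pow_add]
      norm_num [Nat.factorial]
      ring
    · refine mu_cg fun s _ => ?_
      unfold dm
      simp only [Finset.prod_range_succ, Finset.prod_range_zero]
      have e : ((s : ℤ) - (2 : ℕ) + (1 : ℕ)) = (s : ℤ) - 1 := by push_cast; ring
      rw [e, pow_add, pow_add]
      norm_num [Nat.factorial]
      ring
  have t03 : TT 0 N x π f 0 3 =
      (-1) ^ π * mu N x π (fun s => (9 / 8) * ((s : ℂ) * ((s : ℂ) - 1) * ((s : ℂ) - 2)) * f s) +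
      9 * mu N x (π + 1) (fun s => (-1) ^ (π + 1) *
        ((1 / 8) * (((s : ℂ) * ((s : ℂ) - 1) * ((s : ℂ) - 2)) * f (s - 1)))) := by
    have c3 : ∀ l, (2 * (1 + Polynomial.X) * Polynomial.X ^ 2 : Polynomial ℤ).coeff (l + 2) =
        (2 * (1 + Polynomial.X) : Polynomial ℤ).coeff l :=
      fun l => Polynomial.coeff_mul_X_pow _ _ _
    have c4 : (2 * (1 + Polynomial.X) * Polynomial.X ^ 2 : Polynomial ℤ).coeff 0 = 0 := by
      rw [Polynomial.coeff_mul_X_pow']; simp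
    have c5 : (2 * (1 + Polynomial.X) * Polynomial.X ^ 2 : Polynomial ℤ).coeff 1 = 0 := by
      rw [Polynomial.coeff_mul_X_pow']; simp
    have d2 : (2 * (1 + Polynomial.X) * Polynomial.X ^ 2 : Polynomial ℤ).coeff 2 = 2 := by
      rw [c3 0, c2]; simp
    have d3 : (2 * (1 + Polynomial.X) * Polynomial.X ^ 2 : Polynomial ℤ).coeff 3 = 2 := by
      rw [c3 1, c2]; simp
    unfold TT
    rw [k7, ← mu_mul, ← mu_mul]
    simp only [Finset.sum_range_succ, Finset.sum_range_zero, c4, c5, d2, d3, zero_add, add_zero]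
    rw [mu_md (p := π + 3 + 2) (q := π + 1) _ (by omega),
      mu_md (p := π + 3 + 3) (q := π) _ (by omega), Int.cast_zero, mul_zero, zero_mul, mul_zero,
      zero_mul, zero_add, zero_add, ← mu_mul, ← mu_mul, add_comm]
    congr 1
    · refine mu_cg fun s _ => ?_
      unfold dm
      simp only [Finset.prod_range_succ, Finset.prod_range_zero]
      have e : ((s : ℤ) - (3 : ℕ) + (3 : ℕ)) = (s : ℤ) := by push_cast; ring
      rw [e, pow_add, pow_add]
      norm_num [Nat.factorial]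
      ring
    · refine mu_cg fun s _ => ?_
      unfold dm
      simp only [Finset.prod_range_succ, Finset.prod_range_zero]
      have e : ((s : ℤ) - (3 : ℕ) + (2 : ℕ)) = (s : ℤ) - 1 := by push_cast; ring
      rw [e, pow_add, pow_add]
      norm_num [Nat.factorial]
      ring
  rw [t00, t20, t02, t30, t03]
  have ew : mu N x (π + 1) (fun s => (-1) ^ (π + 1) *
      ((1 / 4) * ((((N : ℂ) - s) * ((N : ℂ) - s - 1)) * f (s + 1)) +
       (1 / 8) * ((((N : ℂ) - s) * ((N : ℂ) - s - 1) * ((N : ℂ) - s - 2)) * f (s + 1)) +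
       ((1 / 4) * (((s : ℂ) * ((s : ℂ) - 1)) * f (s - 1)) +
       (1 / 8) * (((s : ℂ) * ((s : ℂ) - 1) * ((s : ℂ) - 2)) * f (s - 1))))) =
      mu N x (π + 1) (fun s => (-1) ^ (π + 1) *
        ((1 / 4) * ((((N : ℂ) - s) * ((N : ℂ) - s - 1)) * f (s + 1)))) +
      mu N x (π + 1) (fun s => (-1) ^ (π + 1) *
        ((1 / 4) * (((s : ℂ) * ((s : ℂ) - 1)) * f (s - 1)))) +
      mu N x (π + 1) (fun s => (-1) ^ (π + 1) *
        ((1 / 8) * ((((N : ℂ) - s) * ((N : ℂ) - s - 1) * ((N : ℂ) - s - 2)) * f (s + 1)))) +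
      mu N x (π + 1) (fun s => (-1) ^ (π + 1) *
        ((1 / 8) * (((s : ℂ) * ((s : ℂ) - 1) * ((s : ℂ) - 2)) * f (s - 1)))) := by
    rw [← mu_ad, ← mu_ad, ← mu_ad]
    exact mu_cg fun s _ => by ring
  have ee : mu N x π (fun s => f s) +
      mu N x π (fun s => (9 / 4) * (((N : ℂ) - s) * ((N : ℂ) - s - 1)) * f s) +
      mu N x π (fun s => (9 / 4) * ((s : ℂ) * ((s : ℂ) - 1)) * f s) +
      mu N x π (fun s => (9 / 8) * (((N : ℂ) - s) * ((N : ℂ) - s - 1) *
        ((N : ℂ) - s - 2)) * f s) +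
      mu N x π (fun s => (9 / 8) * ((s : ℂ) * ((s : ℂ) - 1) * ((s : ℂ) - 2)) * f s) =
      mu N x π (fun s => (1 - 9 * ((N : ℂ) ^ 3 - (N : ℂ) ^ 2) +
        9 * (-1) * ((s : ℂ) ^ 2 - (N : ℂ) * (s : ℂ))) * f s) +
      27 * mu N x π (fun s => ((N : ℂ) * (((N : ℂ) - s) * s) +
      (N : ℂ) * ((N : ℂ) - 1) + (-3) * (((N : ℂ) - s) * s) +
      (-1 / 4) * (((N : ℂ) - s) * ((N : ℂ) - s - 1) + (s : ℂ) * ((s : ℂ) - 1)) +
      (3 / 8) * (((N : ℂ) - s) * ((N : ℂ) - s - 1) * ((N : ℂ) - s - 2) +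
        (s : ℂ) * ((s : ℂ) - 1) * ((s : ℂ) - 2))) * f s) := by
    rw [← mu_mul, ← mu_ad, ← mu_ad, ← mu_ad, ← mu_ad, ← mu_ad]
    exact mu_cg fun s _ => by ring
  rw [ew]
  linear_combination ((-1 : ℂ) ^ π) * ee

end Pool.Agent.Lib.MP_06b9d2_ssp
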