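import Pool.Agent.Lib.MP_06b9d2_ssp.Star
import Pool.Agent.Lib.MP_06b9d2_ssp.POa

/-!
Module SSP-Cg1. The congruence for `e = 1`.

`star`, `kap1`, `dm9` (the terms with `m + n ≥ 2` are in `9 O`: the coefficients of `kap` are integers, `PO_shift`, `Nm.mem`).
`(0, 0)`: `kap = 0`. `(1, 0)`: `dm = -(3/2) (N - s)`, `kap = 2`: `(-1) ^ π mu π (-3 (N - s) f)`. `(0, 1)`: `dm = (3/2) s`, `kap = 2 X`, `l = 1`:
`(-1) ^ (π + 2) mu (π + 2) (3 s f)`. (`mu` depends on `π` modulo `2`.) If `N = 0` the pairs `(1, 0)`, `(0, 1)` do not occur in the sum of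
`star`, but then `mu` of `3 (2 s - N) f` is `0` as well (only `s = 0`); or extend the ranges as in the header of module Cg0.
-/

namespace Pool.Agent.Lib.MP_06b9d2_ssp

open PowerSeries Pool.Agent.L1

/-- the terms of `star` -/
private noncomputable def tm (e N : ℕ) (x : ℕ → ℂ) (π : ℕ) (f : ℤ → ℂ) (m n : ℕ) : ℂ :=
  ∑ l ∈ Finset.range (m + n + 1), (-1) ^ (π + n + l) * (((kap e m n).coeff l : ℤ) : ℂ) *
    mu N x (π + n + l) (fun s => dm N m n s * f (s - n + l))

private theorem mu_const (N : ℕ) (x : ℕ → ℂ) (π : ℕ) (c : ℂ) (f : ℤ → ℂ) :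
    mu N x π (fun s => c * f s) = c * mu N x π f := by
  unfold mu
  rw [Finset.mul_sum]
  exact Finset.sum_congr rfl fun s _ => by ring

private theorem mu_plus (N : ℕ) (x : ℕ → ℂ) (π : ℕ) (f g : ℤ → ℂ) :
    mu N x π (fun s => f s + g s) = mu N x π f + mu N x π g := by
  unfold mu
  rw [← Finset.sum_add_distrib]
  exact Finset.sum_congr rfl fun s _ => by ring

private theorem mu_two (N : ℕ) (x : ℕ → ℂ) (π : ℕ) (f : ℤ → ℂ) :
    mu N x (π + 2) f = mu N x π f := by
  unfold mu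
  rw [Nat.add_mod_right]

private theorem tm_zero (e N : ℕ) (x : ℕ → ℂ) (π : ℕ) (f : ℤ → ℂ) (m n : ℕ)
    (h : N < m ∨ N < n) : tm e N x π f m n = 0 := by
  unfold tm
  refine Finset.sum_eq_zero fun l _ => ?_
  have h1 : mu N x (π + n + l) (fun s => dm N m n s * f (s - n + l)) = 0 := by
    unfold mu
    refine Finset.sum_eq_zero fun s hs => ?_
    have hs' : s ≤ N := by
      have := Finset.mem_range.1 (Finset.mem_filter.1 hs).1
      omega
    show x s * (dm N m n (s : ℤ) * f (s - n + l)) = 0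
    rw [dm_nat N m n s hs']
    rcases h with h | h
    · rw [Nat.choose_eq_zero_of_lt (show N - s < m by omega)]
      simp
    · rw [Nat.choose_eq_zero_of_lt (show s < n by omega)]
      simp
  rw [h1, mul_zero]

private theorem star_ext (e N : ℕ) (lam : ℂ) (x : ℕ → ℂ) (h : Eg e N lam x) (π : ℕ)
    (f : ℤ → ℂ) : lam * mu N x π f =
      ∑ p ∈ Finset.range (N + 4) ×ˢ Finset.range (N + 4), tm e N x π f p.1 p.2 := by
  rw [star e N lam x h π f, Finset.sum_product']
  have h1 : ∀ m, ∑ n ∈ Finset.range (N + 4), tm e N x π f m n =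
      ∑ n ∈ Finset.range (N + 1), tm e N x π f m n := by
    intro m
    symm
    refine Finset.sum_subset (Finset.range_subset_range.2 (by omega)) fun n _ hn => ?_
    exact tm_zero e N x π f m n (Or.inr (by simpa using hn))
  simp only [h1]
  symm
  have h2 : ∑ m ∈ Finset.range (N + 4), ∑ n ∈ Finset.range (N + 1), tm e N x π f m n =
      ∑ m ∈ Finset.range (N + 1), ∑ n ∈ Finset.range (N + 1), tm e N x π f m n := by
    symm
    refine Finset.sum_subset (Finset.range_subset_range.2 (by omega)) fun m _ hm => ?_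
    refine Finset.sum_eq_zero fun n _ => ?_
    exact tm_zero e N x π f m n (Or.inl (by simpa using hm))
  rw [h2]
  rfl

private theorem tm_mem {O : ValuationSubring ℂ} (e N : ℕ) (x : ℕ → ℂ) (hn : Nm O N x)
    (π : ℕ) (f : ℤ → ℂ) (hf : PO O f) (m n : ℕ) (c : ℂ) (g : ℤ → ℂ) (hg : PO O g)
    (hc : ∀ s, dm N m n s = c * g s) : ∃ z ∈ O, tm e N x π f m n = c * z := by
  refine ⟨∑ l ∈ Finset.range (m + n + 1), (-1) ^ (π + n + l) *
    (((kap e m n).coeff l : ℤ) : ℂ) * mu N x (π + n + l) (fun s => g s * f (s - n + l)), ?_, ?_⟩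
  · refine sum_mem fun l _ => mul_mem (mul_mem (pow_mem (neg_mem (one_mem _)) _)
      (intCast_mem _ _)) ?_
    refine (ValuationSubring.valuation_le_one_iff O _).1 (hn.mem _ _ (PO_mul hg ?_))
    have h := PO_shift hf (-(n : ℤ) + l)
    have e1 : (fun s : ℤ => f (s + (-(n : ℤ) + l))) = fun s : ℤ => f (s - n + l) := by
      funext s
      congr 1
      ring
    rwa [e1] at h
  · unfold tm
    rw [Finset.mul_sum]
    refine Finset.sum_congr rfl fun l _ => ?_
    have h1 : (fun s : ℤ => dm N m n s * f (s - n + l)) =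
        fun s : ℤ => c * (g s * f (s - n + l)) := by
      funext s
      rw [hc, mul_assoc]
    rw [h1, mu_const]
    ring

private theorem split_sum {O : ValuationSubring ℂ} (M : ℕ) (F : ℕ → ℕ → ℂ) (c : ℂ)
    (P : Finset (ℕ × ℕ)) (hP : P ⊆ Finset.range M ×ˢ Finset.range M)
    (h : ∀ m n, (m, n) ∉ P → ∃ z ∈ O, F m n = c * z) :
    ∃ z ∈ O, ∑ p ∈ Finset.range M ×ˢ Finset.range M, F p.1 p.2 =
      ∑ p ∈ P, F p.1 p.2 + c * z := by
  choose! z hz hz' using h
  refine ⟨∑ p ∈ (Finset.range M ×ˢ Finset.range M) \ P, z p.1 p.2, ?_, ?_⟩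
  · exact sum_mem fun p hp => hz p.1 p.2 (Finset.mem_sdiff.1 hp).2
  · rw [← Finset.sum_sdiff hP, add_comm, Finset.mul_sum]
    congr 1
    exact Finset.sum_congr rfl fun p hp => hz' p.1 p.2 (Finset.mem_sdiff.1 hp).2

theorem cong1 {O : ValuationSubring ℂ} (h3 : O.valuation 3 < 1) (N : ℕ) (lam : ℂ) (x : ℕ → ℂ)
    (h : Eg 1 N lam x) (hn : Nm O N x) : Cg1 O N x lam := by
  intro π f hf
  obtain ⟨z, hz, hs⟩ := split_sum (O := O) (N + 4) (tm 1 N x π f) 9
    {(0, 0), (1, 0), (0, 1)} (by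
      intro p hp
      simp only [Finset.mem_insert, Finset.mem_singleton] at hp
      rcases hp with rfl | rfl | rfl <;> simp [Finset.mem_product]) (by
      intro m n hmn
      have h2 : 2 ≤ m + n := by
        by_contra hc
        apply hmn
        have : (m = 0 ∧ n = 0) ∨ (m = 1 ∧ n = 0) ∨ (m = 0 ∧ n = 1) := by omega
        rcases this with ⟨rfl, rfl⟩ | ⟨rfl, rfl⟩ | ⟨rfl, rfl⟩ <;> simp
      obtain ⟨g, hg, hgs⟩ := dm9 h3 N m n h2
      exact tm_mem 1 N x hn π f hf m n 9 g hg hgs)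
  refine ⟨z, hz, ?_⟩
  rw [star_ext 1 N lam x h π f, hs]
  congr 1
  obtain ⟨k00, k10, k01⟩ := kap1
  rw [Finset.sum_insert (by decide), Finset.sum_insert (by decide), Finset.sum_singleton]
  have t00 : tm 1 N x π f 0 0 = 0 := by
    simp [tm, k00]
  have t10 : tm 1 N x π f 1 0 = (-1) ^ π * mu N x π (fun s => -3 * (N - (s : ℂ)) * f s) := by
    have e1 : (fun s : ℤ => dm N 1 0 s * f (s - (0 : ℕ) + (0 : ℕ))) =
        fun s : ℤ => (-(3 / 2)) * ((N - (s : ℂ)) * f s) := by
      funext s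
      simp [dm]
      ring_nf
    have e2 : (fun s : ℤ => -3 * (N - (s : ℂ)) * f s) =
        fun s : ℤ => (-3) * ((N - (s : ℂ)) * f s) := by
      funext s
      ring
    unfold tm
    rw [Finset.sum_range_succ, Finset.sum_range_one, k10, e1, e2, mu_const, mu_const]
    have c0 : (2 : Polynomial ℤ).coeff 0 = 2 := Polynomial.coeff_ofNat_zero 2
    have c1 : (2 : Polynomial ℤ).coeff 1 = 0 := Polynomial.coeff_ofNat_succ 2 0
    rw [c0, c1]
    push_cast
    ring_nf
  have t01 : tm 1 N x π f 0 1 = (-1) ^ π * mu N x π (fun s => 3 * (s : ℂ) * f s) := by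
    have e1 : (fun s : ℤ => dm N 0 1 s * f (s - (1 : ℕ) + (1 : ℕ))) =
        fun s : ℤ => (3 / 2) * ((s : ℂ) * f s) := by
      funext s
      have : s - ((1 : ℕ) : ℤ) + ((1 : ℕ) : ℤ) = s := by ring
      rw [this]
      simp [dm]
      ring
    have e2 : (fun s : ℤ => 3 * (s : ℂ) * f s) = fun s : ℤ => 3 * ((s : ℂ) * f s) := by
      funext s
      ring
    unfold tm
    rw [Finset.sum_range_succ, Finset.sum_range_one, k01, e1, e2, mu_const, mu_const]
    have c0 : (2 * Polynomial.X : Polynomial ℤ).coeff 0 = 0 := by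
      simp
    have c1 : (2 * Polynomial.X : Polynomial ℤ).coeff 1 = 2 := by
      rw [Polynomial.coeff_mul_X]
      exact Polynomial.coeff_ofNat_zero 2
    rw [c0, c1, show π + 1 + 1 = π + 2 by ring, mu_two]
    push_cast
    ring
  rw [t00, t10, t01]
  have e3 : (fun s : ℤ => 3 * (2 * (s : ℂ) - (N : ℂ)) * f s) =
      fun s : ℤ => -3 * (N - (s : ℂ)) * f s + 3 * (s : ℂ) * f s := by
    funext s
    ring
  rw [e3, mu_plus]
  ring

end Pool.Agent.Lib.MP_06b9d2_ssp
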