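import Pool.Agent.Lib.MP_06b9d2_ssp.Star
import Pool.Agent.Lib.MP_06b9d2_ssp.POa

/-!
Module SSP-Cg2. The congruence for `e = 2`.

As module Cg0 (read its header first): `star`, `kap2`, `dm27`; the ranges are extended to `range (N + 4)`; `r = N - s`, `σ = (-1) ^ π`.
The terms with `m + n ≥ 4` or `(m, n) = (2, 1), (1, 2)` are in `27 O`. The others:
`(0, 0)`: `σ mu π (2 f)`;
`(1, 0)`: `dm = -(3/2) r`, `kap = -2`: `σ mu π (3 r f)`;
`(0, 1)`: `dm = (3/2) s`, `kap = 2 X`, `l = 1`: `σ mu (π + 2) (3 s f)`; together `σ mu π ((2 + 3 N) f)`;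
`(2, 0)`: `dm = (9/8) r (r - 1)`, `kap = 6 + 2 X`: `l = 0`: `σ (27/4) mu π (r (r - 1) f)`, in `27 O`; `l = 1`: `-σ (9/4) mu (π + 1) (r (r - 1) f(s + 1))`;
`(1, 1)`: `dm = -(9/4) r s`, `kap = 4 X`: `l = 1`: `-σ 9 mu (π + 2) (r s f)`;
`(0, 2)`: `dm = (9/8) s (s - 1)`, `kap = 2 X + 6 X ^ 2`: `l = 1`: `-σ (9/4) mu (π + 3) (s (s - 1) f(s - 1))`, `l = 2`: `σ (27/4) mu (π + 4) (s (s - 1) f)`, in `27 O`;
`(3, 0)`: `dm = -(27/48) r (r - 1) (r - 2)`, `kap = -10 - 10 X`: `l = 0`: `σ (45/8) mu π (r (r - 1) (r - 2) f)`, `l = 1`: minus the same with `π + 1`, `f(s + 1)`;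
`(0, 3)`: `dm = (27/48) s (s - 1) (s - 2)`, `kap = 10 X ^ 2 + 10 X ^ 3`: `l = 2`: `-σ (45/8) mu (π + 5) (s (s - 1) (s - 2) f(s - 1))`, `l = 3`: `σ (45/8) mu (π + 6) (s (s - 1) (s - 2) f)`.
The terms with an odd shift of `π` are `9 mu (π + 1) w`, `w` in `PO` (`45/8 = 9 * 5/8`). The others are, modulo `27 O`, with `5/8 = 1 - 3/8`:
`σ mu π (D f)`, `D = 2 + 3 N - 9 r s + 9 (r (r - 1) (r - 2) + s (s - 1) (s - 2))`, and
`r (r - 1) (r - 2) + s (s - 1) (s - 2) = r ^ 3 + s ^ 3 - 3 (r ^ 2 + s ^ 2) + 2 (r + s) = N ^ 3 - N + 3 (-N r s - r ^ 2 - s ^ 2 + N)`, `-r s = s ^ 2 - N s`.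
-/

namespace Pool.Agent.Lib.MP_06b9d2_ssp

open PowerSeries Pool.Agent.L1

/-- the terms of `star` -/
private noncomputable def tm (e N : ℕ) (x : ℕ → ℂ) (π : ℕ) (f : ℤ → ℂ) (m n : ℕ) : ℂ :=
  ∑ l ∈ Finset.range (m + n + 1), (-1) ^ (π + n + l) * (((kap e m n).coeff l : ℤ) : ℂ) *
    mu N x (π + n + l) (fun s => dm N m n s * f (s - n + l))

private theorem mu_const (N : ℕ) (x : ℕ → ℂ) (π : ℕ) (c : ℂ) (f : ℤ → ℂ) :
    mu N x π (fun s => c * f s) = c * mu N x π f := by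
  unfold mu
  rw [Finset.mul_sum]
  exact Finset.sum_congr rfl fun s _ => by ring

private theorem mu_plus (N : ℕ) (x : ℕ → ℂ) (π : ℕ) (f g : ℤ → ℂ) :
    mu N x π (fun s => f s + g s) = mu N x π f + mu N x π g := by
  unfold mu
  rw [← Finset.sum_add_distrib]
  exact Finset.sum_congr rfl fun s _ => by ring

private theorem mu_two (N : ℕ) (x : ℕ → ℂ) (π : ℕ) (f : ℤ → ℂ) :
    mu N x (π + 2) f = mu N x π f := by
  unfold mu
  rw [Nat.add_mod_right]

private theorem tm_zero (e N : ℕ) (x : ℕ → ℂ) (π : ℕ) (f : ℤ → ℂ) (m n : ℕ)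
    (h : N < m ∨ N < n) : tm e N x π f m n = 0 := by
  unfold tm
  refine Finset.sum_eq_zero fun l _ => ?_
  have h1 : mu N x (π + n + l) (fun s => dm N m n s * f (s - n + l)) = 0 := by
    unfold mu
    refine Finset.sum_eq_zero fun s hs => ?_
    have hs' : s ≤ N := by
      have := Finset.mem_range.1 (Finset.mem_filter.1 hs).1
      omega
    show x s * (dm N m n (s : ℤ) * f (s - n + l)) = 0
    rw [dm_nat N m n s hs']
    rcases h with h | h
    · rw [Nat.choose_eq_zero_of_lt (show N - s < m by omega)]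
      simp
    · rw [Nat.choose_eq_zero_of_lt (show s < n by omega)]
      simp
  rw [h1, mul_zero]

private theorem star_ext (e N : ℕ) (lam : ℂ) (x : ℕ → ℂ) (h : Eg e N lam x) (π : ℕ)
    (f : ℤ → ℂ) : lam * mu N x π f =
      ∑ p ∈ Finset.range (N + 4) ×ˢ Finset.range (N + 4), tm e N x π f p.1 p.2 := by
  rw [star e N lam x h π f, Finset.sum_product']
  have h1 : ∀ m, ∑ n ∈ Finset.range (N + 4), tm e N x π f m n =
      ∑ n ∈ Finset.range (N + 1), tm e N x π f m n := by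
    intro m
    symm
    refine Finset.sum_subset (Finset.range_subset_range.2 (by omega)) fun n _ hn => ?_
    exact tm_zero e N x π f m n (Or.inr (by simpa using hn))
  simp only [h1]
  symm
  have h2 : ∑ m ∈ Finset.range (N + 4), ∑ n ∈ Finset.range (N + 1), tm e N x π f m n =
      ∑ m ∈ Finset.range (N + 1), ∑ n ∈ Finset.range (N + 1), tm e N x π f m n := by
    symm
    refine Finset.sum_subset (Finset.range_subset_range.2 (by omega)) fun m _ hm => ?_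
    refine Finset.sum_eq_zero fun n _ => ?_
    exact tm_zero e N x π f m n (Or.inl (by simpa using hm))
  rw [h2]
  rfl

private theorem tm_mem {O : ValuationSubring ℂ} (e N : ℕ) (x : ℕ → ℂ) (hn : Nm O N x)
    (π : ℕ) (f : ℤ → ℂ) (hf : PO O f) (m n : ℕ) (c : ℂ) (g : ℤ → ℂ) (hg : PO O g)
    (hc : ∀ s, dm N m n s = c * g s) : ∃ z ∈ O, tm e N x π f m n = c * z := by
  refine ⟨∑ l ∈ Finset.range (m + n + 1), (-1) ^ (π + n + l) *
    (((kap e m n).coeff l : ℤ) : ℂ) * mu N x (π + n + l) (fun s => g s * f (s - n + l)), ?_, ?_⟩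
  · refine sum_mem fun l _ => mul_mem (mul_mem (pow_mem (neg_mem (one_mem _)) _)
      (intCast_mem _ _)) ?_
    refine (ValuationSubring.valuation_le_one_iff O _).1 (hn.mem _ _ (PO_mul hg ?_))
    have h := PO_shift hf (-(n : ℤ) + l)
    have e1 : (fun s : ℤ => f (s + (-(n : ℤ) + l))) = fun s : ℤ => f (s - n + l) := by
      funext s
      congr 1
      ring
    rwa [e1] at h
  · unfold tm
    rw [Finset.mul_sum]
    refine Finset.sum_congr rfl fun l _ => ?_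
    have h1 : (fun s : ℤ => dm N m n s * f (s - n + l)) =
        fun s : ℤ => c * (g s * f (s - n + l)) := by
      funext s
      rw [hc, mul_assoc]
    rw [h1, mu_const]
    ring

private theorem split_sum {O : ValuationSubring ℂ} (M : ℕ) (F : ℕ → ℕ → ℂ) (c : ℂ)
    (P : Finset (ℕ × ℕ)) (hP : P ⊆ Finset.range M ×ˢ Finset.range M)
    (h : ∀ m n, (m, n) ∉ P → ∃ z ∈ O, F m n = c * z) :
    ∃ z ∈ O, ∑ p ∈ Finset.range M ×ˢ Finset.range M, F p.1 p.2 =
      ∑ p ∈ P, F p.1 p.2 + c * z := by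
  choose! z hz hz' using h
  refine ⟨∑ p ∈ (Finset.range M ×ˢ Finset.range M) \ P, z p.1 p.2, ?_, ?_⟩
  · exact sum_mem fun p hp => hz p.1 p.2 (Finset.mem_sdiff.1 hp).2
  · rw [← Finset.sum_sdiff hP, add_comm, Finset.mul_sum]
    congr 1
    exact Finset.sum_congr rfl fun p hp => hz' p.1 p.2 (Finset.mem_sdiff.1 hp).2



private theorem co_C (a : ℤ) (n : ℕ) : (Polynomial.C a : Polynomial ℤ).coeff n = if n = 0 then a else 0 :=
  Polynomial.coeff_C

private theorem k20c : (6 + 2 * Polynomial.X : Polynomial ℤ).coeff 0 = 6 ∧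
    (6 + 2 * Polynomial.X : Polynomial ℤ).coeff 1 = 2 ∧
    (6 + 2 * Polynomial.X : Polynomial ℤ).coeff 2 = 0 := by
  have h : (6 + 2 * Polynomial.X : Polynomial ℤ) = Polynomial.C 6 + Polynomial.C 2 * Polynomial.X := rfl
  rw [h]
  refine ⟨?_, ?_, ?_⟩ <;> simp [Polynomial.coeff_X]

private theorem k11c : (4 * Polynomial.X : Polynomial ℤ).coeff 0 = 0 ∧
    (4 * Polynomial.X : Polynomial ℤ).coeff 1 = 4 ∧
    (4 * Polynomial.X : Polynomial ℤ).coeff 2 = 0 := by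
  have h : (4 * Polynomial.X : Polynomial ℤ) = Polynomial.C 4 * Polynomial.X := rfl
  rw [h]
  refine ⟨?_, ?_, ?_⟩ <;> simp [Polynomial.coeff_X]

private theorem k02c : (2 * Polynomial.X + 6 * Polynomial.X ^ 2 : Polynomial ℤ).coeff 0 = 0 ∧
    (2 * Polynomial.X + 6 * Polynomial.X ^ 2 : Polynomial ℤ).coeff 1 = 2 ∧
    (2 * Polynomial.X + 6 * Polynomial.X ^ 2 : Polynomial ℤ).coeff 2 = 6 := by
  have h : (2 * Polynomial.X + 6 * Polynomial.X ^ 2 : Polynomial ℤ) =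
    Polynomial.C 2 * Polynomial.X + Polynomial.C 6 * Polynomial.X ^ 2 := rfl
  rw [h]
  refine ⟨?_, ?_, ?_⟩ <;> simp [Polynomial.coeff_X, Polynomial.coeff_X_pow]

private theorem k30c : (-(10 * (1 + Polynomial.X)) : Polynomial ℤ).coeff 0 = -10 ∧
    (-(10 * (1 + Polynomial.X)) : Polynomial ℤ).coeff 1 = -10 ∧
    (-(10 * (1 + Polynomial.X)) : Polynomial ℤ).coeff 2 = 0 ∧
    (-(10 * (1 + Polynomial.X)) : Polynomial ℤ).coeff 3 = 0 := by
  have h : (-(10 * (1 + Polynomial.X)) : Polynomial ℤ) =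
    Polynomial.C (-10) + Polynomial.C (-10) * Polynomial.X := by
    have e : Polynomial.C (-10 : ℤ) = -(10 : Polynomial ℤ) := by
      rw [map_neg]
      rfl
    rw [e]
    ring
  rw [h]
  refine ⟨?_, ?_, ?_, ?_⟩ <;> simp [Polynomial.coeff_X]

private theorem k03c : (10 * (1 + Polynomial.X) * Polynomial.X ^ 2 : Polynomial ℤ).coeff 0 = 0 ∧
    (10 * (1 + Polynomial.X) * Polynomial.X ^ 2 : Polynomial ℤ).coeff 1 = 0 ∧
    (10 * (1 + Polynomial.X) * Polynomial.X ^ 2 : Polynomial ℤ).coeff 2 = 10 ∧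
    (10 * (1 + Polynomial.X) * Polynomial.X ^ 2 : Polynomial ℤ).coeff 3 = 10 := by
  have h : (10 * (1 + Polynomial.X) * Polynomial.X ^ 2 : Polynomial ℤ) =
    Polynomial.C 10 * Polynomial.X ^ 2 + Polynomial.C 10 * Polynomial.X ^ 3 := by
    have e : Polynomial.C (10 : ℤ) = (10 : Polynomial ℤ) := rfl
    rw [e]
    ring
  rw [h]
  refine ⟨?_, ?_, ?_, ?_⟩ <;> simp [Polynomial.coeff_X_pow]

variable (N : ℕ) (x : ℕ → ℂ) (π : ℕ) (f : ℤ → ℂ)

private theorem t00 : tm 2 N x π f 0 0 = (-1) ^ π * mu N x π (fun s => 2 * f s) := by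
  have e1 : (fun s : ℤ => dm N 0 0 s * f (s - (0 : ℕ) + (0 : ℕ))) = fun s : ℤ => f s := by
    funext s
    simp [dm]
  unfold tm
  have c0 : (2 : Polynomial ℤ).coeff 0 = 2 := Polynomial.coeff_ofNat_zero 2
  rw [Finset.sum_range_one, kap2.1, e1, mu_const, c0]
  push_cast
  ring_nf

private theorem t10 : tm 2 N x π f 1 0 =
    (-1) ^ π * mu N x π (fun s => 3 * (N - (s : ℂ)) * f s) := by
  have e1 : (fun s : ℤ => dm N 1 0 s * f (s - (0 : ℕ) + (0 : ℕ))) =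
      fun s : ℤ => (-(3 / 2)) * ((N - (s : ℂ)) * f s) := by
    funext s
    simp [dm]
    ring_nf
  have e2 : (fun s : ℤ => 3 * (N - (s : ℂ)) * f s) =
      fun s : ℤ => 3 * ((N - (s : ℂ)) * f s) := by
    funext s
    ring
  unfold tm
  rw [Finset.sum_range_succ, Finset.sum_range_one, kap2.2.1, e1, e2, mu_const, mu_const]
  have c0 : (-2 : Polynomial ℤ).coeff 0 = -2 := by simp
  have c1 : (-2 : Polynomial ℤ).coeff 1 = 0 := by
    rw [Polynomial.coeff_neg]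
    have := Polynomial.coeff_ofNat_succ (R := ℤ) 2 0
    simp
  rw [c0, c1]
  push_cast
  ring_nf

private theorem t01 : tm 2 N x π f 0 1 = (-1) ^ π * mu N x π (fun s => 3 * (s : ℂ) * f s) := by
  have e1 : (fun s : ℤ => dm N 0 1 s * f (s - (1 : ℕ) + (1 : ℕ))) =
      fun s : ℤ => (3 / 2) * ((s : ℂ) * f s) := by
    funext s
    have : s - ((1 : ℕ) : ℤ) + ((1 : ℕ) : ℤ) = s := by ring
    rw [this]
    simp [dm]
    ring
  have e2 : (fun s : ℤ => 3 * (s : ℂ) * f s) = fun s : ℤ => 3 * ((s : ℂ) * f s) := by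
    funext s
    ring
  unfold tm
  rw [Finset.sum_range_succ, Finset.sum_range_one, kap2.2.2.1, e1, e2, mu_const, mu_const]
  have c0 : (2 * Polynomial.X : Polynomial ℤ).coeff 0 = 0 := by
    simp
  have c1 : (2 * Polynomial.X : Polynomial ℤ).coeff 1 = 2 := by
    rw [Polynomial.coeff_mul_X]
    exact Polynomial.coeff_ofNat_zero 2
  rw [c0, c1, show π + 1 + 1 = π + 2 by ring, mu_two]
  push_cast
  ring

private theorem t20 : tm 2 N x π f 2 0 =
    (-1) ^ π * mu N x π (fun s => 27 / 4 * ((N - (s : ℂ)) * (N - s - 1)) * f s) -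
      (-1) ^ π * (9 * mu N x (π + 1) (fun s => 1 / 4 * ((N - (s : ℂ)) * (N - s - 1)) * f (s + 1))) := by
  have e1 : (fun s : ℤ => dm N 2 0 s * f (s - (0 : ℕ) + (0 : ℕ))) =
      fun s : ℤ => (9 / 8) * ((N - (s : ℂ)) * (N - s - 1) * f s) := by
    funext s
    have : s - ((0 : ℕ) : ℤ) + ((0 : ℕ) : ℤ) = s := by simp
    rw [this]
    simp [dm, Finset.prod_range_succ, Nat.factorial]
    ring
  have e1' : (fun s : ℤ => dm N 2 0 s * f (s - (0 : ℕ) + (1 : ℕ))) =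
      fun s : ℤ => (9 / 8) * ((N - (s : ℂ)) * (N - s - 1) * f (s + 1)) := by
    funext s
    have : s - ((0 : ℕ) : ℤ) + ((1 : ℕ) : ℤ) = s + 1 := by simp
    rw [this]
    simp [dm, Finset.prod_range_succ, Nat.factorial]
    ring
  have e2 : (fun s : ℤ => 27 / 4 * ((N - (s : ℂ)) * (N - s - 1)) * f s) =
      fun s : ℤ => (27 / 4) * ((N - (s : ℂ)) * (N - s - 1) * f s) := by
    funext s
    ring
  have e2' : (fun s : ℤ => 1 / 4 * ((N - (s : ℂ)) * (N - s - 1)) * f (s + 1)) =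
      fun s : ℤ => (1 / 4) * ((N - (s : ℂ)) * (N - s - 1) * f (s + 1)) := by
    funext s
    ring
  unfold tm
  rw [Finset.sum_range_succ, Finset.sum_range_succ, Finset.sum_range_one, kap2.2.2.2.1, k20c.1,
    k20c.2.1, k20c.2.2, e1, e1', e2, e2', mu_const, mu_const, mu_const, mu_const]
  push_cast
  ring_nf

private theorem t11 : tm 2 N x π f 1 1 =
    (-1) ^ π * mu N x π (fun s => -9 * ((N - (s : ℂ)) * s) * f s) := by
  have e1 : (fun s : ℤ => dm N 1 1 s * f (s - (1 : ℕ) + (1 : ℕ))) =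
      fun s : ℤ => (-9 / 4) * ((N - (s : ℂ)) * s * f s) := by
    funext s
    have : s - ((1 : ℕ) : ℤ) + ((1 : ℕ) : ℤ) = s := by ring
    rw [this]
    simp [dm]
    ring
  have e2 : (fun s : ℤ => -9 * ((N - (s : ℂ)) * s) * f s) =
      fun s : ℤ => (-9) * ((N - (s : ℂ)) * s * f s) := by
    funext s
    ring
  unfold tm
  rw [Finset.sum_range_succ, Finset.sum_range_succ, Finset.sum_range_one, kap2.2.2.2.2.1, k11c.1,
    k11c.2.1, k11c.2.2, e1, e2, mu_const, mu_const, show π + 1 + 1 = π + 2 by ring, mu_two]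
  push_cast
  ring

private theorem t02 : tm 2 N x π f 0 2 =
    (-1) ^ π * mu N x π (fun s => 27 / 4 * ((s : ℂ) * (s - 1)) * f s) -
      (-1) ^ π * (9 * mu N x (π + 1) (fun s => 1 / 4 * ((s : ℂ) * (s - 1)) * f (s - 1))) := by
  have h21 : ∀ g : ℤ → ℂ, mu N x (π + 2 + 1) g = mu N x (π + 1) g := fun g => by
    rw [show π + 2 + 1 = (π + 1) + 2 by ring, mu_two]
  have h22 : ∀ g : ℤ → ℂ, mu N x (π + 2 + 2) g = mu N x π g := fun g => by
    rw [mu_two, mu_two]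
  have e1 : (fun s : ℤ => dm N 0 2 s * f (s - (2 : ℕ) + (1 : ℕ))) =
      fun s : ℤ => (9 / 8) * ((s : ℂ) * (s - 1) * f (s - 1)) := by
    funext s
    have : s - ((2 : ℕ) : ℤ) + ((1 : ℕ) : ℤ) = s - 1 := by push_cast; ring
    rw [this]
    simp [dm, Finset.prod_range_succ, Nat.factorial]
    ring
  have e1' : (fun s : ℤ => dm N 0 2 s * f (s - (2 : ℕ) + (2 : ℕ))) =
      fun s : ℤ => (9 / 8) * ((s : ℂ) * (s - 1) * f s) := by
    funext s
    have : s - ((2 : ℕ) : ℤ) + ((2 : ℕ) : ℤ) = s := by ring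
    rw [this]
    simp [dm, Finset.prod_range_succ, Nat.factorial]
    ring
  have e2 : (fun s : ℤ => 27 / 4 * ((s : ℂ) * (s - 1)) * f s) =
      fun s : ℤ => (27 / 4) * ((s : ℂ) * (s - 1) * f s) := by
    funext s
    ring
  have e2' : (fun s : ℤ => 1 / 4 * ((s : ℂ) * (s - 1)) * f (s - 1)) =
      fun s : ℤ => (1 / 4) * ((s : ℂ) * (s - 1) * f (s - 1)) := by
    funext s
    ring
  unfold tm
  rw [Finset.sum_range_succ, Finset.sum_range_succ, Finset.sum_range_one, kap2.2.2.2.2.2.1, k02c.1,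
    k02c.2.1, k02c.2.2, e1, e1', e2, e2', mu_const, mu_const, mu_const, mu_const, h21, h22]
  push_cast
  ring

private theorem t30 : tm 2 N x π f 3 0 =
    (-1) ^ π * mu N x π (fun s => 45 / 8 * ((N - (s : ℂ)) * (N - s - 1) * (N - s - 2)) * f s) -
      (-1) ^ π * (9 * mu N x (π + 1)
        (fun s => 5 / 8 * ((N - (s : ℂ)) * (N - s - 1) * (N - s - 2)) * f (s + 1))) := by
  have e1 : (fun s : ℤ => dm N 3 0 s * f (s - (0 : ℕ) + (0 : ℕ))) =
      fun s : ℤ => (-9 / 16) * ((N - (s : ℂ)) * (N - s - 1) * (N - s - 2) * f s) := by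
    funext s
    have : s - ((0 : ℕ) : ℤ) + ((0 : ℕ) : ℤ) = s := by simp
    rw [this]
    simp [dm, Finset.prod_range_succ, Nat.factorial]
    ring
  have e1' : (fun s : ℤ => dm N 3 0 s * f (s - (0 : ℕ) + (1 : ℕ))) =
      fun s : ℤ => (-9 / 16) * ((N - (s : ℂ)) * (N - s - 1) * (N - s - 2) * f (s + 1)) := by
    funext s
    have : s - ((0 : ℕ) : ℤ) + ((1 : ℕ) : ℤ) = s + 1 := by simp
    rw [this]
    simp [dm, Finset.prod_range_succ, Nat.factorial]
    ring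
  have e2 : (fun s : ℤ => 45 / 8 * ((N - (s : ℂ)) * (N - s - 1) * (N - s - 2)) * f s) =
      fun s : ℤ => (45 / 8) * ((N - (s : ℂ)) * (N - s - 1) * (N - s - 2) * f s) := by
    funext s
    ring
  have e2' : (fun s : ℤ => 5 / 8 * ((N - (s : ℂ)) * (N - s - 1) * (N - s - 2)) * f (s + 1)) =
      fun s : ℤ => (5 / 8) * ((N - (s : ℂ)) * (N - s - 1) * (N - s - 2) * f (s + 1)) := by
    funext s
    ring
  unfold tm
  rw [Finset.sum_range_succ, Finset.sum_range_succ, Finset.sum_range_succ, Finset.sum_range_one,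
    kap2.2.2.2.2.2.2.1, k30c.1, k30c.2.1, k30c.2.2.1, k30c.2.2.2, e1, e1', e2, e2', mu_const,
    mu_const, mu_const, mu_const]
  push_cast
  ring_nf

private theorem t03 : tm 2 N x π f 0 3 =
    (-1) ^ π * mu N x π (fun s => 45 / 8 * ((s : ℂ) * (s - 1) * (s - 2)) * f s) -
      (-1) ^ π * (9 * mu N x (π + 1)
        (fun s => 5 / 8 * ((s : ℂ) * (s - 1) * (s - 2)) * f (s - 1))) := by
  have h32 : ∀ g : ℤ → ℂ, mu N x (π + 3 + 2) g = mu N x (π + 1) g := fun g => by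
    rw [mu_two, show π + 3 = (π + 1) + 2 by ring, mu_two]
  have h33 : ∀ g : ℤ → ℂ, mu N x (π + 3 + 3) g = mu N x π g := fun g => by
    rw [show π + 3 + 3 = ((π + 2) + 2) + 2 by ring, mu_two, mu_two, mu_two]
  have e1 : (fun s : ℤ => dm N 0 3 s * f (s - (3 : ℕ) + (2 : ℕ))) =
      fun s : ℤ => (9 / 16) * ((s : ℂ) * (s - 1) * (s - 2) * f (s - 1)) := by
    funext s
    have : s - ((3 : ℕ) : ℤ) + ((2 : ℕ) : ℤ) = s - 1 := by push_cast; ring
    rw [this]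
    simp [dm, Finset.prod_range_succ, Nat.factorial]
    ring
  have e1' : (fun s : ℤ => dm N 0 3 s * f (s - (3 : ℕ) + (3 : ℕ))) =
      fun s : ℤ => (9 / 16) * ((s : ℂ) * (s - 1) * (s - 2) * f s) := by
    funext s
    have : s - ((3 : ℕ) : ℤ) + ((3 : ℕ) : ℤ) = s := by ring
    rw [this]
    simp [dm, Finset.prod_range_succ, Nat.factorial]
    ring
  have e2 : (fun s : ℤ => 45 / 8 * ((s : ℂ) * (s - 1) * (s - 2)) * f s) =
      fun s : ℤ => (45 / 8) * ((s : ℂ) * (s - 1) * (s - 2) * f s) := by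
    funext s
    ring
  have e2' : (fun s : ℤ => 5 / 8 * ((s : ℂ) * (s - 1) * (s - 2)) * f (s - 1)) =
      fun s : ℤ => (5 / 8) * ((s : ℂ) * (s - 1) * (s - 2) * f (s - 1)) := by
    funext s
    ring
  unfold tm
  rw [Finset.sum_range_succ, Finset.sum_range_succ, Finset.sum_range_succ, Finset.sum_range_one,
    kap2.2.2.2.2.2.2.2, k03c.1, k03c.2.1, k03c.2.2.1, k03c.2.2.2, e1, e1', e2, e2', mu_const,
    mu_const, mu_const, mu_const, h32, h33]
  push_cast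
  ring

variable {N x π f}

private theorem PO_r (O : ValuationSubring ℂ) (N : ℕ) (c : ℤ) :
    PO O (fun s => (N : ℂ) - s - c) := by
  have h := PO_add (PO_mul (PO_const (O := O) (((-1 : ℤ) : ℤ) : ℂ) (int_mem O (-1))) (PO_id (O := O)))
    (PO_const (O := O) ((((N : ℤ) - c : ℤ)) : ℂ) (int_mem O _))
  have e : (fun s : ℤ => (((-1 : ℤ) : ℤ) : ℂ) * (s : ℂ) + ((((N : ℤ) - c : ℤ)) : ℂ)) =
      fun s : ℤ => (N : ℂ) - s - c := by
    funext s
    push_cast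
    ring
  rwa [e] at h

private theorem PO_s (O : ValuationSubring ℂ) (c : ℤ) :
    PO O (fun s => (s : ℂ) - c) := by
  have h := PO_add (PO_id (O := O)) (PO_const (O := O) (((-c : ℤ)) : ℂ) (int_mem O _))
  have e : (fun s : ℤ => (s : ℂ) + (((-c : ℤ)) : ℂ)) = fun s : ℤ => (s : ℂ) - c := by
    funext s
    push_cast
    ring
  rwa [e] at h

private theorem PO_rat {O : ValuationSubring ℂ} (h3 : O.valuation 3 < 1) (a b : ℤ)
    (hb : ¬ (3 : ℤ) ∣ b) : PO O (fun _ => (a : ℂ) / (b : ℂ)) :=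
  PO_const _ (val_rat h3 a b hb)

private theorem PO_congr {O : ValuationSubring ℂ} {f g : ℤ → ℂ} (hf : PO O f)
    (h : ∀ s, f s = g s) : PO O g := by
  have : f = g := funext h
  rwa [this] at hf

theorem cong2 {O : ValuationSubring ℂ} (h3 : O.valuation 3 < 1) (N : ℕ) (lam : ℂ) (x : ℕ → ℂ)
    (h : Eg 2 N lam x) (hn : Nm O N x) :
    Cg O N x lam (2 + 3 * (N : ℂ) + 9 * ((N : ℂ) ^ 3 - (N : ℂ))) 1 := by
  intro π f hf
  obtain ⟨z, hz, hs⟩ := split_sum (O := O) (N + 4) (tm 2 N x π f) 27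
    {(0, 0), (1, 0), (0, 1), (2, 0), (1, 1), (0, 2), (3, 0), (0, 3)} (by
      intro p hp
      simp only [Finset.mem_insert, Finset.mem_singleton] at hp
      rcases hp with rfl | rfl | rfl | rfl | rfl | rfl | rfl | rfl <;>
        simp [Finset.mem_product]) (by
      intro m n hmn
      have h2 : 4 ≤ m + n ∨ (m = 2 ∧ n = 1) ∨ (m = 1 ∧ n = 2) := by
        by_contra hc
        apply hmn
        have : (m = 0 ∧ n = 0) ∨ (m = 1 ∧ n = 0) ∨ (m = 0 ∧ n = 1) ∨ (m = 2 ∧ n = 0) ∨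
          (m = 1 ∧ n = 1) ∨ (m = 0 ∧ n = 2) ∨ (m = 3 ∧ n = 0) ∨ (m = 0 ∧ n = 3) := by omega
        rcases this with ⟨rfl, rfl⟩ | ⟨rfl, rfl⟩ | ⟨rfl, rfl⟩ | ⟨rfl, rfl⟩ | ⟨rfl, rfl⟩ |
          ⟨rfl, rfl⟩ | ⟨rfl, rfl⟩ | ⟨rfl, rfl⟩ <;> simp
      obtain ⟨g, hg, hgs⟩ := dm27 h3 N m n h2
      exact tm_mem 2 N x hn π f hf m n 27 g hg hgs)
  -- the even part
  have hr0 := PO_r O N 0
  have hr1 := PO_r O N 1
  have hr2 := PO_r O N 2
  have hs0 := PO_s O 0
  have hs1 := PO_s O 1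
  have hs2 := PO_s O 2
  have c4 := PO_rat h3 1 4 (by norm_num)
  have c8 := PO_rat h3 (-1) 8 (by norm_num)
  have c5 := PO_rat h3 5 8 (by norm_num)
  have cN := PO_const (O := O) ((((-(N : ℤ)) : ℤ)) : ℂ) (int_mem O _)
  have cN' := PO_const (O := O) ((((N : ℤ)) : ℤ) : ℂ) (int_mem O _)
  have cm := PO_const (O := O) ((((-1 : ℤ)) : ℤ) : ℂ) (int_mem O _)
  have cs := PO_const (O := O) ((-1) ^ (π + 1)) (by
    rw [map_pow, Valuation.map_neg, map_one, one_pow])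
  have hfp := PO_shift hf 1
  have hfm := PO_shift hf (-1)
  obtain ⟨hh, hhP, hhs⟩ : ∃ hh : ℤ → ℂ, PO O hh ∧ ∀ s : ℤ, hh s =
      1 / 4 * ((N - (s : ℂ)) * (N - s - 1) + (s : ℂ) * (s - 1)) +
      (-(N : ℂ) * ((N - s) * s) - (N - s) * (N - s) - s * s + N) -
      1 / 8 * ((N - (s : ℂ)) * (N - s - 1) * (N - s - 2) + (s : ℂ) * (s - 1) * (s - 2)) := by
    refine ⟨_, ?_, fun s => rfl⟩
    refine PO_congr (PO_add (PO_add (PO_mul c4 (PO_add (PO_mul hr0 hr1) (PO_mul hs0 hs1)))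
      (PO_add (PO_add (PO_mul cN (PO_mul hr0 hs0)) (PO_mul cm (PO_add (PO_mul hr0 hr0)
        (PO_mul hs0 hs0)))) cN'))
      (PO_mul c8 (PO_add (PO_mul (PO_mul hr0 hr1) hr2) (PO_mul (PO_mul hs0 hs1) hs2)))) fun s => ?_
    push_cast
    ring
  obtain ⟨w, hwP, hws⟩ : ∃ w : ℤ → ℂ, PO O w ∧ ∀ s : ℤ, w s = (-1) ^ (π + 1) *
      ((1 / 4 * ((N - (s : ℂ)) * (N - s - 1)) * f (s + 1) +
        1 / 4 * ((s : ℂ) * (s - 1)) * f (s - 1)) +
      (5 / 8 * ((N - (s : ℂ)) * (N - s - 1) * (N - s - 2)) * f (s + 1) +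
        5 / 8 * ((s : ℂ) * (s - 1) * (s - 2)) * f (s - 1))) := by
    refine ⟨_, ?_, fun s => rfl⟩
    refine PO_congr (PO_mul cs (PO_add (PO_add (PO_mul (PO_mul c4 (PO_mul hr0 hr1)) hfp)
      (PO_mul (PO_mul c4 (PO_mul hs0 hs1)) hfm)) (PO_add
        (PO_mul (PO_mul c5 (PO_mul (PO_mul hr0 hr1) hr2)) hfp)
        (PO_mul (PO_mul c5 (PO_mul (PO_mul hs0 hs1) hs2)) hfm)))) fun s => ?_
    push_cast
    rw [sub_eq_add_neg s 1]
    ring
  refine ⟨w, z + (-1) ^ π * mu N x π (fun s => hh s * f s), hwP, add_mem hz (mul_mem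
    (pow_mem (neg_mem (one_mem _)) _) ((ValuationSubring.valuation_le_one_iff O _).1
      (hn.mem _ _ (PO_mul hhP hf)))), ?_⟩
  rw [star_ext 2 N lam x h π f, hs]
  rw [Finset.sum_insert (by decide), Finset.sum_insert (by decide), Finset.sum_insert (by decide),
    Finset.sum_insert (by decide), Finset.sum_insert (by decide), Finset.sum_insert (by decide),
    Finset.sum_insert (by decide), Finset.sum_singleton]
  simp only []
  rw [t00, t10, t01, t20, t11, t02, t30, t03]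
  have hw : w = fun s : ℤ => (-1) ^ (π + 1) *
      ((1 / 4 * ((N - (s : ℂ)) * (N - s - 1)) * f (s + 1) +
        1 / 4 * ((s : ℂ) * (s - 1)) * f (s - 1)) +
      (5 / 8 * ((N - (s : ℂ)) * (N - s - 1) * (N - s - 2)) * f (s + 1) +
        5 / 8 * ((s : ℂ) * (s - 1) * (s - 2)) * f (s - 1))) := funext hws
  have hodd : mu N x (π + 1) w = (-1) ^ (π + 1) *
      (mu N x (π + 1) (fun s => 1 / 4 * ((N - (s : ℂ)) * (N - s - 1)) * f (s + 1)) +
        mu N x (π + 1) (fun s => 1 / 4 * ((s : ℂ) * (s - 1)) * f (s - 1)) +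
        (mu N x (π + 1) (fun s => 5 / 8 * ((N - (s : ℂ)) * (N - s - 1) * (N - s - 2)) * f (s + 1)) +
        mu N x (π + 1) (fun s => 5 / 8 * ((s : ℂ) * (s - 1) * (s - 2)) * f (s - 1)))) := by
    rw [hw, mu_const, mu_plus, mu_plus, mu_plus]
  have hev : mu N x π (fun s => (2 + 3 * (N : ℂ) + 9 * ((N : ℂ) ^ 3 - (N : ℂ)) +
      9 * 1 * ((s : ℂ) ^ 2 - (N : ℂ) * (s : ℂ))) * f s) + 27 * mu N x π (fun s => hh s * f s) =
      mu N x π (fun s => 2 * f s) + mu N x π (fun s => 3 * (N - (s : ℂ)) * f s) +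
      mu N x π (fun s => 3 * (s : ℂ) * f s) +
      mu N x π (fun s => 27 / 4 * ((N - (s : ℂ)) * (N - s - 1)) * f s) +
      mu N x π (fun s => -9 * ((N - (s : ℂ)) * s) * f s) +
      mu N x π (fun s => 27 / 4 * ((s : ℂ) * (s - 1)) * f s) +
      mu N x π (fun s => 45 / 8 * ((N - (s : ℂ)) * (N - s - 1) * (N - s - 2)) * f s) +
      mu N x π (fun s => 45 / 8 * ((s : ℂ) * (s - 1) * (s - 2)) * f s) := by
    rw [← mu_const, ← mu_plus, ← mu_plus, ← mu_plus, ← mu_plus, ← mu_plus, ← mu_plus, ← mu_plus,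
      ← mu_plus]
    congr 1
    funext s
    rw [hhs]
    ring
  have hps : ((-1 : ℂ)) ^ (π + 1) = -(-1) ^ π := by
    rw [pow_succ]
    ring
  rw [hodd, hps]
  linear_combination (-(-1 : ℂ) ^ π) * hev

end Pool.Agent.Lib.MP_06b9d2_ssp
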