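import Pool.Agent.Lib.L1.Span

/-!
MP_06b9d2_nt (Maeda's conjecture for `T_2`), board SSP: for every even `k` the Hecke operator `T_2` on `S_k`
has a simple spectrum. Definitions.

`a`, `c` are power series over `ℂ` (level three functions), `β = a ^ 3 - 27 c`, `γ = 27 c`; the forms of
weight `k = 3 N + e` are the combinations of `a ^ e β ^ (N - s) γ ^ s`, `s ≤ N`.
-/

namespace Pool.Agent.Lib.MP_06b9d2_ssp

open PowerSeries Pool.Agent.L1

/-- `f(q ^ 2)` -/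
noncomputable def V2 : ℂ⟦X⟧ →ₐ[ℂ] ℂ⟦X⟧ := PowerSeries.expand 2 two_ne_zero

/-- the operator `U_2` -/
noncomputable def U2 (f : ℂ⟦X⟧) : ℂ⟦X⟧ := PowerSeries.mk fun n => PowerSeries.coeff (2 * n) f

/-- the Hecke operator `T_2` in weight `k` on power series -/
noncomputable def Tq (k : ℕ) (f : ℂ⟦X⟧) : ℂ⟦X⟧ := U2 f + ((2 : ℂ) ^ k / 2) • V2 f

/-- `E_4` and `E_6` in terms of the level three functions `a`, `c` -/
structure Lv (a c : ℂ⟦X⟧) : Prop where
  ca : constantCoeff a = 1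
  h4 : e4 ℂ = a * (a ^ 3 + 216 * c)
  h6 : e6 ℂ = a ^ 6 - 540 * a ^ 3 * c - 5832 * c ^ 2

/-- the form `a ^ e β ^ (N - s) γ ^ s` of weight `3 N + e` -/
noncomputable def mo (a c : ℂ⟦X⟧) (e N s : ℕ) : ℂ⟦X⟧ :=
  a ^ e * (a ^ 3 - 27 * c) ^ (N - s) * (27 * c) ^ s

/-- triples `(x, y, z)` of polynomials in `t = γ / β`, representing `x + y θ + z θ'` (with `β = 1`) -/
abbrev T3 : Type := Polynomial ℤ × Polynomial ℤ × Polynomial ℤ

/-- multiplication by `θ` -/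
noncomputable def th (v : T3) : T3 :=
  (2 * (1 + Polynomial.X) * v.2.1, v.1 - v.2.1 - Polynomial.X * v.2.2, v.2.2 - v.2.1)

/-- multiplication by `θ'` -/
noncomputable def th' (v : T3) : T3 :=
  (2 * (1 + Polynomial.X) * Polynomial.X * v.2.2, Polynomial.X * v.2.2 - Polynomial.X * v.2.1,
    v.1 + v.2.1 + Polynomial.X * v.2.2)

/-- the monomials `θ ^ m θ' ^ n` -/
noncomputable def K (m n : ℕ) : T3 := th^[m] (th'^[n] (1, 0, 0))

/-- the functional `c_e` (a third of the trace of `a ^ e` times the element, divided by `A ^ e`) -/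
noncomputable def ce (e : ℕ) (v : T3) : Polynomial ℤ :=
  if e = 0 then v.1
  else if e = 1 then 2 * (v.2.1 + Polynomial.X * v.2.2)
  else 2 * (v.1 - v.2.1 + Polynomial.X * v.2.2)

/-- the polynomials `c_e(θ ^ m θ' ^ n)` -/
noncomputable def kap (e m n : ℕ) : Polynomial ℤ := ce e (K m n)

/-- the matrix of `T_2` divided by `3 / 2 * (-2) ^ N` on the basis `a ^ e β ^ (N - s) γ ^ s` -/
noncomputable def Mt (e N j s : ℕ) : ℂ :=
  ∑ m ∈ Finset.range (N + 1), ∑ n ∈ Finset.range (N + 1),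
    if s ≤ j + n then
      (-1) ^ s * ((N - s).choose m : ℂ) * (s.choose n : ℂ) * (-(3 / 2)) ^ m * (3 / 2) ^ n *
        (((kap e m n).coeff (j + n - s) : ℤ) : ℂ)
    else 0

/-- `x` is an eigenvector of `Mt` -/
def Eg (e N : ℕ) (lam : ℂ) (x : ℕ → ℂ) : Prop :=
  ∀ j ≤ N, ∑ s ∈ Finset.range (N + 1), Mt e N j s * x s = lam * x j

/-- three elements with the sum `0` and the second elementary symmetric function `-3 A ^ 2` -/
structure Tri {R : Type*} [CommRing R] (A : R) (x : Fin 3 → R) : Prop where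
  s1 : x 0 + x 1 + x 2 = 0
  s2 : x 0 * x 1 + x 0 * x 2 + x 1 * x 2 = -3 * A ^ 2

/-- the homogeneous polynomial `∑ p_l B ^ (d - l) G ^ l` -/
noncomputable def hv {R : Type*} [CommRing R] (B G : R) (d : ℕ) (p : Polynomial ℤ) : R :=
  ∑ l ∈ Finset.range (d + 1), (p.coeff l : R) * B ^ (d - l) * G ^ l

/-- `∑ x_s f(s)` over the `s ≤ N` with `s ≡ π` modulo `2` -/
noncomputable def mu (N : ℕ) (x : ℕ → ℂ) (π : ℕ) (f : ℤ → ℂ) : ℂ :=
  ∑ s ∈ (Finset.range (N + 1)).filter (fun s => s % 2 = π % 2), x s * f s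

/-- the function `(-3/2) ^ m (3/2) ^ n C(N - s, m) C(s, n)` -/
noncomputable def dm (N m n : ℕ) (s : ℤ) : ℂ :=
  (-(3 / 2)) ^ m * (3 / 2) ^ n / ((m.factorial : ℂ) * (n.factorial : ℂ)) *
    ((∏ i ∈ Finset.range m, ((N : ℂ) - (s : ℂ) - (i : ℂ))) *
      ∏ i ∈ Finset.range n, ((s : ℂ) - (i : ℂ)))

/-- polynomial functions with coefficients in `O` -/
def PO (O : ValuationSubring ℂ) (f : ℤ → ℂ) : Prop :=
  ∃ p : Polynomial O, ∀ s : ℤ, f s = Polynomial.aeval (s : ℂ) p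

/-- normalized vectors: all `mu N x π f`, `f` a polynomial function over `O`, are in `O`, and one of them
is a unit -/
structure Nm (O : ValuationSubring ℂ) (N : ℕ) (x : ℕ → ℂ) : Prop where
  mem : ∀ (π : ℕ) (f : ℤ → ℂ), PO O f → O.valuation (mu N x π f) ≤ 1
  unit : ∃ π n : ℕ, O.valuation (mu N x π fun s => (s : ℂ) ^ n) = 1

/-- the congruence modulo `27` (used for `e = 0` and `e = 2`) -/
def Cg (O : ValuationSubring ℂ) (N : ℕ) (x : ℕ → ℂ) (lam d t : ℂ) : Prop :=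
  ∀ (π : ℕ) (f : ℤ → ℂ), PO O f → ∃ (w : ℤ → ℂ) (z : ℂ), PO O w ∧ z ∈ O ∧
    lam * mu N x π f =
      (-1) ^ π * mu N x π (fun s => (d + 9 * t * ((s : ℂ) ^ 2 - (N : ℂ) * (s : ℂ))) * f s) +
        9 * mu N x (π + 1) w + 27 * z

/-- the congruence modulo `9` (used for `e = 1`) -/
def Cg1 (O : ValuationSubring ℂ) (N : ℕ) (x : ℕ → ℂ) (lam : ℂ) : Prop :=
  ∀ (π : ℕ) (f : ℤ → ℂ), PO O f → ∃ z : ℂ, z ∈ O ∧
    lam * mu N x π f =
      (-1) ^ π * mu N x π (fun s => 3 * (2 * (s : ℂ) - (N : ℂ)) * f s) + 9 * z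

end Pool.Agent.Lib.MP_06b9d2_ssp
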