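import Pool.Agent.Lib.MP_06b9d2_ssp.TF

/-!
Module SSP-Sym. The symmetry of `Mt`.

`tri_ex` for `lv_ex`: `A = V2 a`, `B = V2 (a ^ 3 - 27 c)`, `G = V2 (27 c)`, `x`, `b`, `g`. `tri_sum` for `(A, B, G, x, b, g)` and `N - s`:
`∑ x_i ^ e b_i ^ s g_i ^ (N - s) = (3 (-2) ^ N) • ∑_j Mt e N j (N - s) • (A ^ e B ^ (N - j) G ^ j)`.
The data `(-A, -G, -B, x, g, b)` also satisfy the hypotheses of `tri_sum` (`Tri` only contains `A ^ 2`;
`4 (-G) = 2 (-A) ^ 3 - p`, `4 (-B) = 2 (-A) ^ 3 + p`; `2 g_i = (x_i + (-A)) (x_i - 2 (-A)) ^ 2`, ...), for `s`: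
`∑ x_i ^ e g_i ^ (N - s) b_i ^ s = (3 (-2) ^ N) • ∑_j Mt e N j s • ((-A) ^ e (-G) ^ (N - j) (-B) ^ j)`, and
`(-A) ^ e (-G) ^ (N - j) (-B) ^ j = (-1) ^ (e + N) A ^ e G ^ (N - j) B ^ j = A ^ e G ^ (N - j) B ^ j`. So, replacing `j` by
`N - j` in the second sum (`Finset.sum_range_reflect`),
`∑_j (Mt e N j (N - s) - Mt e N (N - j) s) • (A ^ e B ^ (N - j) G ^ j) = 0`, which is `V2` of
`∑_j (...) • mo a c e N j`; `V2_inj` and `ind`. (Replace `s` by `N - s` for the form below.)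
-/

namespace Pool.Agent.Lib.MP_06b9d2_ssp

open PowerSeries Pool.Agent.L1

private lemma sym_aux (e N s : ℕ) (he : e ≤ 2) (hev : Even (N + e)) (hs : s ≤ N) :
    ∀ j ≤ N, Mt e N j (N - s) = Mt e N (N - j) s := by
  obtain ⟨a, c, h⟩ := lv_ex
  obtain ⟨x, b, g, ht, hB, hG, hb, hg⟩ := tri_ex h
  set A : ℂ⟦X⟧ := V2 a with hA
  set B : ℂ⟦X⟧ := V2 (a ^ 3 - 27 * c) with hBd
  set G : ℂ⟦X⟧ := V2 (27 * c) with hGd
  have h1 := tri_sum ht hB hG hb hg e N (N - s) he (Nat.sub_le _ _)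
  have ht' : Tri (-A) x := ⟨ht.s1, by rw [ht.s2]; ring⟩
  have hB' : 4 * (-G) = 2 * (-A) ^ 3 - x 0 * x 1 * x 2 := by linear_combination (-1 : ℂ⟦X⟧) * hG
  have hG' : 4 * (-B) = 2 * (-A) ^ 3 + x 0 * x 1 * x 2 := by linear_combination (-1 : ℂ⟦X⟧) * hB
  have hb' : ∀ i, 2 * g i = (x i + (-A)) * (x i - 2 * (-A)) ^ 2 := by
    intro i
    rw [hg i]
    ring
  have hg' : ∀ i, 2 * b i = (x i - (-A)) * (x i + 2 * (-A)) ^ 2 := by
    intro i
    rw [hb i]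
    ring
  have h2 := tri_sum ht' hB' hG' hb' hg' e N s he hs
  have hl : ∑ i, x i ^ e * b i ^ (N - (N - s)) * g i ^ (N - s) =
      ∑ i, x i ^ e * g i ^ (N - s) * b i ^ s := by
    refine Finset.sum_congr rfl fun i _ => ?_
    rw [Nat.sub_sub_self hs]
    ring
  rw [h1, h2] at hl
  have hne : (3 * (-2) ^ N : ℂ) ≠ 0 := by
    refine mul_ne_zero three_ne_zero (pow_ne_zero _ ?_)
    norm_num
  have h3 := smul_right_injective (ℂ⟦X⟧) hne hl
  rw [← Finset.sum_range_reflect (fun j => Mt e N j s • ((-A) ^ e * (-G) ^ (N - j) * (-B) ^ j))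
    (N + 1)] at h3
  have h4 : ∀ j ∈ Finset.range (N + 1), Mt e N (N + 1 - 1 - j) s •
      ((-A) ^ e * (-G) ^ (N - (N + 1 - 1 - j)) * (-B) ^ (N + 1 - 1 - j)) =
      Mt e N (N - j) s • (A ^ e * B ^ (N - j) * G ^ j) := by
    intro j hj
    have hj' : j ≤ N := Nat.lt_succ_iff.1 (Finset.mem_range.1 hj)
    rw [Nat.add_sub_cancel, Nat.sub_sub_self hj']
    congr 1
    have hsgn : (-1 : ℂ⟦X⟧) ^ e * (-1) ^ j * (-1) ^ (N - j) = 1 := by
      rw [← pow_add, ← pow_add]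
      have : e + j + (N - j) = N + e := by omega
      rw [this]
      exact hev.neg_one_pow
    calc (-A) ^ e * (-G) ^ j * (-B) ^ (N - j)
        = ((-1) ^ e * (-1) ^ j * (-1) ^ (N - j)) * (A ^ e * B ^ (N - j) * G ^ j) := by
          rw [neg_pow A, neg_pow G, neg_pow B]
          ring
      _ = A ^ e * B ^ (N - j) * G ^ j := by rw [hsgn, one_mul]
  rw [Finset.sum_congr rfl h4] at h3
  have hmo : ∀ j, V2 (mo a c e N j) = A ^ e * B ^ (N - j) * G ^ j := by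
    intro j
    unfold mo
    rw [map_mul, map_mul, map_pow, map_pow, map_pow]
  have h5 : ∑ j ∈ Finset.range (N + 1), (Mt e N j (N - s) - Mt e N (N - j) s) •
      mo a c e N j = 0 := by
    refine V2_inj ?_
    rw [map_zero, map_sum]
    have h6 : ∀ j ∈ Finset.range (N + 1), V2 ((Mt e N j (N - s) - Mt e N (N - j) s) •
        mo a c e N j) = Mt e N j (N - s) • (A ^ e * B ^ (N - j) * G ^ j) -
        Mt e N (N - j) s • (A ^ e * B ^ (N - j) * G ^ j) := by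
      intro j _
      rw [map_smul, hmo, sub_smul]
    rw [Finset.sum_congr rfl h6, Finset.sum_sub_distrib, sub_eq_zero]
    exact h3
  intro j hj
  exact sub_eq_zero.1 (ind h e N (fun j => Mt e N j (N - s) - Mt e N (N - j) s) h5 j hj)

theorem Mt_sym (e N j s : ℕ) (he : e ≤ 2) (hev : Even (N + e)) (hj : j ≤ N) (hs : s ≤ N) :
    Mt e N (N - j) (N - s) = Mt e N j s := by
  have h := sym_aux e N (N - s) he hev (Nat.sub_le _ _) j hj
  rw [Nat.sub_sub_self hs] at h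
  exact h.symm

end Pool.Agent.Lib.MP_06b9d2_ssp
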