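import Pool.Agent.Lib.MP_06b9d2_ssp.Two
import Pool.Agent.Lib.MP_06b9d2_ssp.Sym
import Pool.Agent.Lib.MP_06b9d2_ssp.Rep
import Pool.Agent.Lib.MP_06b9d2_nt.MU.Mtx

/-!
Module SSP-Eig. The eigenspaces of `T_2` on cusp forms have dimension at most one.

`k` even, `N = k / 3`, `e = k % 3`: `k = 3 N + e`, `N + e` is even. `Phi_ex k` (`MU/Mtx.lean`): `Φ : CuspForm 𝒮ℒ k ≃ (Fin (dd k - 1) → ℂ)`,
`qExpansion 1 f = ∑_j Φ f j • bas ℂ k (j + 1)`. `rep` (with `choose`): vectors `y_{j + 1}`; for `f` let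
`x_f(s) = ∑_j Φ f j * y_{j + 1} s`, linear in `f`; `qExpansion 1 f = ∑_{s ≤ N} x_f(s) • mo a c e N s`, `x_f(s) = 0` for `s > N`.
`hecke_q` (`MD/HeckeQ.lean`): `qExpansion 1 (T f) = Tq k (qExpansion 1 f)` for `k ≥ 1` (`2 ^ (k - 1) = 2 ^ k / 2`); `k = 0`: there are no cusp
forms (`dd 0 - 1 = 0`). If `T f = lam f`: by `T_mo` and the linearity of `Tq` and `ind`: `(3 / 2 (-2) ^ N) ∑_s Mt e N j s x_f(s) = lam x_f(j)`, `j ≤ N`:
`Eg e N lam' x_f` with `lam' = lam / (3 / 2 (-2) ^ N)`. The reversed vector `x'_f(s) = x_f(N - s)` for `s ≤ N` (and `0` for `s > N`) is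
also an eigenvector: `Mt_sym` (`Finset.sum_range_reflect`). With `L` from `two e N lam'`, the linear map
`ker (T - lam) × ker (T - lam) → Fin 2 → ℂ`, `(f, g) ↦ L (x_f + x'_g)` is injective: `x_f + x'_g` is an eigenvector with
support in `s ≤ N`, so `x_f + x'_g = 0`. Suppose `f ≠ 0`; let `p` be the least index `≥ 1` with `Φ f (p - 1) ≠ 0`: `x_f(s) = 0` for `s < p`,
`x_f(p) ≠ 0`, `x_f(s) = 0` for `s > N - 3 p` (`rep`; monotonicity in `j`). `x_f(s) = - x_g(N - s)` for `s ≤ N`; so `g ≠ 0`, let `q` be its index. `x_g(N - p) ≠ 0` gives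
`N - p ≤ N - 3 q`, so `3 q ≤ p`; `x_f(N - q) = - x_g(q) ≠ 0` gives `3 p ≤ q`; so `p = 0`, contradiction. If `f = 0` then `x_g = 0` and `g = 0`.
Hence `2 dim ker (T - lam) ≤ 2` (`LinearMap.finrank_le_finrank_of_injective`, `Module.finrank_prod`).
-/

namespace Pool.Agent.Lib.MP_06b9d2_ssp

open PowerSeries Pool.Agent.L1 UpperHalfPlane Pool.Agent.Lib.MP_06b9d2_nt
open Pool.Agent.Lib.MP_06b9d2_nt.MU (Phi_ex)
open scoped MatrixGroups ModularForm

/-- the reversed vector -/
private noncomputable def Rv (N : ℕ) : (ℕ → ℂ) →ₗ[ℂ] (ℕ → ℂ) where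
  toFun x := fun s => if s ≤ N then x (N - s) else 0
  map_add' x y := by
    funext s
    by_cases hs : s ≤ N
    · simp [hs]
    · simp [hs]
  map_smul' r x := by
    funext s
    by_cases hs : s ≤ N
    · simp [hs]
    · simp [hs]

private theorem Rv_le {N s : ℕ} (x : ℕ → ℂ) (hs : s ≤ N) : Rv N x s = x (N - s) := by
  show (if s ≤ N then x (N - s) else 0) = _
  rw [if_pos hs]

private theorem Rv_gt {N s : ℕ} (x : ℕ → ℂ) (hs : N < s) : Rv N x s = 0 := by
  show (if s ≤ N then x (N - s) else 0) = _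
  rw [if_neg (by omega)]

private theorem Eg_add {e N : ℕ} {lam : ℂ} {x y : ℕ → ℂ} (hx : Eg e N lam x) (hy : Eg e N lam y) :
    Eg e N lam (x + y) := by
  intro j hj
  have h1 := hx j hj
  have h2 := hy j hj
  calc ∑ s ∈ Finset.range (N + 1), Mt e N j s * (x + y) s
      = ∑ s ∈ Finset.range (N + 1), Mt e N j s * x s +
        ∑ s ∈ Finset.range (N + 1), Mt e N j s * y s := by
        rw [← Finset.sum_add_distrib]
        refine Finset.sum_congr rfl fun s _ => ?_
        rw [Pi.add_apply, mul_add]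
    _ = lam * (x + y) j := by
        rw [h1, h2, Pi.add_apply, mul_add]

private theorem Eg_rev {e N : ℕ} {lam : ℂ} {x : ℕ → ℂ} (he : e ≤ 2) (hev : Even (N + e))
    (hx : Eg e N lam x) : Eg e N lam (Rv N x) := by
  intro j hj
  have h1 := hx (N - j) (Nat.sub_le _ _)
  rw [Rv_le x hj, ← h1, ← Finset.sum_range_reflect]
  refine Finset.sum_congr rfl fun s hs => ?_
  have hs' : s ≤ N := Nat.lt_succ_iff.mp (Finset.mem_range.mp hs)
  have e1 : N + 1 - 1 - s = N - s := by omega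
  rw [e1, Rv_le x (Nat.sub_le _ _), Nat.sub_sub_self hs']
  have := Mt_sym e N (N - j) s he hev (Nat.sub_le _ _) hs'
  rw [Nat.sub_sub_self hj] at this
  rw [this]

private theorem q_T (k : ℕ) (T : CuspForm 𝒮ℒ (k : ℤ) →ₗ[ℂ] CuspForm 𝒮ℒ (k : ℤ))
    (hT : IsHecke (k : ℤ) 2 T) (f : CuspForm 𝒮ℒ (k : ℤ)) :
    qExpansion 1 (T f) = Tq k (qExpansion 1 f) := by
  ext m
  rw [hecke_q hT f m]
  unfold Tq
  rw [map_add, map_smul]
  have h1 : coeff m (U2 (qExpansion 1 f)) = (qExpansion 1 f).coeff (2 * m) := by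
    unfold U2
    rw [coeff_mk]
  have h2 : coeff m (V2 (qExpansion 1 f)) =
      (if 2 ∣ m then (qExpansion 1 f).coeff (m / 2) else 0) := by
    unfold V2
    rw [coeff_expand]
  rw [h1, h2, smul_eq_mul, zpow_sub_one₀ (by norm_num : (2 : ℂ) ≠ 0), zpow_natCast, div_eq_mul_inv]

private theorem Tq_sum (k n : ℕ) (x : ℕ → ℂ) (m : ℕ → ℂ⟦X⟧) :
    Tq k (∑ s ∈ Finset.range n, x s • m s) = ∑ s ∈ Finset.range n, x s • Tq k (m s) := by
  have hU : ∀ (r : ℂ) (f : ℂ⟦X⟧), U2 (r • f) = r • U2 f := by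
    intro r f
    ext i
    simp [U2]
  have hA : ∀ (f g : ℂ⟦X⟧), U2 (f + g) = U2 f + U2 g := by
    intro f g
    ext i
    simp [U2]
  have h0 : U2 (0 : ℂ⟦X⟧) = 0 := by
    ext i
    simp [U2]
  induction n with
  | zero => simp [Tq, h0]
  | succ n ih =>
    rw [Finset.sum_range_succ, Finset.sum_range_succ, ← ih]
    unfold Tq
    rw [hA, hU, map_add, map_smul]
    module

theorem ker_le (k : ℕ) (hk : Even k) (T : CuspForm 𝒮ℒ (k : ℤ) →ₗ[ℂ] CuspForm 𝒮ℒ (k : ℤ))
    (hT : IsHecke (k : ℤ) 2 T) (lam : ℂ) :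
    Module.finrank ℂ (LinearMap.ker (T - lam • LinearMap.id)) ≤ 1 := by
  obtain ⟨a, c, h⟩ := lv_ex
  obtain ⟨Φ, hΦb, hΦ⟩ := Phi_ex k
  obtain ⟨N, hN⟩ : ∃ N, N = k / 3 := ⟨_, rfl⟩
  obtain ⟨e, he⟩ : ∃ e, e = k % 3 := ⟨_, rfl⟩
  have hk3 : 3 * N + e = k := by omega
  have he2 : e ≤ 2 := by omega
  have hev : Even (N + e) := by
    rw [Nat.even_iff] at hk ⊢
    omega
  have hrep : ∀ j : Fin (dd k - 1), ∃ y : ℕ → ℂ,
      (∀ s, s < (j : ℕ) + 1 → y s = 0) ∧ y ((j : ℕ) + 1) ≠ 0 ∧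
      (∀ s, N - 3 * ((j : ℕ) + 1) < s → y s = 0) ∧ 4 * ((j : ℕ) + 1) ≤ N ∧
      bas ℂ k ((j : ℕ) + 1) = ∑ s ∈ Finset.range (N + 1), y s • mo a c e N s := by
    intro j
    have := rep h k ((j : ℕ) + 1) (by have := j.2; omega)
    rw [hN, he]
    exact this
  choose y hy1 hy2 hy3 hy4 hy5 using hrep
  -- the coordinate map
  let X : CuspForm 𝒮ℒ (k : ℤ) →ₗ[ℂ] (ℕ → ℂ) :=
    ∑ j : Fin (dd k - 1), ((LinearMap.proj j : (Fin (dd k - 1) → ℂ) →ₗ[ℂ] ℂ) ∘ₗ Φ).smulRight (y j)
  have hXs : ∀ f s, X f s = ∑ j, Φ f j * y j s := by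
    intro f s
    simp only [X, LinearMap.sum_apply, LinearMap.smulRight_apply, LinearMap.comp_apply,
      LinearMap.proj_apply, Finset.sum_apply, Pi.smul_apply, smul_eq_mul]
  have hXq : ∀ f : CuspForm 𝒮ℒ (k : ℤ), qExpansion 1 f = ∑ s ∈ Finset.range (N + 1), X f s • mo a c e N s := by
    intro f
    rw [hΦ f]
    calc ∑ j, Φ f j • bas ℂ k ((j : ℕ) + 1)
        = ∑ j, ∑ s ∈ Finset.range (N + 1), (Φ f j * y j s) • mo a c e N s := by
          refine Finset.sum_congr rfl fun j _ => ?_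
          rw [hy5 j, Finset.smul_sum]
          refine Finset.sum_congr rfl fun s _ => ?_
          rw [smul_smul]
      _ = ∑ s ∈ Finset.range (N + 1), X f s • mo a c e N s := by
          rw [Finset.sum_comm]
          refine Finset.sum_congr rfl fun s _ => ?_
          rw [hXs, Finset.sum_smul]
  have hX0 : ∀ f s, N < s → X f s = 0 := by
    intro f s hs
    rw [hXs]
    refine Finset.sum_eq_zero fun j _ => ?_
    rw [hy3 j s (by omega), mul_zero]
  have lead : ∀ f, f ≠ 0 → ∃ p, 1 ≤ p ∧ 4 * p ≤ N ∧ (∀ s, s < p → X f s = 0) ∧ X f p ≠ 0 ∧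
      ∀ s, N - 3 * p < s → X f s = 0 := by
    intro f hf
    have hne : Φ f ≠ 0 := by
      intro h0
      apply hf
      apply hΦb.1
      rw [h0, map_zero]
    have hS : (Finset.univ.filter fun j : Fin (dd k - 1) => Φ f j ≠ 0).Nonempty := by
      by_contra hS
      rw [Finset.not_nonempty_iff_eq_empty] at hS
      apply hne
      funext j
      by_contra hj
      have : j ∈ (Finset.univ.filter fun j : Fin (dd k - 1) => Φ f j ≠ 0) := by
        simp only [Finset.mem_filter, Finset.mem_univ, true_and]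
        exact hj
      rw [hS] at this
      simp at this
    obtain ⟨j0, hj0, hmin⟩ := Finset.exists_min_image _ (fun j : Fin (dd k - 1) => (j : ℕ)) hS
    have hj0' : Φ f j0 ≠ 0 := by simpa using hj0
    have hlt : ∀ j : Fin (dd k - 1), (j : ℕ) < j0 → Φ f j = 0 := by
      intro j hj
      by_contra hj'
      have := hmin j (by simpa using hj')
      omega
    refine ⟨(j0 : ℕ) + 1, by omega, hy4 j0, ?_, ?_, ?_⟩
    · intro s hs
      rw [hXs]
      refine Finset.sum_eq_zero fun j _ => ?_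
      rcases lt_or_ge (j : ℕ) (j0 : ℕ) with hj | hj
      · rw [hlt j hj, zero_mul]
      · rw [hy1 j s (by omega), mul_zero]
    · rw [hXs, Finset.sum_eq_single j0]
      · exact mul_ne_zero hj0' (hy2 j0)
      · intro j _ hj
        rcases lt_or_ge (j : ℕ) (j0 : ℕ) with hj1 | hj1
        · rw [hlt j hj1, zero_mul]
        · have : (j : ℕ) ≠ j0 := fun hh => hj (Fin.ext hh)
          rw [hy1 j _ (by omega), mul_zero]
      · intro hj
        exact absurd (Finset.mem_univ _) hj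
    · intro s hs
      rw [hXs]
      refine Finset.sum_eq_zero fun j _ => ?_
      rcases lt_or_ge (j : ℕ) (j0 : ℕ) with hj | hj
      · rw [hlt j hj, zero_mul]
      · rw [hy3 j s (by omega), mul_zero]
  -- eigenvectors
  have hκ : (3 / 2 * (-2) ^ N : ℂ) ≠ 0 :=
    mul_ne_zero (by norm_num) (pow_ne_zero _ (by norm_num))
  have hEg : ∀ f, T f = lam • f → Eg e N (lam / (3 / 2 * (-2) ^ N)) (X f) := by
    intro f hf
    have h1 : Tq k (qExpansion 1 f) = lam • qExpansion 1 f := by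
      rw [← q_T k T hT f, hf, hΦ (lam • f), hΦ f, map_smul, Finset.smul_sum]
      refine Finset.sum_congr rfl fun j _ => ?_
      rw [Pi.smul_apply, smul_eq_mul, mul_smul]
    rw [hXq f, Tq_sum] at h1
    have h2 : ∑ s ∈ Finset.range (N + 1), X f s • Tq k (mo a c e N s) =
        ∑ j ∈ Finset.range (N + 1), ((3 / 2 * (-2) ^ N : ℂ) *
          ∑ s ∈ Finset.range (N + 1), Mt e N j s * X f s) • mo a c e N j := by
      calc ∑ s ∈ Finset.range (N + 1), X f s • Tq k (mo a c e N s)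
          = ∑ s ∈ Finset.range (N + 1), ∑ j ∈ Finset.range (N + 1),
              ((3 / 2 * (-2) ^ N : ℂ) * (Mt e N j s * X f s)) • mo a c e N j := by
            refine Finset.sum_congr rfl fun s hs => ?_
            have hs' : s ≤ N := Nat.lt_succ_iff.mp (Finset.mem_range.mp hs)
            have hTm := T_mo h e N s he2 hev hs'
            rw [hk3] at hTm
            rw [hTm, smul_smul, Finset.smul_sum]
            refine Finset.sum_congr rfl fun j _ => ?_
            rw [smul_smul]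
            congr 1
            ring
        _ = _ := by
            rw [Finset.sum_comm]
            refine Finset.sum_congr rfl fun j _ => ?_
            rw [← Finset.sum_smul, Finset.mul_sum]
    rw [h2] at h1
    have h3 : ∑ j ∈ Finset.range (N + 1), (((3 / 2 * (-2) ^ N : ℂ) *
          ∑ s ∈ Finset.range (N + 1), Mt e N j s * X f s) - lam * X f j) • mo a c e N j = 0 := by
      simp only [sub_smul]
      rw [Finset.sum_sub_distrib, h1, Finset.smul_sum, ← Finset.sum_sub_distrib]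
      refine Finset.sum_eq_zero fun j _ => ?_
      rw [smul_smul, sub_self]
    have h4 := ind h e N _ h3
    intro j hj
    have h5 := h4 j hj
    have h6 : (3 / 2 * (-2) ^ N : ℂ) * ∑ s ∈ Finset.range (N + 1), Mt e N j s * X f s =
        lam * X f j := sub_eq_zero.mp h5
    rw [div_mul_eq_mul_div, eq_div_iff hκ, mul_comm, h6]
  obtain ⟨L, hL⟩ := two e N he2 (lam / (3 / 2 * (-2) ^ N))
  have hker : ∀ f : LinearMap.ker (T - lam • LinearMap.id), T f.1 = lam • f.1 := by
    intro f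
    have := LinearMap.mem_ker.mp f.2
    rw [LinearMap.sub_apply, LinearMap.smul_apply, LinearMap.id_apply] at this
    exact sub_eq_zero.mp this
  let ι := (LinearMap.ker (T - lam • (LinearMap.id : CuspForm 𝒮ℒ (k : ℤ) →ₗ[ℂ] _))).subtype
  let Ψ := L ∘ₗ ((X ∘ₗ ι).coprod (Rv N ∘ₗ X ∘ₗ ι))
  have hΨ : Function.Injective Ψ := by
    rw [← LinearMap.ker_eq_bot, LinearMap.ker_eq_bot']
    rintro ⟨f, g⟩ hfg
    have h1 : L (X f.1 + Rv N (X g.1)) = 0 := hfg
    have h2 : X f.1 + Rv N (X g.1) = 0 := by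
      refine hL _ (Eg_add (hEg _ (hker f)) (Eg_rev he2 hev (hEg _ (hker g)))) ?_ h1
      intro s hs
      rw [Pi.add_apply, hX0 _ s hs, Rv_gt _ hs, add_zero]
    have h3 : ∀ s, s ≤ N → X f.1 s + X g.1 (N - s) = 0 := by
      intro s hs
      have := congrFun h2 s
      rw [Pi.add_apply, Rv_le _ hs] at this
      exact this
    have hf0 : f.1 = 0 := by
      by_contra hf
      obtain ⟨p, hp1, hp2, hp3, hp4, hp5⟩ := lead _ hf
      have hg : g.1 ≠ 0 := by
        intro hg
        have := h3 p (by omega)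
        rw [hg, map_zero, Pi.zero_apply, add_zero] at this
        exact hp4 this
      obtain ⟨q, hq1, hq2, hq3, hq4, hq5⟩ := lead _ hg
      have a1 : ¬ (N - 3 * q < N - p) := by
        intro hh
        have := h3 p (by omega)
        rw [hq5 _ hh, add_zero] at this
        exact hp4 this
      have a2 : ¬ (N - 3 * p < N - q) := by
        intro hh
        have := h3 (N - q) (by omega)
        rw [hp5 _ hh, zero_add, Nat.sub_sub_self (by omega)] at this
        exact hq4 this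
      omega
    have hg0 : g.1 = 0 := by
      by_contra hg
      obtain ⟨q, hq1, hq2, hq3, hq4, hq5⟩ := lead _ hg
      have := h3 (N - q) (by omega)
      rw [hf0, map_zero, Pi.zero_apply, zero_add, Nat.sub_sub_self (by omega)] at this
      exact hq4 this
    exact Prod.ext (Subtype.ext hf0) (Subtype.ext hg0)
  have := fin_cusp (k : ℤ)
  have hfin := LinearMap.finrank_le_finrank_of_injective hΨ
  rw [Module.finrank_prod, Module.finrank_fin_fun] at hfin
  omega

end Pool.Agent.Lib.MP_06b9d2_ssp
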