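import Pool.Agent.Lib.MP_06b9d2_ssp.Defs

/-!
Module SSP-Hen. Hensel's lemma for power series over `ℂ`.

`hen_uni`: `y - z` divides `P.eval y - P.eval z` with a quotient whose constant coefficient is `P'(c)`:
`Polynomial.evalSubFactor` or: if `y ≠ z` put `y = z + h`, `P.eval (z + h) = P.eval z + P'.eval z * h + k * h ^ 2`
(`Polynomial.binomExpansion`), so `h * (P'.eval z + k * h) = 0`, `ℂ⟦X⟧` is a domain and the constant
coefficient of the second factor is `P'(c) ≠ 0` (the constant coefficient of `h` is `0`).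
`hen_ex`: Newton iteration: `y_0 = C c`, `y_{i + 1} = y_i - P(y_i) * (P'(y_i))⁻¹` (power series over a field have
inverses, `PowerSeries.inv`), `X ^ (i + 1) ∣ P(y_i)`, `X ^ (i + 1) ∣ y_{i + 1} - y_i`, and `y` has the
coefficients `coeff n y = coeff n y_n`; then `X ^ n ∣ P(y)` for all `n`. (Or: `ℂ⟦X⟧` is adically complete /
Henselian, if that is in Mathlib: `IsAdicComplete`, `HenselianRing.is_henselian` need a monic polynomial, so
Newton's method by hand is probably shorter.)
-/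

namespace Pool.Agent.Lib.MP_06b9d2_ssp

open PowerSeries Pool.Agent.L1

/-- The constant coefficient of `Q.eval y` depends only on the constant coefficient of `y`. -/
private theorem hen_cc (Q : Polynomial ℂ⟦X⟧) {y z : ℂ⟦X⟧}
    (h : constantCoeff y = constantCoeff z) :
    constantCoeff (Q.eval y) = constantCoeff (Q.eval z) := by
  rw [Polynomial.eval_eq_sum, Polynomial.eval_eq_sum, Polynomial.sum, Polynomial.sum, map_sum,
    map_sum]
  refine Finset.sum_congr rfl fun i _ => ?_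
  rw [map_mul, map_mul, map_pow, map_pow, h]

/-- One Newton step. -/
private theorem hen_step (P : Polynomial ℂ⟦X⟧) (r : ℂ)
    (h1 : constantCoeff ((Polynomial.derivative P).eval (C r)) ≠ 0) (n : ℕ) (y : ℂ⟦X⟧)
    (cy : constantCoeff y = r) (hy : X ^ (n + 1) ∣ P.eval y) :
    ∃ y' : ℂ⟦X⟧, constantCoeff y' = r ∧ X ^ (n + 2) ∣ P.eval y' ∧ X ^ (n + 1) ∣ y' - y := by
  obtain ⟨q, hq⟩ := hy
  have hd : constantCoeff ((Polynomial.derivative P).eval y) ≠ 0 := by
    rw [hen_cc (Polynomial.derivative P) (y := y) (z := C r) (by rw [cy, constantCoeff_C])]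
    exact h1
  set d : ℂ⟦X⟧ := (Polynomial.derivative P).eval y with hdd
  have hinv : d * d⁻¹ = 1 := PowerSeries.mul_inv_cancel d hd
  refine ⟨y + (-(P.eval y) * d⁻¹), ?_, ?_, ?_⟩
  · rw [map_add, map_mul, map_neg, hq, map_mul, map_pow, constantCoeff_X, cy]
    simp
  · obtain ⟨k, hk⟩ := Polynomial.binomExpansion P y (-(P.eval y) * d⁻¹)
    rw [hk, ← hdd]
    have e : P.eval y + d * (-(P.eval y) * d⁻¹) + k * (-(P.eval y) * d⁻¹) ^ 2 =
        X ^ (n + 2) * (X ^ n * (k * q ^ 2 * d⁻¹ ^ 2)) := by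
      have e1 : d * (-(P.eval y) * d⁻¹) = -(P.eval y) := by
        calc d * (-(P.eval y) * d⁻¹) = -(P.eval y) * (d * d⁻¹) := by ring
          _ = -(P.eval y) := by rw [hinv, mul_one]
      rw [e1, hq]
      ring
    rw [e]
    exact Dvd.intro _ rfl
  · rw [add_sub_cancel_left, hq]
    exact ⟨-q * d⁻¹, by ring⟩

/-- `x - y` divides `P.eval x - P.eval y`. -/
private theorem hen_sub (P : Polynomial ℂ⟦X⟧) {x y : ℂ⟦X⟧} {n : ℕ} (h : X ^ n ∣ x - y)
    (hy : X ^ n ∣ P.eval y) : X ^ n ∣ P.eval x := by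
  have h2 : x - y ∣ P.eval x - P.eval y := Polynomial.sub_dvd_eval_sub x y P
  have h3 := dvd_add (h.trans h2) hy
  rwa [sub_add_cancel] at h3

theorem hen_ex (P : Polynomial ℂ⟦X⟧) (r : ℂ)
    (h0 : constantCoeff (P.eval (C r)) = 0)
    (h1 : constantCoeff ((Polynomial.derivative P).eval (C r)) ≠ 0) :
    ∃ y : ℂ⟦X⟧, P.eval y = 0 ∧ constantCoeff y = r := by
  classical
  let S : ℕ → Type := fun n =>
    {y : ℂ⟦X⟧ // constantCoeff y = r ∧ X ^ (n + 1) ∣ P.eval y}
  have stp : ∀ n : ℕ, ∀ s : S n, ∃ t : S (n + 1), X ^ (n + 1) ∣ t.1 - s.1 := by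
    intro n s
    obtain ⟨y', a, b, c⟩ := hen_step P r h1 n s.1 s.2.1 s.2.2
    exact ⟨⟨y', a, b⟩, c⟩
  choose nx hnx using stp
  have hb : X ^ (0 + 1) ∣ P.eval (C r) := by
    rw [zero_add, pow_one, X_dvd_iff]
    exact h0
  let s0 : S 0 := ⟨C r, constantCoeff_C r, hb⟩
  let f : ∀ n, S n := fun n => Nat.rec (motive := S) s0 (fun n s => nx n s) n
  have hf : ∀ n, X ^ (n + 1) ∣ (f (n + 1)).1 - (f n).1 := fun n => hnx n (f n)
  have hff : ∀ n m, X ^ (n + 1) ∣ (f (n + m)).1 - (f n).1 := by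
    intro n m
    induction m with
    | zero => simp
    | succ m ih =>
      have h2 : X ^ (n + 1) ∣ (f (n + m + 1)).1 - (f (n + m)).1 :=
        (pow_dvd_pow X (by omega)).trans (hf (n + m))
      have h3 := dvd_add h2 ih
      rwa [sub_add_sub_cancel] at h3
  let y : ℂ⟦X⟧ := PowerSeries.mk fun n => coeff n (f n).1
  have hy : ∀ n, X ^ (n + 1) ∣ y - (f n).1 := by
    intro n
    rw [X_pow_dvd_iff]
    intro m hm
    rw [map_sub, sub_eq_zero]
    have e1 : coeff m y = coeff m (f m).1 := by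
      simp only [y, coeff_mk]
    have h2 := hff m (n - m)
    rw [X_pow_dvd_iff] at h2
    have h3 := h2 m (Nat.lt_succ_self m)
    rw [map_sub, sub_eq_zero, Nat.add_sub_cancel' (Nat.lt_succ_iff.mp hm)] at h3
    rw [e1, h3]
  refine ⟨y, ?_, ?_⟩
  · ext n
    have h2 : X ^ (n + 1) ∣ P.eval y := hen_sub P (hy n) (f n).2.2
    rw [X_pow_dvd_iff] at h2
    rw [h2 n (Nat.lt_succ_self n), map_zero]
  · have h2 := hy 0
    rw [X_pow_dvd_iff] at h2
    have h3 := h2 0 Nat.one_pos
    rw [map_sub, sub_eq_zero] at h3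
    rw [← coeff_zero_eq_constantCoeff_apply, h3, coeff_zero_eq_constantCoeff_apply]
    exact (f 0).2.1

theorem hen_uni (P : Polynomial ℂ⟦X⟧) (r : ℂ)
    (h1 : constantCoeff ((Polynomial.derivative P).eval (C r)) ≠ 0) {y z : ℂ⟦X⟧}
    (hy : P.eval y = 0) (hz : P.eval z = 0) (cy : constantCoeff y = r)
    (cz : constantCoeff z = r) : y = z := by
  obtain ⟨k, hk⟩ := Polynomial.binomExpansion P z (y - z)
  rw [add_sub_cancel, hy, hz, zero_add] at hk
  have e : (y - z) * ((Polynomial.derivative P).eval z + k * (y - z)) = 0 := by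
    rw [hk]
    ring
  rcases mul_eq_zero.mp e with h | h
  · exact sub_eq_zero.mp h
  · exfalso
    apply h1
    rw [← hen_cc (Polynomial.derivative P) (y := z) (z := C r) (by rw [cz, constantCoeff_C])]
    have h2 := congrArg constantCoeff h
    rw [map_add, map_mul, map_sub, cy, cz, sub_self, mul_zero, add_zero, map_zero] at h2
    exact h2

end Pool.Agent.Lib.MP_06b9d2_ssp
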