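import Pool.Agent.Lib.MP_06b9d2_ssp.Defs

/-!
Module SSP-Kap. Degrees and small values of `kap`.

`kap_deg`: by induction: for `K m n = (x, y, z)`: `x.coeff l = 0` for `l > m + n`, `y.coeff l = z.coeff l = 0` for
`l ≥ m + n` (`Polynomial.coeff_X_mul`, `Polynomial.coeff_X_mul_zero`; `1 + X` etc. distribute; `th` applied
to a triple with bound `d` gives one with bound `d + 1`, the same for `th'`; `Function.iterate_succ_apply'`).
The values: `simp [kap, ce, K, th, th']` and `ring` in `Polynomial ℤ`.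
-/

namespace Pool.Agent.Lib.MP_06b9d2_ssp

open PowerSeries Pool.Agent.L1

/-- bound of the degrees of a triple -/
private def Bd (d : ℕ) (v : T3) : Prop := (∀ l, d < l → v.1.coeff l = 0) ∧
    (∀ l, d ≤ l → v.2.1.coeff l = 0) ∧ ∀ l, d ≤ l → v.2.2.coeff l = 0

private theorem Bd_th {d : ℕ} {v : T3} (h : Bd d v) : Bd (d + 1) (th v) := by
  obtain ⟨h1, h2, h3⟩ := h
  refine ⟨fun l hl => ?_, fun l hl => ?_, fun l hl => ?_⟩
  · obtain ⟨q, rfl⟩ : ∃ q, l = q + 1 := ⟨l - 1, by omega⟩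
    have e : (th v).1 = 2 * v.2.1 + Polynomial.X * (2 * v.2.1) := by simp only [th]; ring
    rw [e, Polynomial.coeff_add, Polynomial.coeff_X_mul, Polynomial.coeff_ofNat_mul,
      Polynomial.coeff_ofNat_mul, h2 _ (by omega), h2 _ (by omega)]
    simp
  · obtain ⟨q, rfl⟩ : ∃ q, l = q + 1 := ⟨l - 1, by omega⟩
    have e : (th v).2.1 = v.1 - v.2.1 - Polynomial.X * v.2.2 := rfl
    rw [e, Polynomial.coeff_sub, Polynomial.coeff_sub, Polynomial.coeff_X_mul, h1 _ (by omega),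
      h2 _ (by omega), h3 _ (by omega)]
    simp
  · have e : (th v).2.2 = v.2.2 - v.2.1 := rfl
    rw [e, Polynomial.coeff_sub, h2 _ (by omega), h3 _ (by omega)]
    simp

private theorem Bd_th' {d : ℕ} {v : T3} (h : Bd d v) : Bd (d + 1) (th' v) := by
  obtain ⟨h1, h2, h3⟩ := h
  refine ⟨fun l hl => ?_, fun l hl => ?_, fun l hl => ?_⟩
  · obtain ⟨q, rfl⟩ : ∃ q, l = q + 1 + 1 := ⟨l - 2, by omega⟩
    have e : (th' v).1 = Polynomial.X * (2 * v.2.2) + Polynomial.X * (Polynomial.X * (2 * v.2.2)) := by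
      simp only [th']; ring
    rw [e, Polynomial.coeff_add, Polynomial.coeff_X_mul, Polynomial.coeff_X_mul,
      Polynomial.coeff_X_mul, Polynomial.coeff_ofNat_mul,
      Polynomial.coeff_ofNat_mul, h3 _ (by omega), h3 _ (by omega)]
    simp
  · obtain ⟨q, rfl⟩ : ∃ q, l = q + 1 := ⟨l - 1, by omega⟩
    have e : (th' v).2.1 = Polynomial.X * v.2.2 - Polynomial.X * v.2.1 := rfl
    rw [e, Polynomial.coeff_sub, Polynomial.coeff_X_mul, Polynomial.coeff_X_mul,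
      h2 _ (by omega), h3 _ (by omega)]
    simp
  · obtain ⟨q, rfl⟩ : ∃ q, l = q + 1 := ⟨l - 1, by omega⟩
    have e : (th' v).2.2 = v.1 + v.2.1 + Polynomial.X * v.2.2 := rfl
    rw [e, Polynomial.coeff_add, Polynomial.coeff_add, Polynomial.coeff_X_mul, h1 _ (by omega),
      h2 _ (by omega), h3 _ (by omega)]
    simp

private theorem Bd_one : Bd 0 ((1, 0, 0) : T3) := by
  refine ⟨fun l hl => ?_, fun l _ => ?_, fun l _ => ?_⟩
  · show (1 : Polynomial ℤ).coeff l = 0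
    rw [Polynomial.coeff_one, if_neg (by omega)]
  · show (0 : Polynomial ℤ).coeff l = 0
    simp
  · show (0 : Polynomial ℤ).coeff l = 0
    simp

private theorem Bd_it' (n : ℕ) : Bd n (th'^[n] (1, 0, 0)) := by
  induction n with
  | zero => exact Bd_one
  | succ n ih => rw [Function.iterate_succ_apply']; exact Bd_th' ih

private theorem Bd_K (m n : ℕ) : Bd (m + n) (K m n) := by
  unfold K
  induction m with
  | zero => simpa using Bd_it' n
  | succ m ih =>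
    rw [Function.iterate_succ_apply', show m + 1 + n = m + n + 1 by ring]
    exact Bd_th ih

theorem K_deg (m n : ℕ) : (∀ l, m + n < l → (K m n).1.coeff l = 0) ∧
    (∀ l, m + n ≤ l → (K m n).2.1.coeff l = 0) ∧ ∀ l, m + n ≤ l → (K m n).2.2.coeff l = 0 :=
  Bd_K m n

theorem kap_deg (e m n l : ℕ) (h : m + n < l) : (kap e m n).coeff l = 0 := by
  obtain ⟨h1, h2, h3⟩ := K_deg m n
  obtain ⟨q, rfl⟩ : ∃ q, l = q + 1 := ⟨l - 1, by omega⟩
  have a1 := h1 (q + 1) h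
  have a2 := h2 (q + 1) (by omega)
  have a3 := h3 q (by omega)
  unfold kap ce
  split_ifs
  · exact a1
  · rw [Polynomial.coeff_ofNat_mul, Polynomial.coeff_add, Polynomial.coeff_X_mul, a2, a3]
    simp
  · rw [Polynomial.coeff_ofNat_mul, Polynomial.coeff_add, Polynomial.coeff_sub,
      Polynomial.coeff_X_mul, a1, a2, a3]
    simp

theorem kap0 : kap 0 0 0 = 1 ∧ kap 0 1 0 = 0 ∧ kap 0 0 1 = 0 ∧
    kap 0 2 0 = 2 * (1 + Polynomial.X) ∧ kap 0 1 1 = 0 ∧
    kap 0 0 2 = 2 * (1 + Polynomial.X) * Polynomial.X ∧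
    kap 0 3 0 = -(2 * (1 + Polynomial.X)) ∧
    kap 0 0 3 = 2 * (1 + Polynomial.X) * Polynomial.X ^ 2 := by
  refine ⟨?_, ?_, ?_, ?_, ?_, ?_, ?_, ?_⟩ <;> simp [kap, ce, K, th, th'] <;> ring

theorem kap1 : kap 1 0 0 = 0 ∧ kap 1 1 0 = 2 ∧ kap 1 0 1 = 2 * Polynomial.X := by
  refine ⟨?_, ?_, ?_⟩ <;> simp [kap, ce, K, th, th']

theorem kap2 : kap 2 0 0 = 2 ∧ kap 2 1 0 = -2 ∧ kap 2 0 1 = 2 * Polynomial.X ∧
    kap 2 2 0 = 6 + 2 * Polynomial.X ∧ kap 2 1 1 = 4 * Polynomial.X ∧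
    kap 2 0 2 = 2 * Polynomial.X + 6 * Polynomial.X ^ 2 ∧
    kap 2 3 0 = -(10 * (1 + Polynomial.X)) ∧
    kap 2 0 3 = 10 * (1 + Polynomial.X) * Polynomial.X ^ 2 := by
  refine ⟨?_, ?_, ?_, ?_, ?_, ?_, ?_, ?_⟩ <;> simp [kap, ce, K, th, th'] <;> ring

end Pool.Agent.Lib.MP_06b9d2_ssp
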