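import Mathlib

/-!
Linear algebra: a semisimple endomorphism of a complex vector space all of whose eigenspaces have
dimension at most one.
-/

namespace Pool.Agent.Lib.MP_06b9d2_ssp

open Polynomial

variable {V : Type*} [AddCommGroup V] [Module ℂ V] [Module.Finite ℂ V]

theorem mult_le {T : V →ₗ[ℂ] V} (hs : Module.End.IsSemisimple T)
    (h1 : ∀ lam : ℂ, Module.finrank ℂ (LinearMap.ker (T - lam • LinearMap.id)) ≤ 1) (lam : ℂ) :
    (LinearMap.charpoly T).rootMultiplicity lam ≤ 1 := by
  have h2 := LinearMap.finrank_maxGenEigenspace_eq T lam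
  have h3 : Module.End.IsFinitelySemisimple T := hs.isFinitelySemisimple
  rw [h3.maxGenEigenspace_eq_eigenspace, Module.End.eigenspace_def] at h2
  exact h2.ge.trans (h1 lam)

theorem sep_charpoly {T : V →ₗ[ℂ] V} (hs : Module.End.IsSemisimple T)
    (h1 : ∀ lam : ℂ, Module.finrank ℂ (LinearMap.ker (T - lam • LinearMap.id)) ≤ 1) :
    (LinearMap.charpoly T).Separable := by
  classical
  have hne : LinearMap.charpoly T ≠ 0 := (LinearMap.charpoly_monic T).ne_zero
  rw [← nodup_roots_iff_of_splits hne (IsAlgClosed.splits _), Multiset.nodup_iff_count_le_one]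
  intro a
  rw [count_roots]
  exact mult_le hs h1 a

theorem comm_poly {T : V →ₗ[ℂ] V} (hs : Module.End.IsSemisimple T)
    (h1 : ∀ lam : ℂ, Module.finrank ℂ (LinearMap.ker (T - lam • LinearMap.id)) ≤ 1)
    (S : V →ₗ[ℂ] V) (hS : Commute S T) : ∃ P : ℂ[X], S = aeval T P := by
  classical
  have hfs : Module.End.IsFinitelySemisimple T := hs.isFinitelySemisimple
  have htop : ⨆ lam : ℂ, Module.End.eigenspace T lam = ⊤ := by
    have := Module.End.iSup_maxGenEigenspace_eq_top T
    rw [← this]
    exact iSup_congr fun lam => (hfs.maxGenEigenspace_eq_eigenspace lam).symm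
  have hker : ∀ lam : ℂ, Module.End.eigenspace T lam = LinearMap.ker (T - lam • LinearMap.id) := by
    intro lam
    rw [Module.End.eigenspace_def]
    rfl
  -- the eigenvalue of `S`
  have hex : ∀ lam : ℂ, ∃ s : ℂ, ∀ v ∈ Module.End.eigenspace T lam, S v = s • v := by
    intro lam
    have hf : Module.finrank ℂ (Module.End.eigenspace T lam) ≤ 1 := by
      rw [hker]
      exact h1 lam
    rw [finrank_le_one_iff] at hf
    obtain ⟨v0, hv0⟩ := hf
    have hSv : S (v0 : V) ∈ Module.End.eigenspace T lam := by
      rw [Module.End.mem_eigenspace_iff]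
      have h2 : T (S (v0 : V)) = S (T (v0 : V)) := by
        have := LinearMap.congr_fun hS.eq (v0 : V)
        exact this.symm
      rw [h2, Module.End.mem_eigenspace_iff.1 v0.2, map_smul]
    obtain ⟨s, hs'⟩ := hv0 ⟨_, hSv⟩
    refine ⟨s, fun v hv => ?_⟩
    obtain ⟨c, hc⟩ := hv0 ⟨v, hv⟩
    have e1 : c • (v0 : V) = v := congrArg Subtype.val hc
    have e2 : s • (v0 : V) = S (v0 : V) := congrArg Subtype.val hs'
    rw [← e1, map_smul, ← e2, smul_comm]
  choose s hs2 using hex
  let F : Finset ℂ := (LinearMap.charpoly T).roots.toFinset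
  refine ⟨Lagrange.interpolate F id s, ?_⟩
  rw [← sub_eq_zero]
  have hle : (⊤ : Submodule ℂ V) ≤ LinearMap.ker (S - aeval T (Lagrange.interpolate F id s)) := by
    rw [← htop]
    refine iSup_le fun lam v hv => ?_
    rw [LinearMap.mem_ker, LinearMap.sub_apply, hs2 lam v hv, sub_eq_zero]
    by_cases h0 : v = 0
    · rw [h0, smul_zero, map_zero]
    · have hev : Module.End.HasEigenvector T lam v := ⟨hv, h0⟩
      have hlam : lam ∈ F := by
        rw [Multiset.mem_toFinset, mem_roots (LinearMap.charpoly_monic T).ne_zero]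
        exact (Module.End.hasEigenvalue_iff_isRoot_charpoly T lam).1
          (Module.End.hasEigenvalue_of_hasEigenvector hev)
      have hi : eval lam (Lagrange.interpolate F id s) = s lam :=
        Lagrange.eval_interpolate_at_node (v := id) s (fun _ _ _ _ h => h) hlam
      rw [Module.End.aeval_apply_of_hasEigenvector hev, hi]
  rw [top_le_iff, LinearMap.ker_eq_top] at hle
  exact hle

end Pool.Agent.Lib.MP_06b9d2_ssp
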