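import Pool.Agent.Lib.MP_06b9d2_ssp.Hen

/-!
Module SSP-LvA. Existence and uniqueness of the level three functions.

`lv_ex`: `hen_ex` for `P = 27 T ^ 8 - 18 E4 T ^ 4 - 8 E6 T ^ 2 - E4 ^ 2` and `r = 1` (`E4 = e4 ℂ`, `E6 = e6 ℂ`
have the constant coefficient `1`; value `27 - 18 - 8 - 1 = 0`, derivative `216 - 72 - 16 = 128`) gives `a`,
`c = (E4 - a ^ 4) * (216 a)⁻¹` (`PowerSeries.mul_inv_cancel`, the constant coefficient of `216 a` is not `0`).
`h4` by definition of `c`; `h6`: `8 a ^ 2 E6 = 8 a ^ 2 (a ^ 6 - 540 a ^ 3 c - 5832 c ^ 2)` from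
`216 a c = E4 - a ^ 4` and the equation of `a`: `8 a ^ 2 (540 a ^ 3 c) = 20 a ^ 4 (E4 - a ^ 4)`,
`8 a ^ 2 (5832 c ^ 2) = (E4 - a ^ 4) ^ 2`; cancel `8 a ^ 2`.
`lv_uni_at`: if `u`, `v` have the constant coefficient `1` and the same `E4`, `E6` are expressed by `(u, c)` and by
`(v, d)`, then `u = v` and `c = d`: both `u`, `v` are roots of the polynomial above (with these `E4`, `E6`, whose
constant coefficients must be `1`: assumed), `hen_uni`; then `216 u c = E4 - u ^ 4 = 216 u d`.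
`lv_dl`: `e4_cube` (`L1/Span.lean`): `1728 dl = e4 ^ 3 - e6 ^ 2 = 1728 (a ^ 3 - 27 c) ^ 3 c` (`ring`).
`lv_c`: the constant coefficient of `c` is `0` (`h4`: `1 = 1 * (1 + 216 c_0)`), so
`β = a ^ 3 - 27 c` has the constant coefficient `1`; `β ^ 3 c = dl = X * (1 + ...)` (`dl_eq`,
`constCoeff_Ulz`), so `c = X * u`, `u = (1 + ...) * (β ^ 3)⁻¹`.
-/

namespace Pool.Agent.Lib.MP_06b9d2_ssp

open PowerSeries Pool.Agent.L1

/-- The polynomial of `a` over `ℂ⟦q⟧`, with `E`, `F` in the place of `E4`, `E6`. -/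
private noncomputable def lvP (E F : ℂ⟦X⟧) : Polynomial ℂ⟦X⟧ :=
  27 * Polynomial.X ^ 8 - 18 * Polynomial.C E * Polynomial.X ^ 4 -
    8 * Polynomial.C F * Polynomial.X ^ 2 - Polynomial.C (E ^ 2)

private theorem lvP_eval (E F y : ℂ⟦X⟧) :
    (lvP E F).eval y = 27 * y ^ 8 - 18 * E * y ^ 4 - 8 * F * y ^ 2 - E ^ 2 := by
  simp [lvP]

private theorem lvP_deriv (E F y : ℂ⟦X⟧) :
    (Polynomial.derivative (lvP E F)).eval y = 216 * y ^ 7 - 72 * E * y ^ 3 - 16 * F * y := by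
  have h27 : (27 : Polynomial ℂ⟦X⟧) = Polynomial.C 27 := (map_ofNat Polynomial.C 27).symm
  have h18 : (18 : Polynomial ℂ⟦X⟧) = Polynomial.C 18 := (map_ofNat Polynomial.C 18).symm
  have h8 : (8 : Polynomial ℂ⟦X⟧) = Polynomial.C 8 := (map_ofNat Polynomial.C 8).symm
  rw [lvP, h27, h18, h8]
  simp only [Polynomial.derivative_sub, Polynomial.derivative_mul, Polynomial.derivative_C,
    Polynomial.derivative_X_pow, Polynomial.eval_sub, Polynomial.eval_mul, Polynomial.eval_C,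
    Polynomial.eval_pow, Polynomial.eval_X, zero_mul, mul_zero, zero_add, sub_zero]
  push_cast
  ring

private theorem lvP_cc {E F : ℂ⟦X⟧} (hE : constantCoeff E = 1) (hF : constantCoeff F = 1) :
    constantCoeff ((Polynomial.derivative (lvP E F)).eval (C 1)) ≠ 0 := by
  have e1 : (216 : ℂ⟦X⟧) = C 216 := (map_ofNat C 216).symm
  have e2 : (72 : ℂ⟦X⟧) = C 72 := (map_ofNat C 72).symm
  have e3 : (16 : ℂ⟦X⟧) = C 16 := (map_ofNat C 16).symm
  rw [lvP_deriv, e1, e2, e3]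
  simp only [map_sub, map_mul, map_pow, constantCoeff_C, hE, hF]
  norm_num

private theorem lvP_zero {E F u c : ℂ⟦X⟧} (u4 : E = u * (u ^ 3 + 216 * c))
    (u6 : F = u ^ 6 - 540 * u ^ 3 * c - 5832 * c ^ 2) : (lvP E F).eval u = 0 := by
  rw [lvP_eval, u4, u6]
  ring

theorem lv_ex : ∃ a c : ℂ⟦X⟧, Lv a c := by
  have hE : constantCoeff (e4 ℂ) = 1 := constCoeff_e4
  have hF : constantCoeff (e6 ℂ) = 1 := constCoeff_e6
  have h0 : constantCoeff ((lvP (e4 ℂ) (e6 ℂ)).eval (C 1)) = 0 := by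
    have e1 : (27 : ℂ⟦X⟧) = C 27 := (map_ofNat C 27).symm
    have e2 : (18 : ℂ⟦X⟧) = C 18 := (map_ofNat C 18).symm
    have e3 : (8 : ℂ⟦X⟧) = C 8 := (map_ofNat C 8).symm
    rw [lvP_eval, e1, e2, e3]
    simp only [map_sub, map_mul, map_pow, constantCoeff_C, hE, hF]
    norm_num
  obtain ⟨a, ha, ca⟩ := hen_ex (lvP (e4 ℂ) (e6 ℂ)) 1 h0 (lvP_cc hE hF)
  rw [lvP_eval] at ha
  have h216 : constantCoeff ((216 : ℂ⟦X⟧) * a) ≠ 0 := by
    have e1 : (216 : ℂ⟦X⟧) = C 216 := (map_ofNat C 216).symm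
    rw [e1, map_mul, constantCoeff_C, ca]
    norm_num
  have hinv : (216 * a) * (216 * a)⁻¹ = 1 := PowerSeries.mul_inv_cancel _ h216
  set c : ℂ⟦X⟧ := (e4 ℂ - a ^ 4) * (216 * a)⁻¹ with hc
  have hac : 216 * a * c = e4 ℂ - a ^ 4 := by
    rw [hc]
    calc 216 * a * ((e4 ℂ - a ^ 4) * (216 * a)⁻¹)
        = (e4 ℂ - a ^ 4) * ((216 * a) * (216 * a)⁻¹) := by ring
      _ = e4 ℂ - a ^ 4 := by rw [hinv, mul_one]
  have ha0 : a ≠ 0 := by
    intro h
    rw [h, map_zero] at ca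
    exact zero_ne_one ca
  refine ⟨a, c, ca, ?_, ?_⟩
  · linear_combination -hac
  · have h8 : (8 : ℂ⟦X⟧) ≠ 0 := by
      intro h
      have h2 := congrArg constantCoeff h
      have e3 : (8 : ℂ⟦X⟧) = C 8 := (map_ofNat C 8).symm
      rw [e3, constantCoeff_C, map_zero] at h2
      norm_num at h2
    have h8a : (8 * a ^ 2 : ℂ⟦X⟧) ≠ 0 := mul_ne_zero h8 (pow_ne_zero 2 ha0)
    apply mul_left_cancel₀ h8a
    linear_combination -ha + (20 * a ^ 4 + 216 * a * c + (e4 ℂ - a ^ 4)) * hac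

theorem lv_uni_at {E F u v c d : ℂ⟦X⟧} (hE : constantCoeff E = 1) (hF : constantCoeff F = 1)
    (cu : constantCoeff u = 1) (cv : constantCoeff v = 1)
    (u4 : E = u * (u ^ 3 + 216 * c)) (u6 : F = u ^ 6 - 540 * u ^ 3 * c - 5832 * c ^ 2)
    (v4 : E = v * (v ^ 3 + 216 * d)) (v6 : F = v ^ 6 - 540 * v ^ 3 * d - 5832 * d ^ 2) :
    u = v ∧ c = d := by
  have huv : u = v := hen_uni (lvP E F) 1 (lvP_cc hE hF) (lvP_zero u4 u6) (lvP_zero v4 v6) cu cv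
  refine ⟨huv, ?_⟩
  subst huv
  have h216 : (216 : ℂ⟦X⟧) * u ≠ 0 := by
    intro h
    have h2 := congrArg constantCoeff h
    have e1 : (216 : ℂ⟦X⟧) = C 216 := (map_ofNat C 216).symm
    rw [e1, map_mul, constantCoeff_C, cu, map_zero] at h2
    norm_num at h2
  apply mul_left_cancel₀ h216
  linear_combination v4 - u4

theorem lv_dl {a c : ℂ⟦X⟧} (h : Lv a c) : dl ℂ = (a ^ 3 - 27 * c) ^ 3 * c := by
  have h1 : e4 ℂ ^ 3 - e6 ℂ ^ 2 = 1728 * dl ℂ := e4_cube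
  rw [h.h4, h.h6] at h1
  have h1728 : (1728 : ℂ⟦X⟧) ≠ 0 := by
    intro h
    have h2 := congrArg constantCoeff h
    have e3 : (1728 : ℂ⟦X⟧) = C 1728 := (map_ofNat C 1728).symm
    rw [e3, constantCoeff_C, map_zero] at h2
    norm_num at h2
  apply mul_left_cancel₀ h1728
  linear_combination -h1

theorem lv_c {a c : ℂ⟦X⟧} (h : Lv a c) : ∃ u : ℂ⟦X⟧, constantCoeff u = 1 ∧ c = X * u := by
  have hc0 : constantCoeff c = 0 := by
    have h1 := congrArg constantCoeff h.h4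
    have e1 : (216 : ℂ⟦X⟧) = C 216 := (map_ofNat C 216).symm
    rw [constCoeff_e4, e1, map_mul, map_add, map_mul, map_pow, constantCoeff_C, h.ca] at h1
    linear_combination (-1 / 216 : ℂ) * h1
  have hb : constantCoeff ((a ^ 3 - 27 * c) ^ 3) = 1 := by
    rw [map_pow, map_sub, map_mul, map_pow, h.ca, hc0]
    norm_num
  have hb0 : constantCoeff ((a ^ 3 - 27 * c) ^ 3) ≠ 0 := by
    rw [hb]
    exact one_ne_zero
  have hinv : (a ^ 3 - 27 * c) ^ 3 * ((a ^ 3 - 27 * c) ^ 3)⁻¹ = 1 :=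
    PowerSeries.mul_inv_cancel _ hb0
  have hd := lv_dl h
  rw [dl_eq] at hd
  refine ⟨PowerSeries.map (Int.castRingHom ℂ) Ulz * ((a ^ 3 - 27 * c) ^ 3)⁻¹, ?_, ?_⟩
  · have h2 := congrArg constantCoeff hinv
    rw [map_mul, hb, one_mul, map_one] at h2
    rw [map_mul, h2, mul_one, ← coeff_zero_eq_constantCoeff_apply, coeff_map,
      coeff_zero_eq_constantCoeff_apply, constCoeff_Ulz]
    simp
  · calc c = c * ((a ^ 3 - 27 * c) ^ 3 * ((a ^ 3 - 27 * c) ^ 3)⁻¹) := by rw [hinv, mul_one]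
      _ = ((a ^ 3 - 27 * c) ^ 3 * c) * ((a ^ 3 - 27 * c) ^ 3)⁻¹ := by ring
      _ = X * (PowerSeries.map (Int.castRingHom ℂ) Ulz * ((a ^ 3 - 27 * c) ^ 3)⁻¹) := by
        rw [← hd]
        ring

end Pool.Agent.Lib.MP_06b9d2_ssp
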