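import Pool.Agent.Lib.MP_06b9d2_ssp.Eig
import Pool.Agent.Lib.MP_06b9d2_ssp.Lin
import Pool.Agent.Lib.MP_06b9d2_nt.MD.Eig

/-!
MP_06b9d2_nt: `T_2` has a simple spectrum on the cusp forms of level one. Assembly.
-/

namespace Pool.Agent.Lib.MP_06b9d2_ssp

open UpperHalfPlane Pool.Agent.L1 Pool.Agent.Lib.MP_06b9d2_nt
open scoped MatrixGroups ModularForm

theorem ker_leZ (k : ℤ) (hk : Even k) [Module.Finite ℂ (CuspForm 𝒮ℒ k)]
    (T : CuspForm 𝒮ℒ k →ₗ[ℂ] CuspForm 𝒮ℒ k) (hT : IsHecke k 2 T) (lam : ℂ) :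
    Module.finrank ℂ (LinearMap.ker (T - lam • LinearMap.id)) ≤ 1 := by
  rcases lt_or_ge k 0 with hneg | hpos
  · have h1 : Module.finrank ℂ (CuspForm 𝒮ℒ k) = 0 := by
      rw [Module.finrank, CuspForm.rank_eq_zero_of_weight_lt_twelve (by omega)]
      exact Cardinal.zero_toNat
    have h2 := Submodule.finrank_le (LinearMap.ker (T - lam • LinearMap.id))
    rw [h1, Nat.le_zero] at h2
    rw [h2]
    exact Nat.zero_le 1
  · obtain ⟨m, rfl⟩ := Int.eq_ofNat_of_zero_le hpos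
    have hm : Even m := by exact_mod_cast hk
    exact ker_le m hm T hT lam

theorem sep (k : ℤ) (hk : Even k) [Module.Finite ℂ (CuspForm 𝒮ℒ k)]
    (T : CuspForm 𝒮ℒ k →ₗ[ℂ] CuspForm 𝒮ℒ k) (hT : IsHecke k 2 T) :
    (LinearMap.charpoly T).Separable :=
  sep_charpoly (semi_hecke hT) (ker_leZ k hk T hT)

theorem comm (k : ℤ) (hk : Even k) [Module.Finite ℂ (CuspForm 𝒮ℒ k)]
    (T : CuspForm 𝒮ℒ k →ₗ[ℂ] CuspForm 𝒮ℒ k) (hT : IsHecke k 2 T)
    (S : CuspForm 𝒮ℒ k →ₗ[ℂ] CuspForm 𝒮ℒ k) (hS : Commute S T) :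
    ∃ P : Polynomial ℂ, S = Polynomial.aeval T P :=
  comm_poly (semi_hecke hT) (ker_leZ k hk T hT) S hS

/-- the characteristic polynomial has integral coefficients -/
theorem int_charpoly (k : ℤ) (hk : Even k) [Module.Finite ℂ (CuspForm 𝒮ℒ k)]
    (T : CuspForm 𝒮ℒ k →ₗ[ℂ] CuspForm 𝒮ℒ k) (hT : IsHecke k 2 T) :
    ∃ F : Polynomial ℤ, F.Monic ∧ F.map (Int.castRingHom ℂ) = LinearMap.charpoly T := by
  rcases lt_or_ge k 0 with hneg | hpos
  · have h1 : Module.finrank ℂ (CuspForm 𝒮ℒ k) = 0 := by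
      rw [Module.finrank, CuspForm.rank_eq_zero_of_weight_lt_twelve (by omega)]
      exact Cardinal.zero_toNat
    have h2 : LinearMap.charpoly T = 1 := by
      have h3 := LinearMap.charpoly_natDegree T
      rw [h1] at h3
      exact (LinearMap.charpoly_monic T).natDegree_eq_zero.1 h3
    exact ⟨1, Polynomial.monic_one, by rw [h2, Polynomial.map_one]⟩
  · obtain ⟨m, rfl⟩ := Int.eq_ofNat_of_zero_le hpos
    have hm : Even m := by exact_mod_cast hk
    obtain ⟨M, Φ, hΦ, hTM, -⟩ := MU.Mtx m hm T hT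
    refine ⟨M.charpoly, M.charpoly_monic, ?_⟩
    let e : CuspForm 𝒮ℒ (m : ℤ) ≃ₗ[ℂ] (Fin (dd m - 1) → ℂ) := LinearEquiv.ofBijective Φ hΦ
    have h1 : e.conj T = Matrix.toLin' (M.map (Int.castRingHom ℂ)) := by
      apply LinearMap.ext
      intro v
      rw [LinearEquiv.conj_apply_apply, Matrix.toLin'_apply]
      have h2 := hTM (e.symm v)
      have h3 : Φ (e.symm v) = v := e.apply_symm_apply v
      rw [h3] at h2
      exact h2
    rw [← LinearEquiv.charpoly_conj e T, h1, Matrix.charpoly_toLin', Matrix.charpoly_map]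

theorem main (k : ℤ) (hk : Even k) [Module.Finite ℂ (CuspForm 𝒮ℒ k)]
    (T : CuspForm 𝒮ℒ k →ₗ[ℂ] CuspForm 𝒮ℒ k) (hT : IsHecke k 2 T) :
    ∃ F : Polynomial ℤ, F.Monic ∧ F.map (Int.castRingHom ℂ) = LinearMap.charpoly T ∧
      Squarefree (F.map (Int.castRingHom ℚ)) ∧
      (LinearMap.charpoly T).roots.toFinset.card = Module.finrank ℂ (CuspForm 𝒮ℒ k) := by
  classical
  obtain ⟨F, hF, hFT⟩ := int_charpoly k hk T hT
  have hsep := sep k hk T hT
  refine ⟨F, hF, hFT, ?_, ?_⟩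
  · have h1 : ((F.map (Int.castRingHom ℚ)).map (algebraMap ℚ ℂ)).Separable := by
      rw [Polynomial.map_map]
      have h2 : (algebraMap ℚ ℂ).comp (Int.castRingHom ℚ) = Int.castRingHom ℂ :=
        RingHom.ext_int _ _
      rw [h2, hFT]
      exact hsep
    exact ((Polynomial.separable_map (algebraMap ℚ ℂ)).1 h1).squarefree
  · rw [Multiset.toFinset_card_of_nodup (Polynomial.nodup_roots hsep),
      ← LinearMap.charpoly_natDegree T]
    exact IsAlgClosed.card_roots_eq_natDegree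

end Pool.Agent.Lib.MP_06b9d2_ssp
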