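import Pool.Agent.Lib.MP_06b9d2_ssp.POa

/-!
Module SSP-Nrm. Normalization.

Let `x` be not `0` on `s ≤ N`. The values `μ(π, n) = mu N x π (s ↦ s ^ n)`, `π ∈ {0, 1}`, `n ≤ N`, are not all `0`: if `x_s ≠ 0`, `s ≡ π`,
take the polynomial `p = ∏_{t ≤ N, t ≠ s} (T - t)`: `mu N x π p = x_s p(s) ≠ 0` is a linear combination of them. Choose one of
them, `w = μ(π0, n0)`, with the maximal valuation (`Finset.exists_max_image` with `O.valuation`; the value group is linearly
ordered), `w ≠ 0`, and `c = w⁻¹`. Then all `c μ(π, n)`, `n ≤ N`, have valuation `≤ 1`, one has valuation `1`. For `n > N`: in `ℤ[T]`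
divide `T ^ n` by the monic polynomial `∏_{t ≤ N} (T - t)` of degree `N + 1` (`Polynomial.modByMonic`), which vanishes at all
`s ≤ N`: `μ(π, n)` is an integral combination of the `μ(π, i)`, `i ≤ N`. So for all polynomials over `O` (linearity:
`mu` of `∑ p_i s ^ i` is `∑ p_i μ(π, i)`). `mu N x π` depends only on `π` modulo `2`.
-/

namespace Pool.Agent.Lib.MP_06b9d2_ssp

open PowerSeries Pool.Agent.L1

theorem mu_mod (N : ℕ) (x : ℕ → ℂ) (π : ℕ) (f : ℤ → ℂ) : mu N x (π % 2) f = mu N x π f := by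
  unfold mu
  rw [Nat.mod_mod]

private theorem mu_smul (N : ℕ) (x : ℕ → ℂ) (r : ℂ) (π : ℕ) (f : ℤ → ℂ) :
    mu N (fun s => r * x s) π f = r * mu N x π f := by
  unfold mu
  rw [Finset.mul_sum]
  exact Finset.sum_congr rfl fun s _ => by ring

private theorem mu_comb (N : ℕ) (x : ℕ → ℂ) (π : ℕ) (f : ℤ → ℂ) (c : ℕ → ℂ)
    (h : ∀ s : ℕ, s ≤ N → f (s : ℤ) = ∑ i ∈ Finset.range (N + 1), c i * (((s : ℕ) : ℤ) : ℂ) ^ i) :
    mu N x π f = ∑ i ∈ Finset.range (N + 1), c i * mu N x π (fun s => (s : ℂ) ^ i) := by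
  unfold mu
  simp_rw [Finset.mul_sum]
  rw [Finset.sum_comm]
  refine Finset.sum_congr rfl fun s hs => ?_
  have hs' : s ≤ N := by
    have := (Finset.mem_filter.mp hs).1
    exact Nat.lt_succ_iff.mp (Finset.mem_range.mp this)
  rw [h s hs', Finset.mul_sum]
  exact Finset.sum_congr rfl fun i _ => by ring

private theorem exists_ne (N : ℕ) (x : ℕ → ℂ) (hx : ∃ s ≤ N, x s ≠ 0) :
    ∃ π < 2, ∃ n ≤ N, mu N x π (fun s => (s : ℂ) ^ n) ≠ 0 := by
  obtain ⟨s0, hs0, hx0⟩ := hx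
  by_contra hcon
  push Not at hcon
  set p : Polynomial ℂ := ∏ t ∈ (Finset.range (N + 1)).erase s0,
    (Polynomial.X - Polynomial.C (t : ℂ)) with hp
  have hdeg : p.natDegree < N + 1 := by
    rw [hp, Polynomial.natDegree_prod_of_monic _ _ (fun t _ => Polynomial.monic_X_sub_C _)]
    simp only [Polynomial.natDegree_X_sub_C, Finset.sum_const, smul_eq_mul, mul_one]
    rw [Finset.card_erase_of_mem (Finset.mem_range.mpr (Nat.lt_succ_of_le hs0)), Finset.card_range]
    omega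
  have h1 := mu_comb N x (s0 % 2) (fun s => p.eval (s : ℂ)) (fun i => p.coeff i)
    (fun s _ => by
      show p.eval (((s : ℕ) : ℤ) : ℂ) = _
      rw [Polynomial.eval_eq_sum_range' hdeg])
  have h2 : mu N x (s0 % 2) (fun s => p.eval (s : ℂ)) = 0 := by
    rw [h1]
    refine Finset.sum_eq_zero fun i hi => ?_
    rw [hcon (s0 % 2) (Nat.mod_lt _ (by norm_num)) i (Nat.lt_succ_iff.mp (Finset.mem_range.mp hi)),
      mul_zero]
  unfold mu at h2
  rw [Finset.sum_eq_single s0] at h2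
  · rcases mul_eq_zero.mp h2 with h | h
    · exact hx0 h
    · beta_reduce at h
      rw [hp, Polynomial.eval_prod] at h
      obtain ⟨t, ht, h0⟩ := Finset.prod_eq_zero_iff.mp h
      simp only [Polynomial.eval_sub, Polynomial.eval_X, Polynomial.eval_C, Int.cast_natCast] at h0
      have : (s0 : ℂ) = (t : ℂ) := sub_eq_zero.mp h0
      exact (Finset.mem_erase.mp ht).1 (Nat.cast_injective this).symm
  · intro s hs hne
    have hz : p.eval (((s : ℕ) : ℤ) : ℂ) = 0 := by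
      rw [hp, Polynomial.eval_prod]
      refine Finset.prod_eq_zero (i := s) (Finset.mem_erase.mpr ⟨hne, (Finset.mem_filter.mp hs).1⟩) ?_
      simp
    show x s * p.eval (((s : ℕ) : ℤ) : ℂ) = 0
    rw [hz, mul_zero]
  · intro h
    exact absurd (Finset.mem_filter.mpr ⟨Finset.mem_range.mpr (Nat.lt_succ_of_le hs0), by simp⟩) h

private theorem reduce (O : ValuationSubring ℂ) (N : ℕ) (p : Polynomial O) :
    ∃ c : ℕ → O, ∀ s : ℕ, s ≤ N →
      Polynomial.aeval (((s : ℕ) : ℤ) : ℂ) p =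
        ∑ i ∈ Finset.range (N + 1), (c i : ℂ) * (((s : ℕ) : ℤ) : ℂ) ^ i := by
  set Q : Polynomial O := ∏ t ∈ Finset.range (N + 1),
    (Polynomial.X - Polynomial.C (t : O)) with hQ
  have hmon : Q.Monic := Polynomial.monic_prod_of_monic _ _ fun t _ => Polynomial.monic_X_sub_C _
  have hdQ : Q.natDegree = N + 1 := by
    rw [hQ, Polynomial.natDegree_prod_of_monic _ _ (fun t _ => Polynomial.monic_X_sub_C _)]
    simp only [Polynomial.natDegree_X_sub_C, Finset.sum_const, smul_eq_mul, mul_one,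
      Finset.card_range]
  have hdeg : (p %ₘ Q).natDegree < N + 1 := by
    have hne : Q ≠ 1 := by
      intro h
      rw [h, Polynomial.natDegree_one] at hdQ
      omega
    have := Polynomial.natDegree_modByMonic_lt p hmon hne
    omega
  refine ⟨fun i => (p %ₘ Q).coeff i, fun s hs => ?_⟩
  have hQ0 : Polynomial.aeval (((s : ℕ) : ℤ) : ℂ) Q = 0 := by
    rw [hQ, map_prod]
    refine Finset.prod_eq_zero (i := s) (Finset.mem_range.mpr (Nat.lt_succ_of_le hs)) ?_
    simp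
  conv_lhs => rw [← Polynomial.modByMonic_add_div p Q]
  rw [map_add, map_mul, hQ0, zero_mul, add_zero, Polynomial.aeval_eq_sum_range' hdeg]
  refine Finset.sum_congr rfl fun i _ => ?_
  rw [Algebra.smul_def]
  rfl

theorem nrm (O : ValuationSubring ℂ) (N : ℕ) (x : ℕ → ℂ) (hx : ∃ s ≤ N, x s ≠ 0) :
    ∃ r : ℂ, r ≠ 0 ∧ Nm O N (fun s => r * x s) := by
  obtain ⟨π1, hπ1, n1, hn1, hne⟩ := exists_ne N x hx
  obtain ⟨⟨π0, n0⟩, hmem0, hmax⟩ := Finset.exists_max_image
    (Finset.range 2 ×ˢ Finset.range (N + 1))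
    (fun q : ℕ × ℕ => O.valuation (mu N x q.1 (fun s => (s : ℂ) ^ q.2)))
    ⟨(π1, n1), Finset.mem_product.mpr
      ⟨Finset.mem_range.mpr hπ1, Finset.mem_range.mpr (Nat.lt_succ_of_le hn1)⟩⟩
  have hmax' : ∀ π n : ℕ, n ≤ N → O.valuation (mu N x π (fun s => (s : ℂ) ^ n)) ≤
      O.valuation (mu N x π0 (fun s => (s : ℂ) ^ n0)) := by
    intro π n hn
    rw [← mu_mod N x π]
    exact hmax (π % 2, n) (Finset.mem_product.mpr
      ⟨Finset.mem_range.mpr (Nat.mod_lt _ (by norm_num)),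
        Finset.mem_range.mpr (Nat.lt_succ_of_le hn)⟩)
  set w : ℂ := mu N x π0 (fun s => (s : ℂ) ^ n0) with hw
  have hw0 : w ≠ 0 := by
    intro h0
    have h1 := hmax' π1 n1 hn1
    rw [h0, map_zero, le_zero_iff, _root_.map_eq_zero] at h1
    exact hne h1
  have hvw : O.valuation w ≠ 0 := (map_ne_zero _).mpr hw0
  have hsmall : ∀ π n : ℕ, n ≤ N →
      O.valuation (w⁻¹ * mu N x π (fun s => (s : ℂ) ^ n)) ≤ 1 := by
    intro π n hn
    rw [map_mul, map_inv₀, ← inv_mul_cancel₀ hvw]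
    exact mul_le_mul_right (hmax' π n hn) _
  refine ⟨w⁻¹, inv_ne_zero hw0, ⟨?_, ?_⟩⟩
  · rintro π f ⟨p, hp⟩
    obtain ⟨c, hc⟩ := reduce O N p
    rw [mu_smul, mu_comb N x π f (fun i => (c i : ℂ)) (fun s hs => by rw [hp, hc s hs]),
      Finset.mul_sum]
    refine Valuation.map_sum_le _ fun i hi => ?_
    have hi' : i ≤ N := Nat.lt_succ_iff.mp (Finset.mem_range.mp hi)
    have heq : w⁻¹ * ((c i : ℂ) * mu N x π (fun s => (s : ℂ) ^ i)) =
        (c i : ℂ) * (w⁻¹ * mu N x π (fun s => (s : ℂ) ^ i)) := by ring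
    rw [heq, map_mul]
    exact mul_le_one' (O.valuation_le_one (c i)) (hsmall π i hi')
  · refine ⟨π0, n0, ?_⟩
    rw [mu_smul, ← hw, inv_mul_cancel₀ hw0, map_one]

end Pool.Agent.Lib.MP_06b9d2_ssp
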