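import Pool.Agent.Lib.MP_06b9d2_ssp.Kap

/-!
Module SSP-Star. The eigenvalue equation tested against functions.

Multiply the equation for `j` by `f j` and sum over the `j ≤ N` with `j ≡ π` modulo `2`:
`lam * mu N x π f = ∑_s x_s ∑_m ∑_n (-1) ^ s C(N-s, m) C(s, n) (-3/2) ^ m (3/2) ^ n ∑_{j ≡ π, s ≤ j + n} κ_{j + n - s} f(j)`.
For fixed `s ≤ N`, `m ≤ N - s`, `n ≤ s` (otherwise the binomial coefficients are `0`) substitute `j = s - n + l`, `l = j + n - s`:
only `l ≤ m + n` matter (`kap_deg`), and all these `l` give `j = s - n + l ≤ s + m ≤ N`. `j ≡ π` means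
`s ≡ π + n + l` modulo `2`, and then `(-1) ^ s = (-1) ^ (π + n + l)`.
`dm N m n s = (-3/2) ^ m (3/2) ^ n C(N - s, m) C(s, n)` for natural `s ≤ N` (`Nat.descFactorial_eq_factorial_mul_choose`;
`∏_{i < m} ((r : ℂ) - i)` is the image of `r.descFactorial m`, also if `m > r`; `Nat.cast_descFactorial` or induction).
-/

namespace Pool.Agent.Lib.MP_06b9d2_ssp

open PowerSeries Pool.Agent.L1

theorem prod_desc_star (r m : ℕ) : ∏ i ∈ Finset.range m, ((r : ℂ) - (i : ℂ)) =
    (m.factorial : ℂ) * (r.choose m : ℂ) := by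
  have h : ∏ i ∈ Finset.range m, ((r : ℂ) - (i : ℂ)) = (r.descFactorial m : ℂ) := by
    induction m with
    | zero => simp
    | succ m ih =>
      rw [Finset.prod_range_succ, ih, Nat.descFactorial_succ]
      rcases Nat.lt_or_ge r m with h | h
      · have h0 : r.descFactorial m = 0 := Nat.descFactorial_eq_zero_iff_lt.2 h
        rw [h0]; simp
      · push_cast [Nat.cast_sub h]; ring
  rw [h, Nat.descFactorial_eq_factorial_mul_choose]
  push_cast
  ring

theorem dm_nat (N m n s : ℕ) (hs : s ≤ N) : dm N m n (s : ℤ) =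
    (-(3 / 2)) ^ m * (3 / 2) ^ n * (((N - s).choose m : ℂ) * (s.choose n : ℂ)) := by
  unfold dm
  have h1 : ∏ i ∈ Finset.range m, ((N : ℂ) - (((s : ℤ) : ℤ) : ℂ) - (i : ℂ)) =
      (m.factorial : ℂ) * ((N - s).choose m : ℂ) := by
    rw [← prod_desc_star]
    apply Finset.prod_congr rfl
    intro i _
    push_cast [Nat.cast_sub hs]
    ring
  have h2 : ∏ i ∈ Finset.range n, ((((s : ℤ) : ℤ) : ℂ) - (i : ℂ)) =
      (n.factorial : ℂ) * (s.choose n : ℂ) := by
    rw [← prod_desc_star]
    apply Finset.prod_congr rfl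
    intro i _
    push_cast
    ring
  rw [h1, h2]
  have hm : (m.factorial : ℂ) ≠ 0 := by exact_mod_cast Nat.factorial_ne_zero m
  have hn : (n.factorial : ℂ) ≠ 0 := by exact_mod_cast Nat.factorial_ne_zero n
  field_simp

theorem star_aux (e N m n π s : ℕ) (hs : s ≤ N) (f : ℤ → ℂ) :
    ∑ j ∈ (Finset.range (N + 1)).filter (fun j => j % 2 = π % 2),
      (if s ≤ j + n then
        (-1) ^ s * ((N - s).choose m : ℂ) * (s.choose n : ℂ) * (-(3 / 2)) ^ m * (3 / 2) ^ n *
          (((kap e m n).coeff (j + n - s) : ℤ) : ℂ)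
      else 0) * f j =
    ∑ l ∈ Finset.range (m + n + 1), (-1) ^ (π + n + l) * (((kap e m n).coeff l : ℤ) : ℂ) *
      (if s % 2 = (π + n + l) % 2 then dm N m n (s : ℤ) * f ((s : ℤ) - n + l) else 0) := by
  by_cases hD : m ≤ N - s ∧ n ≤ s
  · obtain ⟨hm, hn⟩ := hD
    rw [dm_nat N m n s hs, Finset.sum_filter]
    obtain ⟨t, ht⟩ : ∃ t, s = n + t := ⟨s - n, by omega⟩
    obtain ⟨u, hu⟩ : ∃ u, N + 1 = t + (m + n + 1) + u := ⟨N + 1 - (t + (m + n + 1)), by omega⟩
    rw [hu, add_assoc t, Finset.sum_range_add _ t, Finset.sum_range_add _ (m + n + 1)]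
    rw [Finset.sum_eq_zero (s := Finset.range t), zero_add,
      Finset.sum_eq_zero (s := Finset.range u), add_zero]
    · apply Finset.sum_congr rfl
      intro l _
      have e1 : (t + l) + n - s = l := by omega
      have e2 : s ≤ t + l + n := by omega
      have e3 : ((t + l) % 2 = π % 2) ↔ (s % 2 = (π + n + l) % 2) := by omega
      have e4 : ((t + l : ℕ) : ℤ) = (s : ℤ) - n + l := by omega
      rw [if_pos e2, e1, e4]
      by_cases hc : s % 2 = (π + n + l) % 2
      · rw [if_pos (e3.2 hc), if_pos hc]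
        have e5 : ((-1 : ℂ)) ^ (π + n + l) = (-1) ^ s := by
          rw [neg_one_pow_eq_pow_mod_two, ← hc, ← neg_one_pow_eq_pow_mod_two]
        rw [e5]
        ring
      · rw [if_neg (fun h => hc (e3.1 h)), if_neg hc, mul_zero]
    · intro l _
      have e1 : t + (m + n + 1 + l) + n - s = m + n + 1 + l := by omega
      rw [e1, kap_deg e m n _ (by omega)]
      simp
    · intro j hj
      have hj' := Finset.mem_range.1 hj
      rw [if_neg (show ¬ s ≤ j + n by omega)]
      simp
  · have h0 : ((N - s).choose m : ℂ) * (s.choose n : ℂ) = 0 := by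
      rcases not_and_or.1 hD with h | h
      · rw [Nat.choose_eq_zero_of_lt (by omega)]; simp
      · rw [Nat.choose_eq_zero_of_lt (show s < n by omega)]; simp
    rw [dm_nat N m n s hs, h0]
    rw [Finset.sum_eq_zero, Finset.sum_eq_zero]
    · intro l _
      simp
    · intro j _
      rw [mul_assoc ((-1 : ℂ) ^ s), h0]
      simp

theorem star (e N : ℕ) (lam : ℂ) (x : ℕ → ℂ) (h : Eg e N lam x) (π : ℕ) (f : ℤ → ℂ) :
    lam * mu N x π f = ∑ m ∈ Finset.range (N + 1), ∑ n ∈ Finset.range (N + 1),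
      ∑ l ∈ Finset.range (m + n + 1), (-1) ^ (π + n + l) * (((kap e m n).coeff l : ℤ) : ℂ) *
        mu N x (π + n + l) (fun s => dm N m n s * f (s - n + l)) := by
  have h1 : lam * mu N x π f = ∑ j ∈ (Finset.range (N + 1)).filter (fun j => j % 2 = π % 2),
      ∑ s ∈ Finset.range (N + 1), Mt e N j s * x s * f j := by
    unfold mu
    rw [Finset.mul_sum]
    apply Finset.sum_congr rfl
    intro j hj
    have hj' := Finset.mem_range.1 (Finset.mem_filter.1 hj).1
    rw [← mul_assoc, ← h j (by omega), Finset.sum_mul]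
  rw [h1, Finset.sum_comm]
  have h2 : ∀ s ∈ Finset.range (N + 1),
      ∑ j ∈ (Finset.range (N + 1)).filter (fun j => j % 2 = π % 2), Mt e N j s * x s * f j =
      ∑ m ∈ Finset.range (N + 1), ∑ n ∈ Finset.range (N + 1), x s *
        ∑ l ∈ Finset.range (m + n + 1), (-1) ^ (π + n + l) * (((kap e m n).coeff l : ℤ) : ℂ) *
        (if s % 2 = (π + n + l) % 2 then dm N m n (s : ℤ) * f ((s : ℤ) - n + l) else 0) := by
    intro s hs
    have hs' : s ≤ N := by have := Finset.mem_range.1 hs; omega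
    simp only [← star_aux e N _ _ π s hs' f]
    unfold Mt
    simp only [Finset.sum_mul, Finset.mul_sum]
    rw [Finset.sum_comm]
    apply Finset.sum_congr rfl
    intro m _
    rw [Finset.sum_comm]
    apply Finset.sum_congr rfl
    intro n _
    apply Finset.sum_congr rfl
    intro j _
    ring
  rw [Finset.sum_congr rfl h2, Finset.sum_comm]
  apply Finset.sum_congr rfl
  intro m _
  rw [Finset.sum_comm]
  apply Finset.sum_congr rfl
  intro n _
  simp only [Finset.mul_sum]
  rw [Finset.sum_comm]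
  apply Finset.sum_congr rfl
  intro l _
  unfold mu
  rw [Finset.mul_sum, Finset.sum_filter]
  apply Finset.sum_congr rfl
  intro s _
  by_cases hc : s % 2 = (π + n + l) % 2
  · rw [if_pos hc, if_pos hc]
    ring
  · rw [if_neg hc, if_neg hc]
    ring

end Pool.Agent.Lib.MP_06b9d2_ssp
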