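import Pool.Agent.Lib.MP_06b9d2_ssp.AB
import Pool.Agent.Lib.MP_06b9d2_ssp.AlgB
import Pool.Agent.Lib.MP_06b9d2_ssp.Ind

/-!
Module SSP-TF. The matrix of `T_2`.

`V2` is injective (`coeff_expand`). For `f : ℂ⟦X⟧`: `2 V2 (U2 f) = f + W f`, `W f = f(-q)` (`PowerSeries.rescale (-1)`, or
`PowerSeries.evalNegHom`), and so `2 V2 (Tq k f) = f + W f + 2 ^ k V2 (V2 f)`. Put `A = V2 a`,
`x 0 = a`, `x 1 = W a`, `x 2 = -2 V2 (V2 a)`, `p = x 0 * x 1 * x 2`, `B = V2 (a ^ 3 - 27 c) = A ^ 3 - 27 V2 c`,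
`G = V2 (27 c) = 27 V2 c`.
`lv_AB` gives `a ^ 3 - 3 A ^ 2 a + 2 (A ^ 3 - 2 G) = 0` (`(a - A) ^ 2 (a + 2 A) = a ^ 3 - 3 A ^ 2 a + 2 A ^ 3 = 108 V2 c = 4 G`);
apply `W` (which fixes the image of `V2`): the same equation for `x 1`. For `x 2`: `V2` of the second equation:
`2 G = 54 V2 c = (A - V2 A) (A + 2 V2 A) ^ 2`, which is the equation for `x 2 = -2 V2 A`. The three `x i` are distinct
(constant coefficients `1, 1, -2`; `a ≠ W a` because the coefficient of `X` in `a` is not `0`: from `54 c = (a - A)(a + 2 A) ^ 2`,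
the coefficient of `X` in `c` is `1` (`lv_c`), so the coefficient of `X` of `a - A` is `6`), so they are the three roots
of `T ^ 3 - 3 A ^ 2 T + 2 (B - G)`, `B - G = A ^ 3 - 2 G` (subtract the equations of `x i` and `x j` and divide by
`x i - x j` twice, `ℂ⟦X⟧` is a domain): `Tri A x`, `p = -2 (B - G)`, `4 B = 2 A ^ 3 - p`, `4 G = 2 A ^ 3 + p`.
`b 0 = a ^ 3 - 27 c`, `g 0 = 27 c`, `b 1 = W (b 0)`, `g 1 = W (g 0)`, `b 2 = -8 V2 (V2 (b 0))`, `g 2 = -8 V2 (V2 (g 0))`.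
`hg`: `i = 0`: `54 c = (a - A) (a + 2 A) ^ 2`; `i = 1`: apply `W`; `i = 2`: `V2` of the first equation:
`2 * 27 V2 (V2 c) * (-8) = -4 * 108 V2 (V2 c) = -4 (A - V2 A) ^ 2 (A + 2 V2 A)` is `(x 2 - A) (x 2 + 2 A) ^ 2` for `x 2 = -2 V2 A`.
`hb`: `b i = x i ^ 3 - g i` for `i = 0, 1` and also for `i = 2` (`-8 (V2 V2 a) ^ 3 - ...`), and
`2 x ^ 3 - (x - A) (x + 2 A) ^ 2 = (x + A) (x - 2 A) ^ 2` (`ring`).
Then for `f = mo a c e N s`, `k = 3 N + e` even: `f + W f + 2 ^ k V2 (V2 f) = ∑ i, x i ^ e * b i ^ (N - s) * g i ^ s`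
(`2 ^ k = (-2) ^ k = (-2) ^ e (-8) ^ (N - s) (-8) ^ s`), and `tri_sum` gives
`2 V2 (Tq k f) = (3 * (-2) ^ N) • ∑_j Mt e N j s • V2 (mo a c e N j)`; `V2` is injective.
-/

namespace Pool.Agent.Lib.MP_06b9d2_ssp

open PowerSeries Pool.Agent.L1

theorem coeff_V2_two (f : ℂ⟦X⟧) (n : ℕ) : coeff (2 * n) (V2 f) = coeff n f :=
  PowerSeries.coeff_expand_mul 2 two_ne_zero f n

theorem coeff_V2_odd (f : ℂ⟦X⟧) (n : ℕ) : coeff (2 * n + 1) (V2 f) = 0 :=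
  PowerSeries.coeff_expand_of_not_dvd 2 two_ne_zero f (by omega)

theorem V2_inj : Function.Injective V2 := by
  intro f g h
  ext n
  rw [← coeff_V2_two f n, ← coeff_V2_two g n, h]

theorem constCoeff_V2 (f : ℂ⟦X⟧) : constantCoeff (V2 f) = constantCoeff f :=
  PowerSeries.constantCoeff_expand 2 two_ne_zero f

theorem Ctwo : (C (2 : ℂ) : ℂ⟦X⟧) = 2 := map_ofNat C 2

/-- the substitution of `-X` for `X` -/
noncomputable def Wn : ℂ⟦X⟧ →+* ℂ⟦X⟧ := PowerSeries.evalNegHom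

theorem coeff_Wn (f : ℂ⟦X⟧) (n : ℕ) : coeff n (Wn f) = (-1) ^ n * coeff n f := by
  unfold Wn evalNegHom
  rw [coeff_rescale]

theorem Wn_V2 (f : ℂ⟦X⟧) : Wn (V2 f) = V2 f := by
  ext n
  rw [coeff_Wn]
  rcases Nat.even_or_odd' n with ⟨m, rfl | rfl⟩
  · rw [pow_mul]; simp
  · rw [coeff_V2_odd]; simp

theorem two_V2_U2 (f : ℂ⟦X⟧) : 2 * V2 (U2 f) = f + Wn f := by
  ext n
  rw [two_mul, map_add, map_add, coeff_Wn]
  rcases Nat.even_or_odd' n with ⟨m, rfl | rfl⟩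
  · rw [coeff_V2_two, pow_mul]
    simp [U2]
  · rw [coeff_V2_odd, pow_succ, pow_mul]
    simp

theorem two_V2_Tq (k : ℕ) (f : ℂ⟦X⟧) :
    2 * V2 (Tq k f) = f + Wn f + (2 : ℂ) ^ k • V2 (V2 f) := by
  unfold Tq
  rw [map_add, mul_add, two_V2_U2, map_smul, two_mul, ← add_smul]
  congr 2
  ring

theorem coeff_one_X_mul (f : ℂ⟦X⟧) : coeff 1 (X * f) = constantCoeff f := by
  rw [show (1 : ℕ) = 0 + 1 from rfl, coeff_succ_X_mul, coeff_zero_eq_constantCoeff_apply]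

theorem two_ne : (2 : ℂ⟦X⟧) ≠ 0 := by
  intro h
  have h1 := congrArg constantCoeff h
  rw [map_ofNat, map_zero] at h1
  norm_num at h1

theorem coeff_one_a {a c : ℂ⟦X⟧} (h : Lv a c) : coeff 1 a = 6 := by
  obtain ⟨u, hu, hc⟩ := lv_c h
  have hB := (lv_AB h).2
  have h1 : coeff 1 c = 1 := by
    rw [hc, coeff_one_X_mul, hu]
  have h2 : constantCoeff (a - V2 a) = 0 := by
    rw [map_sub, constCoeff_V2, sub_self]
  obtain ⟨w, hw⟩ := X_dvd_iff.2 h2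
  have h3 : coeff 1 (a - V2 a) = coeff 1 a := by
    have h0 : coeff 1 (V2 a) = 0 := coeff_V2_odd a 0
    rw [map_sub, h0, sub_zero]
  have h4 : constantCoeff w = coeff 1 a := by
    rw [← h3, hw, coeff_one_X_mul]
  have h5 : coeff 1 (54 * c) = 9 * coeff 1 a := by
    rw [hB, hw, mul_assoc, coeff_one_X_mul, map_mul, h4, map_pow, map_add, map_mul, constCoeff_V2,
      h.ca, map_ofNat]
    ring
  have h6 : coeff 1 (54 * c) = 54 := by
    rw [show (54 : ℂ⟦X⟧) = C (54 : ℂ) from (map_ofNat C 54).symm, coeff_C_mul, h1, mul_one]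
  rw [h6] at h5
  linear_combination -(1 / 9 : ℂ) * h5

/-- the data on the three branches -/
theorem tri_data {a c : ℂ⟦X⟧} (h : Lv a c) (x b g : Fin 3 → ℂ⟦X⟧)
    (x0 : x 0 = a) (x1 : x 1 = Wn a) (x2 : x 2 = -2 * V2 (V2 a))
    (b0 : b 0 = a ^ 3 - 27 * c) (b1 : b 1 = Wn (a ^ 3 - 27 * c))
    (b2 : b 2 = -8 * V2 (V2 (a ^ 3 - 27 * c)))
    (g0 : g 0 = 27 * c) (g1 : g 1 = Wn (27 * c)) (g2 : g 2 = -8 * V2 (V2 (27 * c))) :
    Tri (V2 a) x ∧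
    4 * V2 (a ^ 3 - 27 * c) = 2 * (V2 a) ^ 3 - x 0 * x 1 * x 2 ∧
    4 * V2 (27 * c) = 2 * (V2 a) ^ 3 + x 0 * x 1 * x 2 ∧
    (∀ i, 2 * b i = (x i + V2 a) * (x i - 2 * V2 a) ^ 2) ∧
    (∀ i, 2 * g i = (x i - V2 a) * (x i + 2 * V2 a) ^ 2) := by
  obtain ⟨hA, hB⟩ := lv_AB h
  have m27 : ∀ f : ℂ⟦X⟧, V2 (27 * f) = 27 * V2 f := fun f => by
    rw [map_mul, map_ofNat]
  have w27 : ∀ f : ℂ⟦X⟧, Wn (27 * f) = 27 * Wn f := fun f => by
    rw [map_mul, map_ofNat]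
  have hWA : 108 * V2 c = (Wn a - V2 a) ^ 2 * (Wn a + 2 * V2 a) := by
    have := congrArg Wn hA
    simpa only [map_mul, map_pow, map_sub, map_add, map_ofNat, Wn_V2] using this
  have hWB : 54 * Wn c = (Wn a - V2 a) * (Wn a + 2 * V2 a) ^ 2 := by
    have := congrArg Wn hB
    simpa only [map_mul, map_pow, map_sub, map_add, map_ofNat, Wn_V2] using this
  have hVA : 108 * V2 (V2 c) = (V2 a - V2 (V2 a)) ^ 2 * (V2 a + 2 * V2 (V2 a)) := by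
    have := congrArg V2 hA
    simpa only [map_mul, map_pow, map_sub, map_add, map_ofNat] using this
  have hVB : 54 * V2 c = (V2 a - V2 (V2 a)) * (V2 a + 2 * V2 (V2 a)) ^ 2 := by
    have := congrArg V2 hB
    simpa only [map_mul, map_pow, map_sub, map_add, map_ofNat] using this
  -- the cubic equation
  have P0 : (x 0 - V2 a) ^ 2 * (x 0 + 2 * V2 a) = 108 * V2 c := by rw [x0, hA]
  have P1 : (x 1 - V2 a) ^ 2 * (x 1 + 2 * V2 a) = 108 * V2 c := by rw [x1, hWA]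
  have P2 : (x 2 - V2 a) ^ 2 * (x 2 + 2 * V2 a) = 108 * V2 c := by
    rw [x2]
    linear_combination -2 * hVB
  have c0 : constantCoeff (x 0) = 1 := by rw [x0, h.ca]
  have c1 : constantCoeff (x 1) = 1 := by
    rw [x1, ← coeff_zero_eq_constantCoeff_apply, coeff_Wn, coeff_zero_eq_constantCoeff_apply, h.ca]
    simp
  have c2 : constantCoeff (x 2) = -2 := by
    rw [x2, map_mul, constCoeff_V2, constCoeff_V2, h.ca, map_neg, map_ofNat, mul_one]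
  have d01 : x 0 - x 1 ≠ 0 := by
    intro h0
    have h1 := congrArg (coeff 1) h0
    rw [map_sub, x0, x1, coeff_Wn, coeff_one_a h, map_zero] at h1
    norm_num at h1
  have d02 : x 0 - x 2 ≠ 0 := by
    intro h0
    have h1 := congrArg (constantCoeff) h0
    rw [map_sub, c0, c2, map_zero] at h1
    norm_num at h1
  have d12 : x 1 - x 2 ≠ 0 := by
    intro h0
    have h1 := congrArg (constantCoeff) h0
    rw [map_sub, c1, c2, map_zero] at h1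
    norm_num at h1
  have q01 : x 0 ^ 2 + x 0 * x 1 + x 1 ^ 2 - 3 * (V2 a) ^ 2 = 0 := by
    apply mul_left_cancel₀ d01
    linear_combination P0 - P1
  have q02 : x 0 ^ 2 + x 0 * x 2 + x 2 ^ 2 - 3 * (V2 a) ^ 2 = 0 := by
    apply mul_left_cancel₀ d02
    linear_combination P0 - P2
  have s1 : x 0 + x 1 + x 2 = 0 := by
    apply mul_left_cancel₀ d12
    linear_combination q01 - q02
  have s2 : x 0 * x 1 + x 0 * x 2 + x 1 * x 2 = -3 * (V2 a) ^ 2 := by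
    linear_combination (x 0 + x 1) * s1 - q01
  have hp : 108 * V2 c = 2 * (V2 a) ^ 3 + x 0 * x 1 * x 2 := by
    linear_combination -P0 + x 0 ^ 2 * s1 - x 0 * s2
  have hgi : ∀ i, 2 * g i = (x i - V2 a) * (x i + 2 * V2 a) ^ 2 := by
    intro i
    fin_cases i
    · change 2 * g 0 = (x 0 - V2 a) * (x 0 + 2 * V2 a) ^ 2
      rw [g0, x0]
      linear_combination hB
    · change 2 * g 1 = (x 1 - V2 a) * (x 1 + 2 * V2 a) ^ 2
      rw [g1, x1, w27]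
      linear_combination hWB
    · change 2 * g 2 = (x 2 - V2 a) * (x 2 + 2 * V2 a) ^ 2
      rw [g2, x2, m27, m27]
      linear_combination -4 * hVA
  have hbg : ∀ i, b i = x i ^ 3 - g i := by
    intro i
    fin_cases i
    · change b 0 = x 0 ^ 3 - g 0
      rw [b0, x0, g0]
    · change b 1 = x 1 ^ 3 - g 1
      rw [b1, x1, g1, map_sub, map_pow]
    · change b 2 = x 2 ^ 3 - g 2
      rw [b2, x2, g2, map_sub, map_sub, map_pow, map_pow]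
      ring
  refine ⟨⟨s1, s2⟩, ?_, ?_, ?_, hgi⟩
  · rw [map_sub, map_pow, m27]
    linear_combination -hp
  · rw [m27]
    linear_combination hp
  · intro i
    rw [hbg i]
    linear_combination -hgi i

theorem T_mo {a c : ℂ⟦X⟧} (h : Lv a c) (e N s : ℕ) (he : e ≤ 2) (hev : Even (N + e)) (hs : s ≤ N) :
    Tq (3 * N + e) (mo a c e N s) =
      (3 / 2 * (-2) ^ N : ℂ) • ∑ j ∈ Finset.range (N + 1), Mt e N j s • mo a c e N j := by
  apply V2_inj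
  have hne : (2 : ℂ⟦X⟧) ≠ 0 := two_ne
  apply mul_left_cancel₀ hne
  obtain ⟨hT, hB, hG, hb, hg⟩ := tri_data h
    ![a, Wn a, -2 * V2 (V2 a)]
    ![a ^ 3 - 27 * c, Wn (a ^ 3 - 27 * c), -8 * V2 (V2 (a ^ 3 - 27 * c))]
    ![27 * c, Wn (27 * c), -8 * V2 (V2 (27 * c))] rfl rfl rfl rfl rfl rfl rfl rfl rfl
  have key := tri_sum hT hB hG hb hg e N s he hs
  have hpow : (-2 : ℂ⟦X⟧) ^ e * ((-8) ^ (N - s) * (-8) ^ s) = (2 : ℂ⟦X⟧) ^ (3 * N + e) := by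
    rw [← pow_add, Nat.sub_add_cancel hs, show (-8 : ℂ⟦X⟧) = (-2) ^ 3 by norm_num, ← pow_mul,
      ← pow_add]
    have hev' : Even (e + 3 * N) := by
      obtain ⟨r, hr⟩ := hev
      exact ⟨r + N, by omega⟩
    rw [hev'.neg_pow, add_comm]
  have e1 : 2 * V2 (Tq (3 * N + e) (mo a c e N s)) =
      ∑ i, (![a, Wn a, -2 * V2 (V2 a)] : Fin 3 → ℂ⟦X⟧) i ^ e *
        (![a ^ 3 - 27 * c, Wn (a ^ 3 - 27 * c), -8 * V2 (V2 (a ^ 3 - 27 * c))] :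
          Fin 3 → ℂ⟦X⟧) i ^ (N - s) *
        (![27 * c, Wn (27 * c), -8 * V2 (V2 (27 * c))] : Fin 3 → ℂ⟦X⟧) i ^ s := by
    rw [two_V2_Tq, Fin.sum_univ_three]
    change mo a c e N s + Wn (mo a c e N s) + (2 : ℂ) ^ (3 * N + e) • V2 (V2 (mo a c e N s)) =
      a ^ e * (a ^ 3 - 27 * c) ^ (N - s) * (27 * c) ^ s +
      (Wn a) ^ e * (Wn (a ^ 3 - 27 * c)) ^ (N - s) * (Wn (27 * c)) ^ s +
      (-2 * V2 (V2 a)) ^ e * (-8 * V2 (V2 (a ^ 3 - 27 * c))) ^ (N - s) *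
        (-8 * V2 (V2 (27 * c))) ^ s
    have h1 : (2 : ℂ) ^ (3 * N + e) • V2 (V2 (mo a c e N s)) =
        (2 : ℂ⟦X⟧) ^ (3 * N + e) * V2 (V2 (mo a c e N s)) := by
      rw [smul_eq_C_mul, map_pow, Ctwo]
    rw [h1, ← hpow]
    unfold mo
    simp only [map_mul, map_pow]
    rw [mul_pow (-2 : ℂ⟦X⟧), mul_pow (-8 : ℂ⟦X⟧), mul_pow (-8 : ℂ⟦X⟧)]
    ring
  rw [e1, key, map_smul, map_sum, mul_smul_comm, Finset.mul_sum, Finset.smul_sum, Finset.smul_sum]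
  refine Finset.sum_congr rfl fun j _ => ?_
  have h2 : V2 (mo a c e N j) = (V2 a) ^ e * (V2 (a ^ 3 - 27 * c)) ^ (N - j) * (V2 (27 * c)) ^ j := by
    unfold mo
    simp only [map_mul, map_pow]
  rw [map_smul, h2, mul_smul_comm]
  have h3 : ∀ F : ℂ⟦X⟧, (2 : ℂ⟦X⟧) * F = (2 : ℂ) • F := fun F => by
    rw [smul_eq_C_mul, Ctwo]
  rw [h3, smul_smul, smul_smul, smul_smul]
  congr 1
  ring

/-- there are `A`, `x` with the following properties (used in `Sym`) -/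
theorem tri_ex {a c : ℂ⟦X⟧} (h : Lv a c) : ∃ (x b g : Fin 3 → ℂ⟦X⟧), Tri (V2 a) x ∧
    4 * V2 (a ^ 3 - 27 * c) = 2 * (V2 a) ^ 3 - x 0 * x 1 * x 2 ∧
    4 * V2 (27 * c) = 2 * (V2 a) ^ 3 + x 0 * x 1 * x 2 ∧
    (∀ i, 2 * b i = (x i + V2 a) * (x i - 2 * V2 a) ^ 2) ∧
    (∀ i, 2 * g i = (x i - V2 a) * (x i + 2 * V2 a) ^ 2) :=
  ⟨_, _, _, tri_data h ![a, Wn a, -2 * V2 (V2 a)]
    ![a ^ 3 - 27 * c, Wn (a ^ 3 - 27 * c), -8 * V2 (V2 (a ^ 3 - 27 * c))]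
    ![27 * c, Wn (27 * c), -8 * V2 (V2 (27 * c))] rfl rfl rfl rfl rfl rfl rfl rfl rfl⟩

end Pool.Agent.Lib.MP_06b9d2_ssp
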