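import Pool.Agent.Lib.MP_06b9d2_ssp.Cg0
import Pool.Agent.Lib.MP_06b9d2_ssp.Cg1
import Pool.Agent.Lib.MP_06b9d2_ssp.Cg2
import Pool.Agent.Lib.MP_06b9d2_ssp.Fn

/-!
Module SSP-Two. Every eigenspace of `Mt` has dimension at most two.

`O` from `exists_O`. `e = 0`: `fin02` for `d = 1 - 9 (N ^ 3 - N ^ 2)`, `t = -1` (`v d = 1`: `val_int`, `3` does not divide `d`) gives `π`;
`L x = ![mu N x π 1, mu N x π s]` (linear in `x`). If `x ≠ 0` (so `x_s ≠ 0` for some `s ≤ N`), `L x = 0`: `nrm` gives `r`, and `r x` is an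
eigenvector (`Eg` is linear), normalized, with `L (r x) = 0`, `cong0`: contradiction. `e = 2`: `d = 2 + 3 N + 9 (N ^ 3 - N)`, `t = 1`, `cong2`. `e = 1`:
`L x = ![mu N x 0 1, mu N x 1 1]`, `cong1`, `fin1`.
-/

namespace Pool.Agent.Lib.MP_06b9d2_ssp

open PowerSeries Pool.Agent.L1

/-- `mu N x π f` as a linear form in `x` -/
private noncomputable def muL (N π : ℕ) (f : ℤ → ℂ) : (ℕ → ℂ) →ₗ[ℂ] ℂ where
  toFun x := mu N x π f
  map_add' x y := by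
    simp only [mu, Pi.add_apply, add_mul, Finset.sum_add_distrib]
  map_smul' r x := by
    simp only [mu, Pi.smul_apply, smul_eq_mul, RingHom.id_apply, Finset.mul_sum, mul_assoc]

private theorem mu_smul (N : ℕ) (x : ℕ → ℂ) (r : ℂ) (π : ℕ) (f : ℤ → ℂ) :
    mu N (fun s => r * x s) π f = r * mu N x π f := by
  simp only [mu, Finset.mul_sum, mul_assoc]

private theorem Eg_smul {e N : ℕ} {lam : ℂ} {x : ℕ → ℂ} (h : Eg e N lam x) (r : ℂ) :
    Eg e N lam (fun s => r * x s) := by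
  intro j hj
  have h1 := h j hj
  calc ∑ s ∈ Finset.range (N + 1), Mt e N j s * (r * x s)
      = r * ∑ s ∈ Finset.range (N + 1), Mt e N j s * x s := by
        rw [Finset.mul_sum]
        refine Finset.sum_congr rfl fun s _ => ?_
        ring
    _ = lam * (r * x j) := by rw [h1]; ring

private theorem key {O : ValuationSubring ℂ} (e N : ℕ) (lam : ℂ) (π₁ π₂ : ℕ) (f₁ f₂ : ℤ → ℂ)
    (hfin : ∀ y : ℕ → ℂ, Nm O N y → Eg e N lam y → mu N y π₁ f₁ = 0 → mu N y π₂ f₂ = 0 → False) :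
    ∃ L : (ℕ → ℂ) →ₗ[ℂ] (Fin 2 → ℂ),
      ∀ x : ℕ → ℂ, Eg e N lam x → (∀ s, N < s → x s = 0) → L x = 0 → x = 0 := by
  refine ⟨LinearMap.pi ![muL N π₁ f₁, muL N π₂ f₂], fun x hx hN hL => ?_⟩
  by_contra hne
  have hex : ∃ s ≤ N, x s ≠ 0 := by
    by_contra hcon
    push Not at hcon
    refine hne (funext fun s => ?_)
    rcases Nat.lt_or_ge N s with h | h
    · exact hN s h
    · exact hcon s h
  obtain ⟨r, -, hr⟩ := nrm O N x hex
  have h0 : mu N x π₁ f₁ = 0 := congrFun hL 0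
  have h1 : mu N x π₂ f₂ = 0 := congrFun hL 1
  refine hfin _ hr (Eg_smul hx r) ?_ ?_
  · rw [mu_smul, h0, mul_zero]
  · rw [mu_smul, h1, mul_zero]

theorem two (e N : ℕ) (he : e ≤ 2) (lam : ℂ) : ∃ L : (ℕ → ℂ) →ₗ[ℂ] (Fin 2 → ℂ),
    ∀ x : ℕ → ℂ, Eg e N lam x → (∀ s, N < s → x s = 0) → L x = 0 → x = 0 := by
  obtain ⟨O, h3⟩ := exists_O
  have hcase : e = 0 ∨ e = 1 ∨ e = 2 := by omega
  rcases hcase with rfl | rfl | rfl
  · have hd : O.valuation (1 - 9 * ((N : ℂ) ^ 3 - (N : ℂ) ^ 2)) = 1 := by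
      have h := val_int h3 (1 - 9 * ((N : ℤ) ^ 3 - (N : ℤ) ^ 2)) (by
        generalize (N : ℤ) ^ 3 - (N : ℤ) ^ 2 = m
        omega)
      push_cast at h
      exact h
    obtain ⟨π, hπ⟩ := fin02 h3 N lam _ (-1) hd (Or.inr rfl)
    exact key 0 N lam π π _ _ fun y hy hE h1 h2 => hπ y hy (cong0 h3 N lam y hE hy) h1 h2
  · exact key 1 N lam 0 1 _ _ fun y hy hE h1 h2 =>
      fin1 h3 N lam y hy (cong1 h3 N lam y hE hy) h1 h2
  · have hd : O.valuation (2 + 3 * (N : ℂ) + 9 * ((N : ℂ) ^ 3 - (N : ℂ))) = 1 := by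
      have h := val_int h3 (2 + 3 * (N : ℤ) + 9 * ((N : ℤ) ^ 3 - (N : ℤ))) (by
        generalize (N : ℤ) ^ 3 - (N : ℤ) = m
        omega)
      push_cast at h
      exact h
    obtain ⟨π, hπ⟩ := fin02 h3 N lam _ 1 hd (Or.inl rfl)
    exact key 2 N lam π π _ _ fun y hy hE h1 h2 => hπ y hy (cong2 h3 N lam y hE hy) h1 h2

end Pool.Agent.Lib.MP_06b9d2_ssp
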